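import Mathlib

/-!
MODULE B2 (45 min).  A dense `r`-ary relation contains a complete `r`-partite pattern (Erdős 1964).

PROOF by induction on `r` (for all `δ`, `T`).  `r = 0`: trivial (`δ ≤ card` gives `R` of the only
tuple, `N = 1`... note for `r = 0` the assumption says `δ ≤ ncard`, so the set is nonempty).
Step: `R : (Fin (r+1) → Fin n) → Prop`.  For `z : Fin r → Fin n` let `d z = #{x | R (Fin.cons x z)}`,
`∑ z, d z ≥ δ n^(r+1)`.  For `S : Fin T → Fin n` let `R_S z = ∀ i, R (Fin.cons (S i) z)`;
`∑ S, #{z | R_S z} = ∑ z, (d z)^T ≥ n^r (δ n)^T` (power mean inequality).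
The non-injective `S` number at most `T^2 n^(T-1)` and contribute at
most `T^2 n^(T-1) n^r`.  So if every injective `S` had `#R_S < (δ^T/2) n^r` then
`δ^T n^(T+r) ≤ (δ^T/2) n^(T+r) + T^2 n^(T+r-1)`, false for `n > 2 T^2 / δ^T`.  Apply the induction
hypothesis with `δ^T/2` to `R_S` and put `X 0 = S`, `X (i+1)` = the others (`Fin.cons`).
-/

set_option autoImplicit false

namespace Pool.Agent.Lib.MP_a3b162_co

open Finset in
theorem blow_noninj (T n : ℕ) (hn : 0 < n) :
    ((univ.filter fun S : Fin T → Fin n => ¬ Function.Injective S).card : ℝ) * n ≤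
      (T : ℝ) ^ 2 * (n : ℝ) ^ T := by
  classical
  have h1 : (univ.filter fun S : Fin T → Fin n => Function.Injective S).card =
      n.descFactorial T := by
    have h2 : Fintype.card (Fin T ↪ Fin n) = n.descFactorial T := by
      rw [Fintype.card_embedding_eq, Fintype.card_fin, Fintype.card_fin]
    rw [← h2, ← Fintype.card_subtype]
    exact Fintype.card_congr (Equiv.subtypeInjectiveEquivEmbedding (Fin T) (Fin n))
  have h3 := Finset.card_filter_add_card_filter_not (s := (univ : Finset (Fin T → Fin n)))
    (fun S => Function.Injective S)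
  rw [h1, card_univ, Fintype.card_fun, Fintype.card_fin, Fintype.card_fin] at h3
  have h4 : ((n.descFactorial T : ℕ) : ℝ) +
      ((univ.filter fun S : Fin T → Fin n => ¬ Function.Injective S).card : ℝ) =
        (n : ℝ) ^ T := by exact_mod_cast h3
  have hn' : (0 : ℝ) < n := by exact_mod_cast hn
  have h5 : (n : ℝ) ^ T - (T : ℝ) ^ 2 * (n : ℝ) ^ T / n ≤ ((n.descFactorial T : ℕ) : ℝ) := by
    by_cases hT : T ≤ n
    · have h6 := Nat.pow_sub_le_descFactorial n T
      have h7 : ((n + 1 - T : ℕ) : ℝ) ^ T ≤ ((n.descFactorial T : ℕ) : ℝ) := by exact_mod_cast h6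
      have h8 : ((n + 1 - T : ℕ) : ℝ) = (n : ℝ) + 1 - T := by
        rw [Nat.cast_sub (by omega)]
        push_cast
        ring
      rw [h8] at h7
      refine le_trans ?_ h7
      have h9 : (n : ℝ) + 1 - T = n * (1 + (1 - T) / n) := by
        field_simp
        ring
      have hTn : (T : ℝ) ≤ n := by exact_mod_cast hT
      have hT0 : (0 : ℝ) ≤ T := Nat.cast_nonneg T
      have h10 : (-2 : ℝ) ≤ (1 - T) / n := by
        rw [le_div_iff₀ hn']
        nlinarith
      have h11 := one_add_mul_le_pow h10 T
      rw [h9, mul_pow]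
      have h12 : (n : ℝ) ^ T * (1 + (T : ℝ) * ((1 - T) / n)) ≤
          (n : ℝ) ^ T * (1 + (1 - T) / n) ^ T :=
        mul_le_mul_of_nonneg_left h11 (by positivity)
      refine le_trans ?_ h12
      have h13 : (n : ℝ) ^ T * (1 + (T : ℝ) * ((1 - T) / n)) -
          ((n : ℝ) ^ T - (T : ℝ) ^ 2 * (n : ℝ) ^ T / n) = (n : ℝ) ^ T * T / n := by
        field_simp
        ring
      have h14 : (0 : ℝ) ≤ (n : ℝ) ^ T * T / n := by positivity
      linarith
    · push Not at hT
      have h6 : (0 : ℝ) ≤ ((n.descFactorial T : ℕ) : ℝ) := Nat.cast_nonneg _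
      refine le_trans ?_ h6
      have hTn : (n : ℝ) ≤ T := by exact_mod_cast hT.le
      have h1n : (1 : ℝ) ≤ n := by exact_mod_cast hn
      have h7 : (n : ℝ) ≤ (T : ℝ) ^ 2 := by nlinarith
      have h8 : (n : ℝ) ^ T ≤ (T : ℝ) ^ 2 * (n : ℝ) ^ T / n := by
        rw [le_div_iff₀ hn', mul_comm]
        exact mul_le_mul_of_nonneg_right h7 (by positivity)
      linarith
  have h15 : ((univ.filter fun S : Fin T → Fin n => ¬ Function.Injective S).card : ℝ) ≤
      (T : ℝ) ^ 2 * (n : ℝ) ^ T / n := by linarith
  rwa [le_div_iff₀ hn'] at h15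

theorem blowup (r : ℕ) : ∀ (δ : ℝ), 0 < δ → ∀ T : ℕ, ∃ N : ℕ, ∀ n : ℕ, N ≤ n →
    ∀ R : (Fin r → Fin n) → Prop, δ * (n : ℝ) ^ r ≤ ({x | R x}.ncard : ℝ) →
    ∃ X : Fin r → Fin T → Fin n, (∀ a, Function.Injective (X a)) ∧
      ∀ s : Fin r → Fin T, R fun a => X a (s a) := by
  classical
  induction r with
  | zero =>
    intro δ hδ T
    refine ⟨0, fun n _ R hR => ⟨fun a => a.elim0, fun a => a.elim0, fun s => ?_⟩⟩
    have h1 : 0 < {x | R x}.ncard := by
      rw [pow_zero, mul_one] at hR
      have : (0 : ℝ) < ({x | R x}.ncard : ℝ) := lt_of_lt_of_le hδ hR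
      exact_mod_cast this
    obtain ⟨x, hx⟩ := Set.nonempty_of_ncard_ne_zero h1.ne'
    have h2 : (fun a : Fin 0 => (fun a : Fin 0 => (a.elim0 : Fin T → Fin n)) a (s a)) = x :=
      Subsingleton.elim _ _
    rw [h2]
    exact hx
  | succ r ih =>
    intro δ hδ T
    have hδT : 0 < δ ^ T := pow_pos hδ T
    obtain ⟨N', hN'⟩ := ih (δ ^ T / 2) (by positivity) T
    obtain ⟨N1, hN1⟩ := exists_nat_gt (2 * (T : ℝ) ^ 2 / δ ^ T)
    refine ⟨max N' (max N1 1), fun n hn R hR => ?_⟩
    have hnN' : N' ≤ n := (le_max_left _ _).trans hn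
    have hnN1 : N1 ≤ n := (le_max_left _ _).trans ((le_max_right _ _).trans hn)
    have hn1 : 1 ≤ n := (le_max_right _ _).trans ((le_max_right _ _).trans hn)
    have hnpos : (0 : ℝ) < n := by exact_mod_cast hn1
    let A : (Fin r → Fin n) → Finset (Fin n) := fun z =>
      Finset.univ.filter fun x => R (Fin.cons x z : Fin (r + 1) → Fin n)
    let B : (Fin T → Fin n) → Finset (Fin r → Fin n) := fun S =>
      Finset.univ.filter fun z => ∀ i, R (Fin.cons (S i) z : Fin (r + 1) → Fin n)
    have hsum : ∑ z, ((A z).card : ℝ) = ({x | R x}.ncard : ℝ) := by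
      have h1 : {x | R x}.ncard = (Finset.univ.filter fun x => R x).card := by
        rw [Set.ncard_eq_toFinset_card']
        congr 1
        ext x
        simp
      rw [h1]
      have h2 : (Finset.univ.filter fun x : Fin (r + 1) → Fin n => R x).card =
          ∑ z, (A z).card := by
        have h3 : ∑ z, (A z).card =
            (Finset.univ.sigma fun z : Fin r → Fin n => A z).card := by
          rw [Finset.card_sigma]
        rw [h3]
        refine Finset.card_bij' (fun x _ => ⟨Fin.tail x, x 0⟩)
          (fun p _ => (Fin.cons p.2 p.1 : Fin (r + 1) → Fin n)) ?_ ?_ ?_ ?_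
        · intro x hx
          rw [Finset.mem_sigma]
          refine ⟨Finset.mem_univ _, ?_⟩
          show x 0 ∈ Finset.univ.filter fun y => R (Fin.cons y (Fin.tail x) : Fin (r + 1) → Fin n)
          rw [Finset.mem_filter] at hx ⊢
          rw [Fin.cons_self_tail]
          exact ⟨Finset.mem_univ _, hx.2⟩
        · rintro ⟨z, x⟩ hp
          rw [Finset.mem_sigma] at hp
          have h5 := hp.2
          have h4 : x ∈ Finset.univ.filter fun y => R (Fin.cons y z : Fin (r + 1) → Fin n) := h5
          rw [Finset.mem_filter] at h4 ⊢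
          exact ⟨Finset.mem_univ _, h4.2⟩
        · intro x _
          exact Fin.cons_self_tail x
        · rintro ⟨z, x⟩ _
          simp
      rw [h2]
      push_cast
      rfl
    have hcardz : (Fintype.card (Fin r → Fin n) : ℝ) = (n : ℝ) ^ r := by
      rw [Fintype.card_fun, Fintype.card_fin, Fintype.card_fin]
      push_cast
      rfl
    have hnr : (0 : ℝ) < (n : ℝ) ^ r := by positivity
    -- power mean
    have hpm : (n : ℝ) ^ r * (δ * n) ^ T ≤ ∑ z, ((A z).card : ℝ) ^ T := by
      have h1 := Real.pow_arith_mean_le_arith_mean_pow (Finset.univ : Finset (Fin r → Fin n))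
        (fun _ => ((n : ℝ) ^ r)⁻¹) (fun z => ((A z).card : ℝ)) (fun _ _ => by positivity)
        (by rw [Finset.sum_const, Finset.card_univ, nsmul_eq_mul, hcardz]
            exact mul_inv_cancel₀ hnr.ne')
        (fun _ _ => Nat.cast_nonneg _) T
      rw [← Finset.mul_sum, ← Finset.mul_sum, hsum] at h1
      have h2 : δ * n ≤ ((n : ℝ) ^ r)⁻¹ * ({x | R x}.ncard : ℝ) := by
        rw [inv_mul_eq_div, le_div_iff₀ hnr]
        calc δ * n * (n : ℝ) ^ r = δ * (n : ℝ) ^ (r + 1) := by ring
          _ ≤ _ := hR
      have h3 : (δ * n) ^ T ≤ ((n : ℝ) ^ r)⁻¹ * ∑ z, ((A z).card : ℝ) ^ T :=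
        (pow_le_pow_left₀ (by positivity) h2 T).trans h1
      rw [inv_mul_eq_div, le_div_iff₀ hnr] at h3
      linarith
    -- double counting
    have hdc : ∑ S, ((B S).card : ℝ) = ∑ z, ((A z).card : ℝ) ^ T := by
      have h1 : ∑ S, (B S).card = ∑ z, (A z).card ^ T := by
        have h2 : ∀ S, (B S).card = ∑ z, if (∀ i, R (Fin.cons (S i) z : Fin (r + 1) → Fin n))
            then 1 else 0 := fun S => Finset.card_filter _ _
        simp only [h2]
        rw [Finset.sum_comm]
        refine Finset.sum_congr rfl fun z _ => ?_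
        rw [← Finset.card_filter]
        have h3 : (Finset.univ.filter fun S : Fin T → Fin n =>
            ∀ i, R (Fin.cons (S i) z : Fin (r + 1) → Fin n)) =
            Fintype.piFinset fun _ : Fin T => A z := by
          ext S
          rw [Finset.mem_filter, Fintype.mem_piFinset]
          constructor
          · intro h i
            show S i ∈ Finset.univ.filter fun y => R (Fin.cons y z : Fin (r + 1) → Fin n)
            rw [Finset.mem_filter]
            exact ⟨Finset.mem_univ _, h.2 i⟩
          · intro h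
            refine ⟨Finset.mem_univ _, fun i => ?_⟩
            have h4 : S i ∈ Finset.univ.filter
              fun y => R (Fin.cons y z : Fin (r + 1) → Fin n) := h i
            rw [Finset.mem_filter] at h4
            exact h4.2
        rw [h3, Fintype.card_piFinset]
        rw [Finset.prod_const, Finset.card_univ, Fintype.card_fin]
      exact_mod_cast h1
    -- an injective `S` with many `z`
    have hex : ∃ S : Fin T → Fin n, Function.Injective S ∧
        δ ^ T / 2 * (n : ℝ) ^ r ≤ ((B S).card : ℝ) := by
      by_contra hcon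
      push Not at hcon
      have h1 : ∑ S, ((B S).card : ℝ) ≤ (n : ℝ) ^ T * (δ ^ T / 2 * (n : ℝ) ^ r) +
          ((Finset.univ.filter fun S : Fin T → Fin n => ¬ Function.Injective S).card : ℝ) *
            (n : ℝ) ^ r := by
        rw [← Finset.sum_filter_add_sum_filter_not Finset.univ
          (fun S : Fin T → Fin n => Function.Injective S)]
        refine add_le_add ?_ ?_
        · calc ∑ S ∈ Finset.univ.filter (fun S : Fin T → Fin n => Function.Injective S),
              ((B S).card : ℝ)
              ≤ ∑ S ∈ Finset.univ.filter (fun S : Fin T → Fin n => Function.Injective S),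
                (δ ^ T / 2 * (n : ℝ) ^ r) := by
                refine Finset.sum_le_sum fun S hS => ?_
                rw [Finset.mem_filter] at hS
                exact (hcon S hS.2).le
            _ = ((Finset.univ.filter (fun S : Fin T → Fin n => Function.Injective S)).card : ℝ) *
                (δ ^ T / 2 * (n : ℝ) ^ r) := by rw [Finset.sum_const, nsmul_eq_mul]
            _ ≤ (n : ℝ) ^ T * (δ ^ T / 2 * (n : ℝ) ^ r) := by
                refine mul_le_mul_of_nonneg_right ?_ (by positivity)
                have h2 : (Finset.univ.filter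
                  (fun S : Fin T → Fin n => Function.Injective S)).card ≤ n ^ T := by
                  refine (Finset.card_le_univ _).trans ?_
                  rw [Fintype.card_fun, Fintype.card_fin, Fintype.card_fin]
                exact_mod_cast h2
        · calc ∑ S ∈ Finset.univ.filter (fun S : Fin T → Fin n => ¬ Function.Injective S),
              ((B S).card : ℝ)
              ≤ ∑ S ∈ Finset.univ.filter (fun S : Fin T → Fin n => ¬ Function.Injective S),
                ((n : ℝ) ^ r) := by
                refine Finset.sum_le_sum fun S _ => ?_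
                rw [← hcardz]
                exact_mod_cast Finset.card_le_univ _
            _ = _ := by rw [Finset.sum_const, nsmul_eq_mul]
      rw [hdc] at h1
      have h2 := blow_noninj T n hn1
      have h3 : (n : ℝ) ^ r * (δ * n) ^ T * n ≤ ((n : ℝ) ^ T * (δ ^ T / 2 * (n : ℝ) ^ r)) * n +
          (T : ℝ) ^ 2 * (n : ℝ) ^ T * (n : ℝ) ^ r := by
        have h4 := hpm.trans h1
        have h5 := mul_le_mul_of_nonneg_right h4 hnpos.le
        have h6 := mul_le_mul_of_nonneg_right h2 hnr.le
        nlinarith [h5, h6]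
      have h7 : (0 : ℝ) < (n : ℝ) ^ r * (n : ℝ) ^ T := by positivity
      have h8 : ((n : ℝ) ^ r * (n : ℝ) ^ T) * (δ ^ T / 2 * n) ≤
          ((n : ℝ) ^ r * (n : ℝ) ^ T) * (T : ℝ) ^ 2 := by
        rw [mul_pow] at h3
        nlinarith [h3]
      have h9 := le_of_mul_le_mul_left h8 h7
      have h10 : 2 * (T : ℝ) ^ 2 / δ ^ T < n := hN1.trans_le (by exact_mod_cast hnN1)
      rw [div_lt_iff₀ hδT] at h10
      nlinarith
    obtain ⟨S, hSinj, hS⟩ := hex
    have hS' : δ ^ T / 2 * (n : ℝ) ^ r ≤
        ({z | ∀ i, R (Fin.cons (S i) z : Fin (r + 1) → Fin n)}.ncard : ℝ) := by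
      have h1 : {z | ∀ i, R (Fin.cons (S i) z : Fin (r + 1) → Fin n)}.ncard = (B S).card := by
        rw [Set.ncard_eq_toFinset_card']
        congr 1
        ext x
        simp [B]
      rw [h1]
      exact hS
    obtain ⟨X', hX'inj, hX'⟩ := hN' n hnN' (fun z => ∀ i, R (Fin.cons (S i) z)) hS'
    refine ⟨Fin.cons S X', ?_, ?_⟩
    · intro a
      refine Fin.cases ?_ (fun a => ?_) a
      · exact hSinj
      · exact hX'inj a
    · intro s
      have h1 := hX' (fun a => s a.succ) (s 0)
      have h2 : (fun a : Fin (r + 1) =>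
          (Fin.cons S X' : Fin (r + 1) → Fin T → Fin n) a (s a)) =
          (Fin.cons (S (s 0)) (fun a => X' a (s a.succ)) : Fin (r + 1) → Fin n) := by
        funext a
        refine Fin.cases ?_ (fun a => ?_) a
        · rfl
        · rfl
      rw [h2]
      exact h1

end Pool.Agent.Lib.MP_a3b162_co
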