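import Mathlib

/-!
Internal notions for MP_a3b162_co: a centrally symmetric polytope is given by a family
`v : ι → E` (one vertex of every antipodal pair, the centre is the origin).
-/

set_option autoImplicit false

namespace Pool.Agent.Lib.MP_a3b162_co

/-- the sign of a Boolean -/
def sg (b : Bool) : ℝ := if b then 1 else -1

@[simp] lemma sg_true : sg true = 1 := rfl
@[simp] lemma sg_false : sg false = -1 := rfl

lemma sg_not (b : Bool) : sg (!b) = -sg b := by cases b <;> simp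

lemma abs_sg (b : Bool) : |sg b| = 1 := by cases b <;> simp

lemma sg_mul_self (b : Bool) : sg b * sg b = 1 := by cases b <;> simp

variable {E : Type*} [AddCommGroup E] [Module ℝ E] {ι : Type*}

/-- the index set `I` is full: every choice of signs on `I` is a face -/
def FullS (v : ι → E) (I : Finset ι) : Prop :=
  ∀ σ : ι → Bool, ∃ φ : E →ₗ[ℝ] ℝ, (∀ i ∈ I, φ (v i) = sg (σ i)) ∧ ∀ j ∉ I, |φ (v j)| < 1

/-- the signed vertices of `W` are exactly the vertices on a supporting hyperplane `φ = 1` -/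
def Expo (v : ι → E) (W : Finset (ι × Bool)) : Prop :=
  ∃ φ : E →ₗ[ℝ] ℝ, ∀ q : ι × Bool,
    (q ∈ W → sg q.2 * φ (v q.1) = 1) ∧ (q ∉ W → sg q.2 * φ (v q.1) < 1)

/-- the signed edge between `v i` and `sg b • v j` -/
def Pres (v : ι → E) (i j : ι) (b : Bool) : Prop :=
  ∃ φ : E →ₗ[ℝ] ℝ, φ (v i) = 1 ∧ φ (v j) = sg b ∧ ∀ k, k ≠ i → k ≠ j → |φ (v k)| < 1

/-- a full set dominates no dependency -/
lemma full_dep [Fintype ι] [DecidableEq ι] {v : ι → E} {I : Finset ι} (h : FullS v I)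
    {c : ι → ℝ} (hc : ∑ i, c i • v i = 0) (hc0 : c ≠ 0) :
    ∑ i ∈ I, |c i| < ∑ i ∈ Iᶜ, |c i| := by
  classical
  obtain ⟨φ, h1, h2⟩ := h (fun i => decide (0 ≤ c i))
  have e1 : ∑ i, c i * φ (v i) = 0 := by
    have := congrArg φ hc
    simpa [map_sum, map_smul, smul_eq_mul] using this
  have e2 : ∑ i ∈ I, |c i| = ∑ i ∈ I, c i * φ (v i) := by
    refine Finset.sum_congr rfl fun i hi => ?_
    rw [h1 i hi]
    by_cases h0 : 0 ≤ c i
    · simp [h0, abs_of_nonneg h0]
    · simp [h0, abs_of_neg (not_le.1 h0)]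
  have e3 : ∑ i ∈ I, c i * φ (v i) + ∑ i ∈ Iᶜ, c i * φ (v i) = 0 := by
    rw [Finset.sum_add_sum_compl]; exact e1
  have e4 : ∀ i ∈ Iᶜ, -(c i * φ (v i)) ≤ |c i| := by
    intro i hi
    have : |φ (v i)| < 1 := h2 i (by simpa using hi)
    calc -(c i * φ (v i)) ≤ |c i * φ (v i)| := neg_le_abs _
      _ = |c i| * |φ (v i)| := abs_mul _ _
      _ ≤ |c i| * 1 := by gcongr
      _ = |c i| := mul_one _
  by_cases hz : ∀ i ∈ Iᶜ, c i = 0
  · exfalso
    have s0 : ∑ i ∈ Iᶜ, c i * φ (v i) = 0 := Finset.sum_eq_zero fun i hi => by simp [hz i hi]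
    have s1 : ∑ i ∈ I, |c i| = 0 := by rw [e2]; linarith
    have s2 : ∀ i ∈ I, c i = 0 := fun i hi => by
      have := (Finset.sum_eq_zero_iff_of_nonneg (fun i _ => abs_nonneg (c i))).1 s1 i hi
      simpa using this
    apply hc0
    funext i
    by_cases hi : i ∈ I
    · exact s2 i hi
    · exact hz i (by simpa using hi)
  · push_neg at hz
    obtain ⟨i0, hi0, hci0⟩ := hz
    have s3 : ∑ i ∈ Iᶜ, -(c i * φ (v i)) < ∑ i ∈ Iᶜ, |c i| := by
      refine Finset.sum_lt_sum e4 ⟨i0, hi0, ?_⟩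
      have : |φ (v i0)| < 1 := h2 i0 (by simpa using hi0)
      calc -(c i0 * φ (v i0)) ≤ |c i0 * φ (v i0)| := neg_le_abs _
        _ = |c i0| * |φ (v i0)| := abs_mul _ _
        _ < |c i0| * 1 := by
          apply mul_lt_mul_of_pos_left this
          exact abs_pos.2 hci0
        _ = |c i0| := mul_one _
    rw [Finset.sum_neg_distrib] at s3
    rw [e2]
    linarith

end Pool.Agent.Lib.MP_a3b162_co
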