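import Mathlib

/-!
MODULE B3 (60 min).  Mantel type counting for `k`-uniform hypergraphs.

PROOF.  Write `k = m + 1` (`m ≥ 1`), `e` = number of the `x : Fin k → Fin n` with `Fu x`.
For `w : Fin m → Fin n` let `d w = #{a | Fu (Fin.cons a w)}`: `∑ w, d w = e`, so by Cauchy-Schwarz
`∑ w, (d w)^2 ≥ e^2 / n^m`.  For `i : Fin k`, `y : Fin n` put
`N i x y = 1` if `Fu (Function.update x i y)`, else 0.  For each `i`:
`∑ x with Fu x, ∑ y, N i x y = ∑ w, (d w)^2` (permute the coordinate `i` to the front, `hsymm`).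
Since `∑ i, N i x y ≤ 1 + ∑ i<j, N i x y * N j x y` (natural number `t ≤ 1 + t(t-1)/2`),
`k * ∑ w, (d w)^2 ≤ e * n + ∑ i<j, #{(x,y) | Fu x, Fu (update x i y), Fu (update x j y)}`, and each of
the `k(k-1)/2` numbers equals the number `Z` of the `z : Fin (k+1) → Fin n` with
`Fu (z ∘ j.succAbove)` for `j = 0,1,2` (put `z = (y, x i, x j, other coordinates)` and use `hsymm`; it
is enough to prove `≤ Z`, by an injection).  Hence
`Z * k(k-1)/2 ≥ k e^2 / n^m - e n = e n (k e / n^k - 1) ≥ (n^k / k) n (k ε) = ε n^(k+1)`,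
and `k(k-1)/2 ≤ k^2`.  (Case `n = 0` separately if necessary.)
-/

set_option autoImplicit false

namespace Pool.Agent.Lib.MP_a3b162_co

open Finset in
theorem Count_aux {m n : ℕ} (hm : 1 ≤ m) (I : (Fin (m + 1) → Fin n) → ℝ)
    (hI : ∀ x, I x = 0 ∨ I x = 1) (hIs : ∀ x (τ : Equiv.Perm (Fin (m + 1))), I (x ∘ τ) = I x) :
    2 * ((m : ℝ) + 1) * (∑ x, I x) ^ 2 ≤ (n : ℝ) ^ m * (2 * (∑ x, I x) * n +
      ((m : ℝ) + 1) * m * ∑ z : Fin (m + 2) → Fin n,
        I (z ∘ (0 : Fin (m + 2)).succAbove) * I (z ∘ (1 : Fin (m + 2)).succAbove) *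
          I (z ∘ (2 : Fin (m + 2)).succAbove)) := by
  classical
  set e := ∑ x, I x with he
  set Z := ∑ z : Fin (m + 2) → Fin n,
        I (z ∘ (0 : Fin (m + 2)).succAbove) * I (z ∘ (1 : Fin (m + 2)).succAbove) *
          I (z ∘ (2 : Fin (m + 2)).succAbove) with hZ
  have hII : ∀ x, I x * I x = I x := fun x => by rcases hI x with h | h <;> simp [h]
  -- the sum over x as a sum over (a, w)
  have hcons : ∀ f : (Fin (m + 1) → Fin n) → ℝ, ∑ x, f x = ∑ w : Fin m → Fin n, ∑ a, f (Fin.cons a w) := by
    intro f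
    rw [← (Fin.consEquiv (fun _ : Fin (m + 1) => Fin n)).sum_comp f, Fintype.sum_prod_type, sum_comm]
    rfl
  set d : (Fin m → Fin n) → ℝ := fun w => ∑ a, I (Fin.cons a w) with hd
  have hed : e = ∑ w, d w := hcons I
  -- Cauchy-Schwarz
  have hCS : e ^ 2 ≤ (n : ℝ) ^ m * ∑ w, d w ^ 2 := by
    rw [hed]
    have h := sq_sum_le_card_mul_sum_sq (s := (univ : Finset (Fin m → Fin n))) (f := d)
    rw [card_univ, Fintype.card_fun, Fintype.card_fin, Fintype.card_fin] at h
    exact_mod_cast h
  -- T i
  set T : Fin (m + 1) → ℝ := fun i => ∑ x, ∑ y, I x * I (Function.update x i y) with hT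
  have hT0 : T 0 = ∑ w, d w ^ 2 := by
    change ∑ x, ∑ y, I x * I (Function.update x 0 y) = _
    rw [hcons (fun x => ∑ y, I x * I (Function.update x 0 y))]
    refine sum_congr rfl fun w _ => ?_
    have h1 : ∀ a : Fin n, ∑ y, I (Fin.cons a w) * I (Function.update (Fin.cons a w) 0 y) =
        I (Fin.cons a w) * d w := by
      intro a
      rw [← mul_sum]
      congr 1
      refine sum_congr rfl fun y _ => ?_
      rw [Fin.update_cons_zero]
    rw [sum_congr rfl (fun a _ => h1 a), ← sum_mul, sq]
  have hTi : ∀ i, T i = T 0 := by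
    intro i
    change ∑ x, ∑ y, I x * I (Function.update x i y) = ∑ x, ∑ y, I x * I (Function.update x 0 y)
    rw [← (Equiv.arrowCongr (Equiv.swap 0 i) (Equiv.refl (Fin n))).sum_comp
      (fun x => ∑ y, I x * I (Function.update x 0 y))]
    refine sum_congr rfl fun x _ => sum_congr rfl fun y _ => ?_
    have h1 : (Equiv.arrowCongr (Equiv.swap 0 i) (Equiv.refl (Fin n))) x = x ∘ (Equiv.swap 0 i) := by
      ext a
      simp [Equiv.arrowCongr]
    have h2 : Function.update (x ∘ (Equiv.swap 0 i)) 0 y = (Function.update x i y) ∘ (Equiv.swap 0 i) := by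
      ext a
      by_cases ha : a = 0
      · subst ha
        simp
      · rw [Function.update_of_ne ha, Function.comp_apply, Function.comp_apply, Function.update_of_ne]
        intro h
        apply ha
        have := congrArg (Equiv.swap 0 i) h
        rw [Equiv.swap_apply_self] at this
        rw [this]
        simp
    rw [h1, h2, hIs, hIs]
  -- P i j
  have hP : ∀ i j : Fin (m + 1), i ≠ j →
      ∑ x, ∑ y, I x * (I (Function.update x i y) * I (Function.update x j y)) ≤ Z := by
    intro i j hij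
    obtain ⟨σ, hσ0, hσ1⟩ : ∃ σ : Equiv.Perm (Fin (m + 1)), σ 0 = i ∧ σ 1 = j := by
      refine ⟨Equiv.swap ((Equiv.swap 0 i) 1) j * Equiv.swap 0 i, ?_, ?_⟩
      · rw [Equiv.Perm.mul_apply, Equiv.swap_apply_left]
        apply Equiv.swap_apply_of_ne_of_ne _ hij
        intro h
        have h2 : (Equiv.swap 0 i) 0 = (Equiv.swap 0 i) 1 := by rw [Equiv.swap_apply_left]; exact h
        have h3 := (Equiv.swap 0 i).injective h2
        have h4 : (0 : Fin (m + 1)).val = (1 : Fin (m + 1)).val := congrArg Fin.val h3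
        have h5 : (1 : Fin (m + 1)).val = 1 % (m + 1) := rfl
        rw [h5, Nat.mod_eq_of_lt (by omega)] at h4
        simp at h4
      · rw [Equiv.Perm.mul_apply, Equiv.swap_apply_left]
    have hfun : ∀ (x : Fin (m + 1) → Fin n) (y : Fin n),
        I x * (I (Function.update x i y) * I (Function.update x j y)) =
          I ((Fin.cons y (x ∘ σ) : Fin (m + 2) → Fin n) ∘ (0 : Fin (m + 2)).succAbove) *
          I ((Fin.cons y (x ∘ σ) : Fin (m + 2) → Fin n) ∘ (1 : Fin (m + 2)).succAbove) *
          I ((Fin.cons y (x ∘ σ) : Fin (m + 2) → Fin n) ∘ (2 : Fin (m + 2)).succAbove) := by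
      intro x y
      have e0 : (Fin.cons y (x ∘ σ) : Fin (m + 2) → Fin n) ∘ (0 : Fin (m + 2)).succAbove = x ∘ σ := by
        ext a
        simp
      have e1 : (Fin.cons y (x ∘ σ) : Fin (m + 2) → Fin n) ∘ (1 : Fin (m + 2)).succAbove =
          (Function.update x i y) ∘ σ := by
        rw [Function.update_comp_equiv, ← hσ0, Equiv.symm_apply_apply]
        ext a
        refine Fin.cases ?_ (fun b => ?_) a
        · rw [Function.update_self, Function.comp_apply]
          have : (1 : Fin (m + 2)).succAbove 0 = 0 := Fin.succ_succAbove_zero 0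
          rw [this, Fin.cons_zero]
        · rw [Function.update_of_ne (Fin.succ_ne_zero b), Function.comp_apply]
          have : (1 : Fin (m + 2)).succAbove b.succ = b.succ.succ := by
            have h := Fin.succ_succAbove_succ (0 : Fin (m + 1)) b
            rw [Fin.succAbove_zero] at h
            exact h
          rw [this, Fin.cons_succ]
      have e2 : (Fin.cons y (x ∘ σ) : Fin (m + 2) → Fin n) ∘ (2 : Fin (m + 2)).succAbove =
          ((Function.update x j y) ∘ σ) ∘ (Equiv.swap 0 1) := by
        rw [Function.update_comp_equiv, ← hσ1, Equiv.symm_apply_apply]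
        obtain ⟨m', rfl⟩ : ∃ m', m = m' + 1 := ⟨m - 1, by omega⟩
        ext a
        refine Fin.cases ?_ (fun b => ?_) a
        · rw [Function.comp_apply, Function.comp_apply, Equiv.swap_apply_left, Function.update_self]
          have : (2 : Fin (m' + 1 + 2)).succAbove 0 = 0 := Fin.succ_succAbove_zero 1
          rw [this, Fin.cons_zero]
        · refine Fin.cases ?_ (fun b' => ?_) b
          · have h1 : (2 : Fin (m' + 1 + 2)).succAbove (Fin.succ 0) = Fin.succ 0 := by
              have h := Fin.succ_succAbove_succ (1 : Fin (m' + 2)) 0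
              have h' : (1 : Fin (m' + 2)).succAbove 0 = 0 := Fin.succ_succAbove_zero 0
              rw [h'] at h
              exact h
            have h2 : (Fin.succ 0 : Fin (m' + 1 + 1)) = 1 := rfl
            rw [Function.comp_apply, Function.comp_apply, h1, Fin.cons_succ, h2, Equiv.swap_apply_right,
              Function.update_of_ne (by exact Fin.zero_ne_one)]
          · have h1 : (2 : Fin (m' + 1 + 2)).succAbove (Fin.succ (Fin.succ b')) = (Fin.succ (Fin.succ b')).succ := by
              have h := Fin.succ_succAbove_succ (1 : Fin (m' + 2)) (Fin.succ b')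
              have h' := Fin.succ_succAbove_succ (0 : Fin (m' + 1)) b'
              rw [Fin.succAbove_zero] at h'
              have h'' : (1 : Fin (m' + 2)).succAbove (Fin.succ b') = Fin.succ (Fin.succ b') := h'
              rw [h''] at h
              exact h
            have h3 : (Fin.succ (Fin.succ b') : Fin (m' + 1 + 1)) ≠ 1 := by
              intro h
              have h5 : (Fin.succ (Fin.succ b') : Fin (m' + 1 + 1)) = Fin.succ 0 := h
              exact Fin.succ_ne_zero b' (Fin.succ_injective _ h5)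
            rw [Function.comp_apply, Function.comp_apply, h1, Fin.cons_succ,
              Equiv.swap_apply_of_ne_of_ne (Fin.succ_ne_zero _) h3, Function.update_of_ne h3]
      rw [e0, e1, e2, hIs, hIs, hIs, hIs]
      ring
    have hZ' : Z = ∑ w : Fin (m + 1) → Fin n, ∑ a,
        I ((Fin.cons a w : Fin (m + 2) → Fin n) ∘ (0 : Fin (m + 2)).succAbove) *
          I ((Fin.cons a w : Fin (m + 2) → Fin n) ∘ (1 : Fin (m + 2)).succAbove) *
          I ((Fin.cons a w : Fin (m + 2) → Fin n) ∘ (2 : Fin (m + 2)).succAbove) := by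
      rw [hZ, ← (Fin.consEquiv (fun _ : Fin (m + 2) => Fin n)).sum_comp, Fintype.sum_prod_type, sum_comm]
      rfl
    apply le_of_eq
    rw [hZ']
    have hperm := (Equiv.arrowCongr σ.symm (Equiv.refl (Fin n))).sum_comp
      (fun w : Fin (m + 1) → Fin n => ∑ a,
        I ((Fin.cons a w : Fin (m + 2) → Fin n) ∘ (0 : Fin (m + 2)).succAbove) *
          I ((Fin.cons a w : Fin (m + 2) → Fin n) ∘ (1 : Fin (m + 2)).succAbove) *
          I ((Fin.cons a w : Fin (m + 2) → Fin n) ∘ (2 : Fin (m + 2)).succAbove))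
    refine Eq.trans ?_ hperm
    refine sum_congr rfl fun x _ => sum_congr rfl fun y _ => ?_
    have h1 : (Equiv.arrowCongr σ.symm (Equiv.refl (Fin n))) x = x ∘ σ := by
      ext a
      simp [Equiv.arrowCongr]
    rw [h1, hfun]
  -- pointwise inequality
  have hpt : ∀ (x : Fin (m + 1) → Fin n) (y : Fin n), 2 * ∑ i, I x * I (Function.update x i y) ≤
      2 * I x + ∑ i, ∑ j, (if i = j then 0 else
        I x * (I (Function.update x i y) * I (Function.update x j y))) := by
    intro x y
    rcases hI x with h | h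
    · simp [h]
    · rw [h]
      simp only [one_mul]
      set J : Fin (m + 1) → ℝ := fun i => I (Function.update x i y) with hJ
      change 2 * ∑ i, J i ≤ 2 * 1 + ∑ i, ∑ j, (if i = j then 0 else J i * J j)
      have hdiag : ∀ i, ∑ j, (if i = j then 0 else J i * J j) = J i * ∑ j, J j - J i := by
        intro i
        have h1 : ∀ j, (if i = j then 0 else J i * J j) = J i * J j - (if i = j then J i else 0) := by
          intro j
          split_ifs with hij
          · subst hij
            rw [show J i * J i = J i from hII _]; ring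
          · ring
        rw [sum_congr rfl (fun j _ => h1 j), sum_sub_distrib, ← mul_sum]
        simp
      rw [sum_congr rfl (fun i _ => hdiag i), sum_sub_distrib, ← sum_mul]
      have ht : ∑ i, J i = ((univ.filter (fun i => J i = 1)).card : ℝ) := by
        rw [card_eq_sum_ones, sum_filter]
        push_cast
        refine sum_congr rfl fun i _ => ?_
        rcases hI (Function.update x i y) with h2 | h2
        · have : J i = 0 := h2
          rw [this]; simp
        · have : J i = 1 := h2
          rw [this]; simp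
      rw [ht]
      generalize (univ.filter (fun i => J i = 1)).card = t
      rcases t with _ | _ | t
      · norm_num
      · norm_num
      · push_cast
        nlinarith [Nat.cast_nonneg (α := ℝ) t]
  have hsum : 2 * ∑ i, T i ≤ 2 * e * n + ∑ i : Fin (m + 1), ∑ j : Fin (m + 1), (if i = j then 0 else Z) := by
    have h1 : 2 * ∑ i, T i = ∑ x, ∑ y, 2 * ∑ i, I x * I (Function.update x i y) := by
      have : ∀ x : Fin (m + 1) → Fin n, ∑ y, 2 * ∑ i, I x * I (Function.update x i y) =
          ∑ i, 2 * ∑ y, I x * I (Function.update x i y) := by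
        intro x
        simp only [mul_sum]
        rw [sum_comm]
      refine Eq.trans ?_ (sum_congr rfl (fun x _ => this x)).symm
      refine Eq.trans ?_ sum_comm
      rw [mul_sum]
      refine sum_congr rfl fun i _ => ?_
      change 2 * ∑ x, ∑ y, I x * I (Function.update x i y) = _
      rw [mul_sum]
    have h2 : ∑ x, ∑ y : Fin n, (2 * I x + ∑ i, ∑ j, (if i = j then 0 else
        I x * (I (Function.update x i y) * I (Function.update x j y)))) =
        2 * e * n + ∑ i, ∑ j, ∑ x, ∑ y, (if i = j then 0 else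
        I x * (I (Function.update x i y) * I (Function.update x j y))) := by
      simp only [sum_add_distrib]
      congr 1
      · simp only [sum_const, card_univ, Fintype.card_fin, nsmul_eq_mul]
        rw [← mul_sum, ← mul_sum]
        ring
      · rw [sum_congr rfl (fun x _ => sum_comm), sum_comm]
        refine sum_congr rfl fun i _ => ?_
        rw [sum_congr rfl (fun x _ => sum_comm), sum_comm]
    rw [h1]
    refine (sum_le_sum fun x _ => sum_le_sum fun y _ => hpt x y).trans ?_
    rw [h2]
    gcongr with i _ j _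
    split_ifs with hij
    · simp
    · exact hP i j hij
  have hpairs : ∑ i : Fin (m + 1), ∑ j : Fin (m + 1), (if i = j then (0 : ℝ) else Z) =
      ((m : ℝ) + 1) * m * Z := by
    have h1 : ∀ i : Fin (m + 1), ∑ j : Fin (m + 1), (if i = j then (0 : ℝ) else Z) = m * Z := by
      intro i
      have h2 : ∀ j : Fin (m + 1), (if i = j then (0 : ℝ) else Z) = Z - (if i = j then Z else 0) := by
        intro j; split_ifs <;> ring
      rw [sum_congr rfl (fun j _ => h2 j), sum_sub_distrib]
      simp
      ring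
    rw [sum_congr rfl (fun i _ => h1 i), sum_const, card_univ, Fintype.card_fin, nsmul_eq_mul]
    push_cast; ring
  have hk : ∑ i, T i = ((m : ℝ) + 1) * T 0 := by
    rw [sum_congr rfl (fun i _ => hTi i), sum_const, card_univ, Fintype.card_fin, nsmul_eq_mul]
    push_cast; ring
  rw [hk, hpairs, hT0] at hsum
  have hn : (0 : ℝ) ≤ (n : ℝ) ^ m := by positivity
  have hm' : (0 : ℝ) ≤ (m : ℝ) + 1 := by positivity
  calc 2 * ((m : ℝ) + 1) * e ^ 2 ≤ 2 * ((m : ℝ) + 1) * ((n : ℝ) ^ m * ∑ w, d w ^ 2) := by
        apply mul_le_mul_of_nonneg_left hCS; positivity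
    _ = (n : ℝ) ^ m * (2 * (((m : ℝ) + 1) * ∑ w, d w ^ 2)) := by ring
    _ ≤ _ := mul_le_mul_of_nonneg_left hsum hn

theorem count {k : ℕ} (hk : 2 ≤ k) (n : ℕ) (Fu : (Fin k → Fin n) → Prop)
    (hsymm : ∀ (x : Fin k → Fin n) (τ : Equiv.Perm (Fin k)), Fu x → Fu (x ∘ τ))
    (ε : ℝ) (hε : 0 < ε)
    (h : (1 / (k : ℝ) + ε) * (n : ℝ) ^ k ≤ ({x | Fu x}.ncard : ℝ)) :
    ε / (k : ℝ) ^ 2 * (n : ℝ) ^ (k + 1) ≤
      ({z : Fin (k + 1) → Fin n | ∀ j : Fin (k + 1), j.val < 3 → Fu (z ∘ j.succAbove)}.ncard : ℝ) := by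
  classical
  obtain ⟨m, rfl⟩ : ∃ m, k = m + 1 := ⟨k - 1, by omega⟩
  have hm : 1 ≤ m := by omega
  set I : (Fin (m + 1) → Fin n) → ℝ := fun x => if Fu x then 1 else 0 with hI
  have hI01 : ∀ x, I x = 0 ∨ I x = 1 := by
    intro x
    simp only [hI]
    split_ifs <;> simp
  have hIs : ∀ x (τ : Equiv.Perm (Fin (m + 1))), I (x ∘ τ) = I x := by
    intro x τ
    have h1 : Fu (x ∘ τ) ↔ Fu x := by
      constructor
      · intro h
        have := hsymm _ τ⁻¹ h
        have h2 : (x ∘ τ) ∘ (τ⁻¹ : Equiv.Perm (Fin (m + 1))) = x := by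
          ext a; simp
        rwa [h2] at this
      · exact hsymm x τ
    simp only [hI, h1]
  have hmain := Count_aux hm I hI01 hIs
  have he : ({x | Fu x}.ncard : ℝ) = ∑ x, I x := by
    rw [Set.ncard_eq_toFinset_card', Set.toFinset_ofPred, Finset.card_eq_sum_ones, Finset.sum_filter]
    push_cast
    rfl
  have hZ : ({z : Fin (m + 1 + 1) → Fin n | ∀ j : Fin (m + 1 + 1), j.val < 3 → Fu (z ∘ j.succAbove)}.ncard : ℝ) =
      ∑ z : Fin (m + 2) → Fin n,
        I (z ∘ (0 : Fin (m + 2)).succAbove) * I (z ∘ (1 : Fin (m + 2)).succAbove) *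
          I (z ∘ (2 : Fin (m + 2)).succAbove) := by
    rw [Set.ncard_eq_toFinset_card', Set.toFinset_ofPred, Finset.card_eq_sum_ones, Finset.sum_filter]
    push_cast
    refine Finset.sum_congr rfl fun z _ => ?_
    have h1 : (∀ j : Fin (m + 1 + 1), j.val < 3 → Fu (z ∘ j.succAbove)) ↔
        (Fu (z ∘ (0 : Fin (m + 2)).succAbove) ∧ Fu (z ∘ (1 : Fin (m + 2)).succAbove)) ∧
          Fu (z ∘ (2 : Fin (m + 2)).succAbove) := by
      obtain ⟨m', rfl⟩ : ∃ m', m = m' + 1 := ⟨m - 1, by omega⟩
      constructor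
      · intro h
        exact ⟨⟨h 0 (by simp), h 1 (by simp)⟩, h 2 (by
          change 2 % (m' + 1 + 1 + 1) < 3
          have := Nat.mod_le 2 (m' + 1 + 1 + 1)
          omega)⟩
      · rintro ⟨⟨h0, h1⟩, h2⟩ ⟨j, hj⟩ hj3
        simp only at hj3
        interval_cases j
        · exact h0
        · exact h1
        · exact h2
    simp only [h1, hI]
    split_ifs <;> simp_all
  rw [he] at h
  rw [hZ]
  set e := ∑ x, I x
  set Z := ∑ z : Fin (m + 2) → Fin n,
        I (z ∘ (0 : Fin (m + 2)).succAbove) * I (z ∘ (1 : Fin (m + 2)).succAbove) *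
          I (z ∘ (2 : Fin (m + 2)).succAbove)
  push_cast at h ⊢
  have hZ0 : 0 ≤ Z := by
    apply Finset.sum_nonneg
    intro z _
    rcases hI01 (z ∘ (0 : Fin (m + 2)).succAbove) with h1 | h1 <;>
    rcases hI01 (z ∘ (1 : Fin (m + 2)).succAbove) with h2 | h2 <;>
    rcases hI01 (z ∘ (2 : Fin (m + 2)).succAbove) with h3 | h3 <;>
    rw [h1, h2, h3] <;> norm_num
  rcases Nat.eq_zero_or_pos n with rfl | hn
  · simp only [Nat.cast_zero]
    rw [zero_pow (by omega), mul_zero]
    exact hZ0
  · have hnR : (0 : ℝ) < n := by exact_mod_cast hn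
    set K : ℝ := (m : ℝ) + 1 with hK
    have hm1 : (1 : ℝ) ≤ m := by exact_mod_cast hm
    have hK2 : 2 ≤ K := by rw [hK]; linarith
    have hA : (0 : ℝ) < (n : ℝ) ^ m := by positivity
    have hB : (n : ℝ) ^ (m + 1) = (n : ℝ) ^ m * n := pow_succ _ _
    have hC : (n : ℝ) ^ (m + 1 + 1) = (n : ℝ) ^ m * n * n := by rw [pow_succ, pow_succ]
    rw [hB] at h
    rw [hC]
    set A : ℝ := (n : ℝ) ^ m
    -- K e - A n ≥ K ε A n
    have h1 : K * ε * (A * n) ≤ K * e - A * n := by
      have h2 : K * ((1 / K + ε) * (A * n)) ≤ K * e := mul_le_mul_of_nonneg_left h (by linarith)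
      have h3 : K * ((1 / K + ε) * (A * n)) = A * n + K * ε * (A * n) := by
        field_simp
      linarith
    have h2 : A * n ≤ K * e := by
      have : 0 ≤ K * ε * (A * n) := by positivity
      linarith
    -- 2 e (K e - A n) ≤ A K m Z
    have h3 : 2 * e * (K * e - A * n) ≤ A * (K * m * Z) := by nlinarith [hmain]
    have he0 : 0 < e := by
      have : 0 < A * n := by positivity
      by_contra hc
      push Not at hc
      nlinarith
    have h4 : 2 * e * (K * ε * (A * n)) ≤ A * (K * m * Z) :=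
      (mul_le_mul_of_nonneg_left h1 (by linarith)).trans h3
    -- 2 ε n (A n) ≤ 2 e K ε n ≤ K m Z
    have h5 : 2 * ε * n * (A * n) ≤ K * m * Z := by
      have h6 : 2 * ε * n * (A * n) ≤ 2 * ε * n * (K * e) := mul_le_mul_of_nonneg_left h2 (by positivity)
      have h7 : A * (2 * ε * n * (K * e)) ≤ A * (K * m * Z) := by
        calc A * (2 * ε * n * (K * e)) = 2 * e * (K * ε * (A * n)) := by ring
          _ ≤ _ := h4
      exact h6.trans (le_of_mul_le_mul_left h7 hA)
    rw [div_mul_eq_mul_div, div_le_iff₀ (by positivity)]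
    have h8 : K * m * Z ≤ K * K * Z := by
      apply mul_le_mul_of_nonneg_right _ hZ0
      apply mul_le_mul_of_nonneg_left _ (by linarith)
      rw [hK]; linarith
    nlinarith [mul_pos (mul_pos hε hnR) (mul_pos hA hnR)]

end Pool.Agent.Lib.MP_a3b162_co
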