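import Mathlib

/-!
Centrally symmetric polytopes and their face numbers (MP_a3b162_co): definitions.
-/

set_option autoImplicit false

namespace Pool.Agent.Lib.MP_a3b162_co

/-- `P` is a `d`-polytope: the convex hull of finitely many points of `ℝ^d`, with affine hull all
of `ℝ^d` -/
def IsPolytope {d : ℕ} (P : Set (Fin d → ℝ)) : Prop :=
  (∃ S : Set (Fin d → ℝ), S.Finite ∧ P = convexHull ℝ S) ∧ affineSpan ℝ P = ⊤

/-- `P` is centrally symmetric: `P - c = -(P - c)` for some point `c` -/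
def IsCS {d : ℕ} (P : Set (Fin d → ℝ)) : Prop :=
  ∃ c : Fin d → ℝ, ∀ x, c + x ∈ P → c - x ∈ P

/-- the number `f_i(P)` of `i`-dimensional faces of `P` -/
noncomputable def f {d : ℕ} (i : ℕ) (P : Set (Fin d → ℝ)) : ℕ :=
  {F : Set (Fin d → ℝ) | F.Nonempty ∧ IsExposed ℝ P F ∧
    Module.finrank ℝ (vectorSpan ℝ F) = i}.ncard

/-- `P` is simplicial: every proper face is a simplex (the convex hull of an affinely independent
finite set) -/
def IsSimplicial {d : ℕ} (P : Set (Fin d → ℝ)) : Prop :=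
  ∀ F : Set (Fin d → ℝ), IsExposed ℝ P F → F ≠ P →
    ∃ s : Finset (Fin d → ℝ), AffineIndependent ℝ ((↑) : s → (Fin d → ℝ)) ∧
      F = convexHull ℝ (s : Set (Fin d → ℝ))

end Pool.Agent.Lib.MP_a3b162_co
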