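import Pool.Agent.Lib.MP_a3b162_co.Pigeon
import Pool.Agent.Lib.MP_a3b162_co.Blow
import Pool.Agent.Lib.MP_a3b162_co.Count

/-!
Full sets have density at most `1/k + ε` (module Density of MP_a3b162_co).
-/

set_option autoImplicit false

namespace Pool.Agent.Lib.MP_a3b162_co

lemma Density_image {k n : ℕ} (g : Fin (k + 1) → Fin n) (j : Fin (k + 1)) :
    Finset.univ.image (g ∘ j.succAbove) = (Finset.univ.erase j).image g := by
  rw [← Finset.image_image, Fin.image_succAbove_univ, Finset.compl_singleton]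

lemma Density_card {k n : ℕ} (Q : Finset (Fin n) → Prop) :
    {I : Finset (Fin n) | I.card = k ∧ Q I}.ncard * k.factorial ≤
      {x : Fin k → Fin n | Function.Injective x ∧ Q (Finset.univ.image x)}.ncard := by
  classical
  have h1 : {I : Finset (Fin n) | I.card = k ∧ Q I}.ncard * k.factorial =
      Nat.card ({I : Finset (Fin n) // I.card = k ∧ Q I} × Equiv.Perm (Fin k)) := by
    rw [Nat.card_prod, Nat.card_eq_fintype_card (α := Equiv.Perm (Fin k)), Fintype.card_perm,
      Fintype.card_fin]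
    rfl
  have h2 : {x : Fin k → Fin n | Function.Injective x ∧ Q (Finset.univ.image x)}.ncard =
      Nat.card {x : Fin k → Fin n // Function.Injective x ∧ Q (Finset.univ.image x)} := rfl
  rw [h1, h2]
  have himg : ∀ (I : Finset (Fin n)) (h : I.card = k) (τ : Equiv.Perm (Fin k)),
      Finset.univ.image (fun i => I.orderEmbOfFin h (τ i)) = I := by
    intro I h τ
    ext x
    simp only [Finset.mem_image, Finset.mem_univ, true_and]
    constructor
    · rintro ⟨i, rfl⟩
      exact Finset.orderEmbOfFin_mem _ _ _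
    · intro hx
      have : x ∈ Set.range (I.orderEmbOfFin h) := by
        rw [Finset.range_orderEmbOfFin]; exact hx
      obtain ⟨i, hi⟩ := this
      exact ⟨τ.symm i, by simp [hi]⟩
  refine Nat.card_le_card_of_injective
    (fun p => ⟨fun i => p.1.1.orderEmbOfFin p.1.2.1 (p.2 i), ?_, ?_⟩) ?_
  · intro a b hab
    exact p.2.injective ((p.1.1.orderEmbOfFin p.1.2.1).injective hab)
  · rw [himg]
    exact p.1.2.2
  · rintro ⟨⟨I, hI⟩, τ⟩ ⟨⟨J, hJ⟩, τ'⟩ h
    have hfun : (fun i => I.orderEmbOfFin hI.1 (τ i)) = fun i => J.orderEmbOfFin hJ.1 (τ' i) :=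
      congrArg Subtype.val h
    have hIJ : I = J := by
      rw [← himg I hI.1 τ, ← himg J hJ.1 τ', hfun]
    subst hIJ
    have : τ = τ' := by
      ext i
      have := congrFun hfun i
      exact congrArg Fin.val ((I.orderEmbOfFin hI.1).injective this)
    rw [this]

theorem density {k : ℕ} (hk : 2 ≤ k) (ε : ℝ) (hε : 0 < ε) : ∃ N : ℕ,
    ∀ (E : Type) [AddCommGroup E] [Module ℝ E] [FiniteDimensional ℝ E],
    Module.finrank ℝ E = 2 * k → ∀ n : ℕ, N ≤ n → ∀ v : Fin n → E,
    ({I : Finset (Fin n) | I.card = k ∧ FullS v I}.ncard : ℝ) * (k.factorial : ℝ) ≤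
      (1 / (k : ℝ) + ε) * (n : ℝ) ^ k := by
  classical
  obtain ⟨T, hT⟩ := noBlowup hk
  have hk0 : (0 : ℝ) < k := by exact_mod_cast (by omega : 0 < k)
  obtain ⟨N, hN⟩ := blowup (k + 1) (ε / (k : ℝ) ^ 2) (by positivity) T
  refine ⟨N, fun E _ _ _ hE n hn v => ?_⟩
  by_contra hcon
  push Not at hcon
  let Fu : (Fin k → Fin n) → Prop := fun x =>
    Function.Injective x ∧ FullS v (Finset.univ.image x)
  have hsymm : ∀ (x : Fin k → Fin n) (τ : Equiv.Perm (Fin k)), Fu x → Fu (x ∘ τ) := by
    rintro x τ ⟨h1, h2⟩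
    refine ⟨h1.comp τ.injective, ?_⟩
    have : Finset.univ.image (x ∘ τ) = Finset.univ.image x := by
      rw [← Finset.image_image, Finset.image_univ_equiv]
    rw [this]
    exact h2
  have hcard : (1 / (k : ℝ) + ε) * (n : ℝ) ^ k ≤ ({x | Fu x}.ncard : ℝ) := by
    refine hcon.le.trans ?_
    exact_mod_cast Density_card (k := k) (FullS v)
  have hcount := count hk n Fu hsymm ε hε hcard
  obtain ⟨X, hX1, hX2⟩ := hN n hn _ hcount
  refine hT E hE (Fin n) v X ?_ ?_
  · intro a s a' s' h
    by_cases haa : a = a'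
    · subst haa
      exact ⟨rfl, hX1 a h⟩
    · exfalso
      obtain ⟨j, hj3, hja, hja'⟩ : ∃ j : Fin (k + 1), j.val < 3 ∧ a ≠ j ∧ a' ≠ j := by
        by_cases h0 : a.val ≠ 0 ∧ a'.val ≠ 0
        · exact ⟨⟨0, by omega⟩, by simp, fun h => h0.1 (by rw [h]), fun h => h0.2 (by rw [h])⟩
        · by_cases h1 : a.val ≠ 1 ∧ a'.val ≠ 1
          · exact ⟨⟨1, by omega⟩, by simp, fun h => h1.1 (by rw [h]), fun h => h1.2 (by rw [h])⟩
          · refine ⟨⟨2, by omega⟩, by simp, fun h => ?_, fun h => ?_⟩
            · have h2 : a.val = 2 := congrArg Fin.val h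
              omega
            · have h2 : a'.val = 2 := congrArg Fin.val h
              omega
      let S : Fin (k + 1) → Fin T := fun b => if b = a then s else s'
      obtain ⟨hinj, _⟩ := hX2 S j hj3
      obtain ⟨x, hx⟩ := Fin.exists_succAbove_eq hja
      obtain ⟨y, hy⟩ := Fin.exists_succAbove_eq hja'
      have : x = y := by
        apply hinj
        simp only [Function.comp, hx, hy, S, if_true, if_neg (Ne.symm haa)]
        exact h
      rw [this, hy] at hx
      exact haa hx.symm
  · intro j hj s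
    have := (hX2 s j hj).2
    rw [Density_image] at this
    exact this

end Pool.Agent.Lib.MP_a3b162_co
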