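import Pool.Agent.Lib.MP_a3b162_co.Core

/-!
MODULE LD (40 min).  Edges survive a small perturbation.

PROOF.  Finitely many `(i,j,b)`, so one triple is enough (`Finset.inf'`/finite induction or
`Filter.eventually_all`).  Let `φ` be as in `Pres v i j b`, `i ≠ j`.  `v i ≠ sg b • v j` (if they were
equal: for `n ≥ 3`... no contradiction in general, so this is the hypothesis `hne`).  Choose a linear
`ψ` with `ψ (v i - sg b • v j) = 1`.  For small `η > 0`, `φ₁ = φ + η ψ`, `φ₂ = φ - η ψ` satisfy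
  `φ₁ (v i) > φ₁ (sg b • v j) > |φ₁ (v k)|` and `φ₂ (sg b • v j) > φ₂ (v i) > |φ₂ (v k)|`
for all `k ≠ i, j` (and both right hand sides positive).  These finitely many strict inequalities
survive small changes of `v` (linear maps on `Fin d → ℝ` are continuous).  For `v'`: by the
intermediate value (explicitly: `φ' = (B φ₁ + A φ₂)/(A+B)` with `A = φ₁ (v' i - sg b • v' j) > 0`,
`B = - φ₂ (v' i - sg b • v' j) > 0`) one has `φ' (v' i) = φ' (sg b • v' j) =: m > |φ' (v' k)|`, `m > 0`,
and `φ'/m` is the functional for `Pres v' i j b`.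
-/

set_option autoImplicit false

namespace Pool.Agent.Lib.MP_a3b162_co

theorem LD_triple {d n : ℕ} (v : Fin n → (Fin d → ℝ)) (i j : Fin n) (b : Bool)
    (hne : v i ≠ sg b • v j) (h : Pres v i j b) : ∀ᶠ v' in nhds v, Pres v' i j b := by
  obtain ⟨φ, hi, hj, hk⟩ := h
  have hw : v i - sg b • v j ≠ 0 := sub_ne_zero.2 hne
  obtain ⟨m, hm⟩ := Function.ne_iff.1 hw
  simp only [Pi.zero_apply] at hm
  obtain ⟨ψ, hψ⟩ : ∃ ψ : (Fin d → ℝ) →ₗ[ℝ] ℝ, ψ (v i - sg b • v j) = 1 := by
    refine ⟨((v i - sg b • v j) m)⁻¹ • LinearMap.proj m, ?_⟩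
    rw [LinearMap.smul_apply, LinearMap.proj_apply, smul_eq_mul]
    exact inv_mul_cancel₀ hm
  rw [map_sub, map_smul, smul_eq_mul] at hψ
  have hss := sg_mul_self b
  obtain ⟨α, hαi, hαj⟩ : ∃ α : (Fin d → ℝ) →ₗ[ℝ] ℝ, α (v i) = 1 ∧ α (v j) = 0 := by
    refine ⟨ψ - (sg b * ψ (v j)) • φ, ?_, ?_⟩
    · rw [LinearMap.sub_apply, LinearMap.smul_apply, smul_eq_mul, hi]
      linarith
    · rw [LinearMap.sub_apply, LinearMap.smul_apply, smul_eq_mul, hj]
      linear_combination (-ψ (v j)) * hss
  obtain ⟨β, hβi, hβj⟩ : ∃ β : (Fin d → ℝ) →ₗ[ℝ] ℝ, β (v i) = 0 ∧ β (v j) = sg b := by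
    refine ⟨φ - α, ?_, ?_⟩
    · rw [LinearMap.sub_apply, hi, hαi, sub_self]
    · rw [LinearMap.sub_apply, hj, hαj, sub_zero]
  have hcont : ∀ (χ : (Fin d → ℝ) →ₗ[ℝ] ℝ) (k : Fin n),
      Continuous (fun v' : Fin n → (Fin d → ℝ) => χ (v' k)) := fun χ k =>
    (LinearMap.continuous_of_finiteDimensional χ).comp (continuous_apply k)
  let D : (Fin n → (Fin d → ℝ)) → ℝ := fun v' =>
    α (v' i) * (sg b * β (v' j)) - β (v' i) * (sg b * α (v' j))
  let s : (Fin n → (Fin d → ℝ)) → ℝ := fun v' =>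
    ((1 - φ (v' i)) * (sg b * β (v' j)) - (1 - sg b * φ (v' j)) * β (v' i)) / D v'
  let t : (Fin n → (Fin d → ℝ)) → ℝ := fun v' =>
    ((1 - sg b * φ (v' j)) * α (v' i) - (1 - φ (v' i)) * (sg b * α (v' j))) / D v'
  have hDc : Continuous D :=
    ((hcont α i).mul (continuous_const.mul (hcont β j))).sub
      ((hcont β i).mul (continuous_const.mul (hcont α j)))
  have hD1 : D v = 1 := by
    simp only [D, hαi, hαj, hβi, hβj]
    linarith
  have hsc : ContinuousAt s v := by
    apply ContinuousAt.div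
    · exact (((continuous_const.sub (hcont φ i)).mul (continuous_const.mul (hcont β j))).sub
        ((continuous_const.sub (continuous_const.mul (hcont φ j))).mul (hcont β i))).continuousAt
    · exact hDc.continuousAt
    · rw [hD1]
      exact one_ne_zero
  have htc : ContinuousAt t v := by
    apply ContinuousAt.div
    · exact (((continuous_const.sub (continuous_const.mul (hcont φ j))).mul (hcont α i)).sub
        ((continuous_const.sub (hcont φ i)).mul (continuous_const.mul (hcont α j)))).continuousAt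
    · exact hDc.continuousAt
    · rw [hD1]
      exact one_ne_zero
  have hs0 : s v = 0 := by
    simp only [s, hi, hj, hβi, hβj, hss]
    simp
  have ht0 : t v = 0 := by
    simp only [t, hi, hj, hαi, hαj, hss]
    simp
  have hev1 : ∀ᶠ v' in nhds v, D v' ≠ 0 := by
    apply hDc.continuousAt.eventually_ne
    rw [hD1]
    exact one_ne_zero
  have hev2 : ∀ᶠ v' in nhds v, ∀ k, k ≠ i → k ≠ j →
      |φ (v' k) + s v' * α (v' k) + t v' * β (v' k)| < 1 := by
    rw [Filter.eventually_all]
    intro k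
    by_cases hki : k = i
    · exact Filter.Eventually.of_forall fun v' h1 => absurd hki h1
    by_cases hkj : k = j
    · exact Filter.Eventually.of_forall fun v' _ h1 => absurd hkj h1
    have hc : ContinuousAt (fun v' : Fin n → (Fin d → ℝ) =>
        |φ (v' k) + s v' * α (v' k) + t v' * β (v' k)|) v :=
      (((hcont φ k).continuousAt.add (hsc.mul (hcont α k).continuousAt)).add
        (htc.mul (hcont β k).continuousAt)).abs
    have hlt : |φ (v k) + s v * α (v k) + t v * β (v k)| < 1 := by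
      rw [hs0, ht0, zero_mul, zero_mul, add_zero, add_zero]
      exact hk k hki hkj
    filter_upwards [hc.eventually_lt_const hlt] with v' h1 _ _
    exact h1
  filter_upwards [hev1, hev2] with v' h1 h2
  have hDv : D v' = α (v' i) * (sg b * β (v' j)) - β (v' i) * (sg b * α (v' j)) := rfl
  have hsv : s v' * D v' =
      (1 - φ (v' i)) * (sg b * β (v' j)) - (1 - sg b * φ (v' j)) * β (v' i) :=
    div_mul_cancel₀ _ h1
  have htv : t v' * D v' =
      (1 - sg b * φ (v' j)) * α (v' i) - (1 - φ (v' i)) * (sg b * α (v' j)) :=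
    div_mul_cancel₀ _ h1
  refine ⟨φ + s v' • α + t v' • β, ?_, ?_, ?_⟩
  · simp only [LinearMap.add_apply, LinearMap.smul_apply, smul_eq_mul]
    apply mul_right_cancel₀ h1
    linear_combination (α (v' i)) * hsv + (β (v' i)) * htv + (φ (v' i) - 1) * hDv
  · simp only [LinearMap.add_apply, LinearMap.smul_apply, smul_eq_mul]
    have hsb : sg b ≠ 0 := by
      intro h0
      rw [h0] at hss
      norm_num at hss
    apply mul_left_cancel₀ hsb
    rw [hss]
    apply mul_right_cancel₀ h1
    linear_combination (sg b * α (v' j)) * hsv + (sg b * β (v' j)) * htv +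
      (sg b * φ (v' j) - 1) * hDv
  · intro k hki hkj
    exact h2 k hki hkj

theorem pres_open {d n : ℕ} (v : Fin n → (Fin d → ℝ))
    (hne : ∀ i j : Fin n, i ≠ j → ∀ b : Bool, v i ≠ sg b • v j) :
    ∃ δ : ℝ, 0 < δ ∧ ∀ v' : Fin n → (Fin d → ℝ), (∀ i, ‖v' i - v i‖ < δ) →
      ∀ i j : Fin n, i ≠ j → ∀ b : Bool, Pres v i j b → Pres v' i j b := by
  have hev : ∀ᶠ v' in nhds v, ∀ i j : Fin n, ∀ b : Bool, i ≠ j → Pres v i j b →
      Pres v' i j b := by
    rw [Filter.eventually_all]
    intro i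
    rw [Filter.eventually_all]
    intro j
    rw [Filter.eventually_all]
    intro b
    by_cases hij : i = j
    · exact Filter.Eventually.of_forall fun v' h1 => absurd hij h1
    by_cases hP : Pres v i j b
    · filter_upwards [LD_triple v i j b (hne i j hij b) hP] with v' h1 _ _
      exact h1
    · exact Filter.Eventually.of_forall fun v' _ h1 => absurd h1 hP
  obtain ⟨δ, hδ, h⟩ := Metric.eventually_nhds_iff.1 hev
  refine ⟨δ, hδ, fun v' hv' i j hij b hP => h ?_ i j b hij hP⟩
  rw [dist_eq_norm, pi_norm_lt_iff hδ]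
  exact hv'

end Pool.Agent.Lib.MP_a3b162_co
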