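import Pool.Agent.Lib.MP_a3b162_co.LF

/-!
MODULE LG (50 min).  The polytope of a generic family is simplicial.

PROOF.  Let `F ≠ PP v` be exposed.  If `F = ∅`: `s = ∅`.  Otherwise let
`W = {q | vert v q ∈ F}` (Finset): by `face_expo` (with `c = 0`, `pp_cs`, `ext_pp`) `Expo v W`, with `φ`.
`(i,true)` and `(i,false)` are not both in `W`; for `q ∈ W`, `φ (v q.1) = sg q.2`; so
`I = W.image Prod.fst` has at most 4 elements (second clause of `Generic`), the `v i`, `i ∈ I`, are
linearly independent, hence the `vert v q`, `q ∈ W`, are linearly independent, hence affinely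
independent.  `s = W.image (vert v)`; `F = convexHull ℝ s` by `face_hull` (`F ∩ ext = s`).
-/

set_option autoImplicit false

namespace Pool.Agent.Lib.MP_a3b162_co

theorem lg_range {n : ℕ} (hn : 4 ≤ n) {v : Fin n → (Fin 4 → ℝ)} (hv : Generic v)
    (hp : ∀ i j : Fin n, i ≠ j → Pres v i j true) :
    Set.range (fun q : Fin n × Bool => (0 : Fin 4 → ℝ) + sg q.2 • v q.1) =
      (PP v).extremePoints ℝ := by
  rw [ext_pp hn hv hp]
  congr 1
  funext q
  rw [zero_add]
  rfl

theorem lg_li {n : ℕ} {v : Fin n → (Fin 4 → ℝ)} (hv : Generic v) {W : Finset (Fin n × Bool)}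
    (hW : Expo v W) : LinearIndependent ℝ (fun q : W => vert v q) := by
  classical
  obtain ⟨φ, hφ⟩ := hW
  have h1 : ∀ q ∈ W, φ (v q.1) = sg q.2 := by
    intro q hq
    have h2 := (hφ q).1 hq
    have h3 := sg_mul_self q.2
    calc φ (v q.1) = sg q.2 * (sg q.2 * φ (v q.1)) := by rw [← mul_assoc, h3, one_mul]
      _ = sg q.2 := by rw [h2, mul_one]
  have hinj : ∀ q ∈ W, ∀ r ∈ W, q.1 = r.1 → q = r := by
    intro q hq r hr h
    have h2 := h1 q hq
    have h3 := h1 r hr
    rw [h, h3] at h2
    have h4 : q.2 = r.2 := by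
      revert h2
      cases q.2 <;> cases r.2 <;> norm_num
    exact Prod.ext h h4
  have hσ : ∀ i ∈ W.image Prod.fst, φ (v i) = sg (decide ((i, true) ∈ W)) := by
    intro i hi
    obtain ⟨q, hq, rfl⟩ := Finset.mem_image.1 hi
    rw [h1 q hq]
    obtain ⟨k, b⟩ := q
    cases b with
    | true => simp [hq]
    | false =>
      have : (k, true) ∉ W := by
        intro h
        have := hinj _ hq _ h rfl
        simp at this
      simp [this]
  have hcard := hv.2 (W.image Prod.fst) (fun i => decide ((i, true) ∈ W)) φ hσ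
  have hli := hv.1 (W.image Prod.fst) hcard
  let e : W → (W.image Prod.fst : Finset (Fin n)) := fun q =>
    ⟨(q : Fin n × Bool).1, Finset.mem_image_of_mem _ q.2⟩
  have he : Function.Injective e := by
    intro q r h
    apply Subtype.ext
    exact hinj _ q.2 _ r.2 (congrArg Subtype.val h)
  have h2 := hli.comp e he
  have h3 := h2.units_smul (fun q : W => Units.mk0 (sg (q : Fin n × Bool).2) (by
    cases (q : Fin n × Bool).2 <;> norm_num))
  exact h3

theorem pp_simplicial {n : ℕ} (hn : 4 ≤ n) {v : Fin n → (Fin 4 → ℝ)} (hv : Generic v)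
    (hp : ∀ i j : Fin n, i ≠ j → Pres v i j true) : IsSimplicial (PP v) := by
  classical
  intro F hF hFP
  rcases F.eq_empty_or_nonempty with rfl | hne
  · exact ⟨∅, affineIndependent_of_subsingleton _ _, by simp⟩
  set W : Finset (Fin n × Bool) := Finset.univ.filter (fun q => vert v q ∈ F) with hWdef
  have hW : ∀ q, q ∈ W ↔ (0 : Fin 4 → ℝ) + sg q.2 • v q.1 ∈ F := by
    intro q
    rw [zero_add, hWdef, Finset.mem_filter]
    exact ⟨fun h => h.2, fun h => ⟨Finset.mem_univ _, h⟩⟩
  have hE := face_expo (pp_polytope hn hv) (c := 0) (pp_cs v) v (lg_range hn hv hp) hF hne hFP W hW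
  have hli := lg_li hv hE
  have hai := hli.affineIndependent.range
  refine ⟨W.image (vert v), ?_, ?_⟩
  · have e : Set.range (fun q : W => vert v q) = ((W.image (vert v) : Finset _) : Set _) := by
      ext y
      simp only [Set.mem_range, Finset.coe_image, Set.mem_image, Finset.mem_coe, Subtype.exists,
        exists_prop]
    rw [e] at hai
    exact hai
  · rw [← face_hull (pp_polytope hn hv) hF hne, ext_pp hn hv hp]
    congr 1
    ext y
    simp only [Set.mem_inter_iff, Set.mem_range, Finset.coe_image, Set.mem_image, Finset.mem_coe]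
    constructor
    · rintro ⟨hy, q, rfl⟩
      exact ⟨q, Finset.mem_filter.2 ⟨Finset.mem_univ _, hy⟩, rfl⟩
    · rintro ⟨q, hq, rfl⟩
      exact ⟨(Finset.mem_filter.1 hq).2, q, rfl⟩

end Pool.Agent.Lib.MP_a3b162_co
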