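import Pool.Agent.Lib.MP_a3b162_co.LF

/-!
MODULE LH (60 min).  Counting the edges of the polytope of a generic family.

PROOF.  For `(i,j,b)` with `i < j`, `Pres v i j b` and a sign `s`: the face
`F = convexHull {sg s • v i, sg s * sg b • v j}`, exposed by `sg s • φ` (the vertices with
`sg s * φ = 1` are exactly these two, all others have `< 1`; the maximizers of a linear functional on
`PP v` are the convex hull of the maximal vertices), `F` nonempty, `finrank (vectorSpan F) = 1` (two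
different points, `vert_inj`).  The map `((i,j,b),s) ↦ F` is injective (`F ∩ ext` is the set of the two
vertices; or: the extreme points of a segment).  The set of all one-dimensional faces is finite
(`face_hull`: `F` is determined by the subset `F ∩ ext` of the finite set `ext`).
-/

set_option autoImplicit false

namespace Pool.Agent.Lib.MP_a3b162_co

theorem lh_sg_beq (s b : Bool) : sg (s == b) = sg s * sg b := by
  cases s <;> cases b <;> norm_num [sg]

/-- the edge of a triple and a sign -/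
def lhF {n : ℕ} (v : Fin n → (Fin 4 → ℝ)) (t : (Fin n × Fin n × Bool) × Bool) :
    Set (Fin 4 → ℝ) :=
  convexHull ℝ {vert v (t.1.1, t.2), vert v (t.1.2.1, t.2 == t.1.2.2)}

theorem lh_functional {n : ℕ} {v : Fin n → (Fin 4 → ℝ)} {i j : Fin n} (hij : i ≠ j) {b : Bool}
    (h : Pres v i j b) (s : Bool) : ∃ ψ : (Fin 4 → ℝ) →ₗ[ℝ] ℝ,
      ψ (vert v (i, s)) = 1 ∧ ψ (vert v (j, s == b)) = 1 ∧
      ∀ q, ψ (vert v q) ≤ 1 ∧ (ψ (vert v q) = 1 → q = (i, s) ∨ q = (j, s == b)) := by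
  obtain ⟨φ, h1, h2, h3⟩ := h
  have e : ∀ k c, (sg s • φ) (vert v (k, c)) = sg s * sg c * φ (v k) := by
    intro k c
    simp only [vert, LinearMap.smul_apply, map_smul, smul_eq_mul]
    ring
  refine ⟨sg s • φ, ?_, ?_, ?_⟩
  · rw [e, h1, mul_one]
    exact sg_mul_self s
  · rw [e, h2, lh_sg_beq]
    cases s <;> cases b <;> norm_num
  · rintro ⟨k, c⟩
    rw [e]
    by_cases hk : k = i
    · subst hk
      rw [h1, mul_one]
      refine ⟨?_, fun h => Or.inl ?_⟩
      · cases s <;> cases c <;> norm_num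
      · rw [(lf_sg s c).1 h]
    · by_cases hk2 : k = j
      · subst hk2
        rw [h2]
        refine ⟨?_, fun h => Or.inr ?_⟩
        · cases s <;> cases c <;> cases b <;> norm_num
        · have : c = (s == b) := by
            revert h
            cases s <;> cases c <;> cases b <;> norm_num
          rw [this]
      · have h4 := h3 k hk hk2
        have h5 : |sg s * sg c * φ (v k)| < 1 := by
          rw [abs_mul, abs_mul, abs_sg, abs_sg, one_mul, one_mul]
          exact h4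
        have h6 := (abs_lt.1 h5).2
        exact ⟨h6.le, fun h => absurd h h6.ne⟩

theorem lh_eq {n : ℕ} {v : Fin n → (Fin 4 → ℝ)} {i j : Fin n} {s c : Bool}
    {ψ : (Fin 4 → ℝ) →ₗ[ℝ] ℝ}
    (h1 : ψ (vert v (i, s)) = 1) (h2 : ψ (vert v (j, c)) = 1)
    (h3 : ∀ q, ψ (vert v q) ≤ 1 ∧ (ψ (vert v q) = 1 → q = (i, s) ∨ q = (j, c))) :
    (∀ x ∈ PP v, ψ x ≤ 1) ∧
    ∀ x, x ∈ convexHull ℝ {vert v (i, s), vert v (j, c)} ↔ x ∈ PP v ∧ ψ x = 1 := by
  have h4 : ∀ x ∈ PP v, ψ x ≤ 1 := by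
    intro x hx
    have hc : Convex ℝ {x | ψ x ≤ 1} := convex_halfSpace_le ψ.isLinear 1
    exact convexHull_min (by rintro _ ⟨q, rfl⟩; exact (h3 q).1) hc hx
  refine ⟨h4, fun x => ⟨fun hx => ⟨?_, ?_⟩, fun hx => ?_⟩⟩
  · refine convexHull_mono ?_ hx
    rintro y (rfl | rfl)
    · exact ⟨_, rfl⟩
    · exact ⟨_, rfl⟩
  · have hc : Convex ℝ {x | ψ x = 1} := convex_hyperplane ψ.isLinear 1
    refine convexHull_min ?_ hc hx
    rintro y (rfl | rfl)
    · exact h1
    · exact h2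
  · have h5 := lf_face (Set.range (vert v)) (Set.finite_range _) ψ 1
      (by rintro _ ⟨q, rfl⟩; exact (h3 q).1) hx.1 hx.2
    refine convexHull_mono ?_ h5
    rintro _ ⟨⟨q, rfl⟩, hq⟩
    rcases (h3 q).2 hq with rfl | rfl
    · simp
    · simp

theorem lh_mem {n : ℕ} {v : Fin n → (Fin 4 → ℝ)}
    {t : Fin n × Fin n × Bool} (ht : t.1 < t.2.1 ∧ Pres v t.1 t.2.1 t.2.2) (s : Bool)
    (q : Fin n × Bool) : vert v q ∈ lhF v (t, s) ↔ q = (t.1, s) ∨ q = (t.2.1, s == t.2.2) := by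
  obtain ⟨ψ, h1, h2, h3⟩ := lh_functional ht.1.ne ht.2 s
  have h4 := (lh_eq h1 h2 h3).2 (vert v q)
  unfold lhF
  rw [h4]
  constructor
  · rintro ⟨_, h⟩
    exact (h3 q).2 h
  · rintro (rfl | rfl)
    · exact ⟨subset_convexHull ℝ _ ⟨_, rfl⟩, h1⟩
    · exact ⟨subset_convexHull ℝ _ ⟨_, rfl⟩, h2⟩

theorem lh_face {n : ℕ} {v : Fin n → (Fin 4 → ℝ)} (hv : Generic v)
    {t : Fin n × Fin n × Bool} (ht : t.1 < t.2.1 ∧ Pres v t.1 t.2.1 t.2.2) (s : Bool) :
    (lhF v (t, s)).Nonempty ∧ IsExposed ℝ (PP v) (lhF v (t, s)) ∧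
      Module.finrank ℝ (vectorSpan ℝ (lhF v (t, s))) = 1 := by
  obtain ⟨ψ, h1, h2, h3⟩ := lh_functional ht.1.ne ht.2 s
  obtain ⟨h4, h5⟩ := lh_eq h1 h2 h3
  have hmem : vert v (t.1, s) ∈ lhF v (t, s) := subset_convexHull ℝ _ (by simp)
  refine ⟨⟨_, hmem⟩, ?_, ?_⟩
  · intro _
    refine ⟨LinearMap.toContinuousLinearMap ψ, ?_⟩
    ext x
    have h6 := h5 x
    unfold lhF at hmem ⊢
    simp only at hmem
    simp only [Set.mem_ofPred_eq, LinearMap.coe_toContinuousLinearMap']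
    rw [h6]
    constructor
    · rintro ⟨g1, g2⟩
      refine ⟨g1, fun y hy => ?_⟩
      rw [g2]
      exact h4 y hy
    · rintro ⟨g1, g2⟩
      refine ⟨g1, le_antisymm (h4 x g1) ?_⟩
      have g3 := g2 (vert v (t.1, s)) ((h5 _).1 hmem).1
      rw [h1] at g3
      exact g3
  · have hne : vert v (t.1, s) ≠ vert v (t.2.1, s == t.2.2) := by
      intro h
      have := vert_inj hv h
      exact ht.1.ne (congrArg Prod.fst this)
    unfold lhF
    rw [← direction_affineSpan, affineSpan_convexHull, direction_affineSpan]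
    have h6 := (affineIndependent_of_ne ℝ hne).finrank_vectorSpan (n := 1) (by simp)
    rw [Matrix.range_cons, Matrix.range_cons, Matrix.range_empty, Set.union_empty,
      Set.singleton_union] at h6
    exact h6

theorem pp_edges {n : ℕ} (hn : 4 ≤ n) {v : Fin n → (Fin 4 → ℝ)} (hv : Generic v)
    (hp : ∀ i j : Fin n, i ≠ j → Pres v i j true) :
    2 * {t : Fin n × Fin n × Bool | t.1 < t.2.1 ∧ Pres v t.1 t.2.1 t.2.2}.ncard ≤ f 1 (PP v) := by
  classical
  set T : Set (Fin n × Fin n × Bool) := {t | t.1 < t.2.1 ∧ Pres v t.1 t.2.1 t.2.2} with hT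
  have h1 : 2 * T.ncard = (T ×ˢ (Set.univ : Set Bool)).ncard := by
    rw [Set.ncard_prod, Set.ncard_univ, Nat.card_eq_fintype_card, Fintype.card_bool, mul_comm]
  rw [h1]
  unfold f
  refine Set.ncard_le_ncard_of_injOn (lhF v) ?_ ?_ ?_
  · rintro ⟨t, s⟩ ⟨ht, _⟩
    exact lh_face hv ht s
  · rintro ⟨t, s⟩ ⟨ht, _⟩ ⟨t', s'⟩ ⟨ht', _⟩ h
    simp only at ht ht'
    have g1 := (lh_mem ht s (t.1, s)).2 (Or.inl rfl)
    have g2 := (lh_mem ht s (t.2.1, s == t.2.2)).2 (Or.inr rfl)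
    rw [h, lh_mem ht' s'] at g1 g2
    obtain ⟨i, j, b⟩ := t
    obtain ⟨i', j', b'⟩ := t'
    have hlt : i < j := ht.1
    have hlt' : i' < j' := ht'.1
    simp only [Prod.mk.injEq] at g1 g2 ⊢
    rcases g1 with ⟨rfl, rfl⟩ | ⟨rfl, _⟩
    · rcases g2 with ⟨rfl, _⟩ | ⟨rfl, g3⟩
      · exact absurd hlt (lt_irrefl _)
      · have : b = b' := by
          revert g3
          cases s <;> cases b <;> cases b' <;> simp
        exact ⟨⟨rfl, rfl, this⟩, rfl⟩
    · exfalso
      rcases g2 with ⟨rfl, _⟩ | ⟨rfl, _⟩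
      · exact lt_asymm hlt hlt'
      · exact lt_irrefl _ hlt
  · have hfin : ((PP v).extremePoints ℝ).Finite := by
      rw [ext_pp hn hv hp]
      exact Set.finite_range _
    refine (hfin.finite_subsets.image (convexHull ℝ)).subset ?_
    rintro F ⟨g1, g2, _⟩
    exact ⟨F ∩ (PP v).extremePoints ℝ, Set.inter_subset_right,
      face_hull (pp_polytope hn hv) g2 g1⟩

end Pool.Agent.Lib.MP_a3b162_co
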