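import Pool.Agent.Lib.MP_a3b162_co.LC
import Pool.Agent.Lib.MP_a3b162_co.LD
import Pool.Agent.Lib.MP_a3b162_co.LG
import Pool.Agent.Lib.MP_a3b162_co.LH

/-!
MODULE LL (40 min).  The lower bound.

PROOF.  `v` from `clusters n`; `v i ≠ sg b • v j` for `i ≠ j` (take `φ` of `Pres v i j true` if
`b = false`: `φ (v i) = 1 ≠ -1`; if `b = true` and `v i = v j`: for `n ≥ 3` take a third index `k` and
`φ` of `Pres v i k true`: `φ (v i) = 1`, `|φ (v j)| < 1`).  `δ` from `pres_open`, `v'` from `generic`.
`P = PP v'`.  `f 0 P = (ext P).ncard = 2n` (`f_zero`, `ext_pp`, `vert_inj`).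
`f 1 P ≥ 2 #{(i,j,b) : i < j, Pres v' i j b} ≥ 2 (n(n-1) - #{i < j : same parity})`
and `#{i < j, i ≡ j mod 2} ≤ n^2/4`, so
`f 1 P ≥ 2 n (n-1) - n^2/2 = (3/2) n^2 - 2 n ≥ (3/4 - ε) (2 n^2 - n)` for `n` large.
-/

set_option autoImplicit false

namespace Pool.Agent.Lib.MP_a3b162_co

/-- the number of pairs `i < j` -/
theorem lower_pairs (n : ℕ) :
    n * n ≤ 2 * (Finset.univ.filter (fun p : Fin n × Fin n => p.1 < p.2)).card + n := by
  classical
  have h1 : (Finset.univ : Finset (Fin n × Fin n)) ⊆
      (Finset.univ.filter (fun p : Fin n × Fin n => p.1 < p.2)) ∪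
      ((Finset.univ.filter (fun p : Fin n × Fin n => p.1 < p.2)).image Prod.swap) ∪
      (Finset.univ.image (fun i : Fin n => (i, i))) := by
    rintro ⟨i, j⟩ -
    rcases lt_trichotomy i j with h | h | h
    · simp [h]
    · subst h
      simp
    · simp [h]
  have h2 := Finset.card_le_card h1
  have h3 : (Finset.univ : Finset (Fin n × Fin n)).card = n * n := by simp
  have h4 := Finset.card_union_le ((Finset.univ.filter (fun p : Fin n × Fin n => p.1 < p.2)) ∪
      ((Finset.univ.filter (fun p : Fin n × Fin n => p.1 < p.2)).image Prod.swap))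
      (Finset.univ.image (fun i : Fin n => (i, i)))
  have h5 := Finset.card_union_le (Finset.univ.filter (fun p : Fin n × Fin n => p.1 < p.2))
      ((Finset.univ.filter (fun p : Fin n × Fin n => p.1 < p.2)).image Prod.swap)
  have h6 : ((Finset.univ.filter (fun p : Fin n × Fin n => p.1 < p.2)).image Prod.swap).card ≤
      (Finset.univ.filter (fun p : Fin n × Fin n => p.1 < p.2)).card := Finset.card_image_le
  have h7 : (Finset.univ.image (fun i : Fin n => (i, i))).card ≤ n := by
    refine Finset.card_image_le.trans ?_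
    simp
  omega

/-- the number of pairs `i < j` of different parity -/
theorem lower_odd (n : ℕ) :
    n * n ≤ 4 * (Finset.univ.filter (fun p : Fin n × Fin n => p.1 < p.2 ∧
      p.1.val % 2 ≠ p.2.val % 2)).card + 1 := by
  classical
  have h1 : (Finset.univ : Finset (Fin ((n + 1) / 2) × Fin (n / 2))).card ≤
      (Finset.univ.filter (fun p : Fin n × Fin n => p.1 < p.2 ∧
      p.1.val % 2 ≠ p.2.val % 2)).card := by
    refine Finset.card_le_card_of_injOn
      (fun q => if h : 2 * q.1.val < 2 * q.2.val + 1 then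
        ((⟨2 * q.1.val, by have := q.1.isLt; omega⟩ : Fin n),
          (⟨2 * q.2.val + 1, by have := q.2.isLt; omega⟩ : Fin n))
        else ((⟨2 * q.2.val + 1, by have := q.2.isLt; omega⟩ : Fin n),
          (⟨2 * q.1.val, by have := q.1.isLt; omega⟩ : Fin n))) ?_ ?_
    · rintro ⟨a, b⟩ -
      simp only
      split_ifs with h
      · simp only [Finset.coe_filter, Finset.mem_univ, true_and, Set.mem_setOf_eq, Fin.mk_lt_mk]
        omega
      · simp only [Finset.coe_filter, Finset.mem_univ, true_and, Set.mem_setOf_eq, Fin.mk_lt_mk]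
        omega
    · rintro ⟨a, b⟩ - ⟨a', b'⟩ - hab
      simp only at hab
      have : a.val = a'.val ∧ b.val = b'.val := by
        split_ifs at hab with h h' h'
        · simp only [Prod.mk.injEq, Fin.mk.injEq] at hab
          omega
        · simp only [Prod.mk.injEq, Fin.mk.injEq] at hab
          omega
        · simp only [Prod.mk.injEq, Fin.mk.injEq] at hab
          omega
        · simp only [Prod.mk.injEq, Fin.mk.injEq] at hab
          omega
      exact Prod.ext (Fin.ext this.1) (Fin.ext this.2)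
  have h2 : (Finset.univ : Finset (Fin ((n + 1) / 2) × Fin (n / 2))).card =
      ((n + 1) / 2) * (n / 2) := by simp
  rw [h2] at h1
  rcases Nat.even_or_odd' n with ⟨k, hk | hk⟩
  · have e1 : (n + 1) / 2 = k := by omega
    have e2 : n / 2 = k := by omega
    rw [e1, e2] at h1
    subst hk
    nlinarith
  · have e1 : (n + 1) / 2 = k + 1 := by omega
    have e2 : n / 2 = k := by omega
    rw [e1, e2] at h1
    subst hk
    nlinarith

theorem lower (ε : ℝ) (hε : 0 < ε) : ∃ N : ℕ, ∀ n : ℕ, N ≤ n →
    ∃ P : Set (Fin 4 → ℝ), IsPolytope P ∧ IsCS P ∧ IsSimplicial P ∧ f 0 P = 2 * n ∧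
      (3 / 4 - ε) * ((2 * n).choose 2 : ℝ) ≤ (f 1 P : ℝ) := by
  classical
  obtain ⟨N0, hN0⟩ := exists_nat_ge (1 / ε)
  refine ⟨max 4 N0, fun n hn => ?_⟩
  have hn4 : 4 ≤ n := (le_max_left _ _).trans hn
  have hnN : N0 ≤ n := (le_max_right _ _).trans hn
  obtain ⟨v, hv⟩ := clusters n
  have hne : ∀ i j : Fin n, i ≠ j → ∀ b : Bool, v i ≠ sg b • v j := by
    intro i j hij b h
    cases b
    · obtain ⟨φ, h1, h2, -⟩ := (hv i j hij).1
      rw [h, map_smul, h2] at h1
      simp at h1
      norm_num at h1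
    · obtain ⟨k, hk⟩ : ∃ k : Fin n, k ∉ ({i, j} : Finset (Fin n)) := by
        by_contra hcon
        push Not at hcon
        have h1 : (Finset.univ : Finset (Fin n)) ⊆ {i, j} := fun k _ => hcon k
        have h2 := Finset.card_le_card h1
        have h3 := Finset.card_le_two (a := i) (b := j)
        simp at h2
        omega
      simp only [Finset.mem_insert, Finset.mem_singleton, not_or] at hk
      obtain ⟨φ, h1, h2, h3⟩ := (hv i k (Ne.symm hk.1)).1
      have h4 := h3 j hij.symm (Ne.symm hk.2)
      rw [h] at h1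
      simp only [sg_true, one_smul] at h1
      rw [h1] at h4
      norm_num at h4
  obtain ⟨δ, hδ, hop⟩ := pres_open v hne
  obtain ⟨v', hv'δ, hgen⟩ := generic n v δ hδ
  have hp : ∀ i j : Fin n, i ≠ j → Pres v' i j true :=
    fun i j hij => hop v' hv'δ i j hij true (hv i j hij).1
  have hp2 : ∀ i j : Fin n, i ≠ j → i.val % 2 ≠ j.val % 2 → Pres v' i j false :=
    fun i j hij hpar => hop v' hv'δ i j hij false ((hv i j hij).2 hpar)
  have hpoly := pp_polytope hn4 hgen
  refine ⟨PP v', hpoly, ⟨0, pp_cs v'⟩, pp_simplicial hn4 hgen hp, ?_, ?_⟩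
  · rw [f_zero hpoly, ext_pp hn4 hgen hp, ← Set.image_univ,
      Set.ncard_image_of_injective _ (vert_inj hgen), Set.ncard_univ, Nat.card_eq_fintype_card]
    simp [mul_comm]
  · have hedge := pp_edges hn4 hgen hp
    have hcount : (Finset.univ.filter (fun p : Fin n × Fin n => p.1 < p.2)).card +
        (Finset.univ.filter (fun p : Fin n × Fin n => p.1 < p.2 ∧
          p.1.val % 2 ≠ p.2.val % 2)).card ≤
        {t : Fin n × Fin n × Bool | t.1 < t.2.1 ∧ Pres v' t.1 t.2.1 t.2.2}.ncard := by
      have hfin : {t : Fin n × Fin n × Bool | t.1 < t.2.1 ∧ Pres v' t.1 t.2.1 t.2.2}.Finite :=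
        Set.toFinite _
      set A : Finset (Fin n × Fin n × Bool) :=
        (Finset.univ.filter (fun p : Fin n × Fin n => p.1 < p.2)).image
          (fun p => (p.1, p.2, true)) with hA
      set B : Finset (Fin n × Fin n × Bool) :=
        (Finset.univ.filter (fun p : Fin n × Fin n => p.1 < p.2 ∧
          p.1.val % 2 ≠ p.2.val % 2)).image (fun p => (p.1, p.2, false)) with hB
      have hAB : Disjoint A B := by
        rw [Finset.disjoint_left]
        intro t ht ht'
        simp only [hA, Finset.mem_image] at ht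
        simp only [hB, Finset.mem_image] at ht'
        obtain ⟨p, -, rfl⟩ := ht
        obtain ⟨q, -, hq⟩ := ht'
        simp at hq
      have cA' : A.card = (Finset.univ.filter (fun p : Fin n × Fin n => p.1 < p.2)).card := by
        apply Finset.card_image_of_injective
        rintro ⟨a, b⟩ ⟨c, d⟩ h
        simp only [Prod.mk.injEq, and_true] at h
        exact Prod.ext h.1 h.2
      have cB' : B.card = (Finset.univ.filter (fun p : Fin n × Fin n => p.1 < p.2 ∧
          p.1.val % 2 ≠ p.2.val % 2)).card := by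
        apply Finset.card_image_of_injective
        rintro ⟨a, b⟩ ⟨c, d⟩ h
        simp only [Prod.mk.injEq, and_true] at h
        exact Prod.ext h.1 h.2
      rw [← cA', ← cB', ← Finset.card_union_of_disjoint hAB, ← Set.ncard_coe_finset]
      refine Set.ncard_le_ncard ?_ hfin
      intro t ht
      simp only [Finset.coe_union, Set.mem_union, Finset.mem_coe] at ht
      rcases ht with ht | ht
      · simp only [hA, Finset.mem_image, Finset.mem_filter, Finset.mem_univ, true_and] at ht
        obtain ⟨p, hp1, rfl⟩ := ht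
        exact ⟨hp1, hp _ _ hp1.ne⟩
      · simp only [hB, Finset.mem_image, Finset.mem_filter, Finset.mem_univ, true_and] at ht
        obtain ⟨p, hp1, rfl⟩ := ht
        exact ⟨hp1.1, hp2 _ _ hp1.1.ne hp1.2⟩
    have h1 := lower_pairs n
    have h2 := lower_odd n
    have h3 : 3 * (n * n) ≤ 2 * f 1 (PP v') + 2 * n + 1 := by omega
    have h3' : 3 * ((n : ℝ) * n) ≤ 2 * (f 1 (PP v') : ℝ) + 2 * n + 1 := by exact_mod_cast h3
    have hc : ((2 * n).choose 2 : ℝ) = (n : ℝ) * (2 * n - 1) := by
      rw [Nat.cast_choose_two]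
      push_cast
      ring
    rw [hc]
    have hnr : (4 : ℝ) ≤ n := by exact_mod_cast hn4
    have hεn : 1 ≤ ε * n := by
      have h4 : (1 / ε) ≤ (n : ℝ) := hN0.trans (by exact_mod_cast hnN)
      rw [div_le_iff₀ hε] at h4
      linarith
    nlinarith [mul_le_mul_of_nonneg_right hεn (show (0 : ℝ) ≤ 2 * n - 1 by linarith)]

end Pool.Agent.Lib.MP_a3b162_co
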