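import Pool.Agent.Lib.MP_a3b162_co.Upper
import Pool.Agent.Lib.MP_a3b162_co.Lower

/-!
The asymptotic maximum of the number of edges of centrally symmetric 4-polytopes.
-/

set_option autoImplicit false

namespace Pool.Agent.Results.MP_a3b162_co.EdgesDimFour

/-- `P` is a `d`-polytope: the convex hull of finitely many points of `ℝ^d`, with affine hull all
of `ℝ^d` -/
def IsPolytope {d : ℕ} (P : Set (Fin d → ℝ)) : Prop :=
  (∃ S : Set (Fin d → ℝ), S.Finite ∧ P = convexHull ℝ S) ∧ affineSpan ℝ P = ⊤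

/-- `P` is centrally symmetric: `P - c = -(P - c)` for some point `c` -/
def IsCS {d : ℕ} (P : Set (Fin d → ℝ)) : Prop :=
  ∃ c : Fin d → ℝ, ∀ x, c + x ∈ P → c - x ∈ P

/-- the number `f_i(P)` of `i`-dimensional faces of `P` (the faces of a polytope are its exposed
subsets) -/
noncomputable def f {d : ℕ} (i : ℕ) (P : Set (Fin d → ℝ)) : ℕ :=
  {F : Set (Fin d → ℝ) | F.Nonempty ∧ IsExposed ℝ P F ∧
    Module.finrank ℝ (vectorSpan ℝ F) = i}.ncard

/-- `P` is simplicial: every proper face is a simplex (the convex hull of an affinely independent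
finite set) -/
def IsSimplicial {d : ℕ} (P : Set (Fin d → ℝ)) : Prop :=
  ∀ F : Set (Fin d → ℝ), IsExposed ℝ P F → F ≠ P →
    ∃ s : Finset (Fin d → ℝ), AffineIndependent ℝ ((↑) : s → (Fin d → ℝ)) ∧
      F = convexHull ℝ (s : Set (Fin d → ℝ))

/-- Every centrally symmetric 4-polytope with `N` vertices has at most `(3/4 + o(1)) C(N,2)` edges,
and for every even `N` there are simplicial ones with at least `(3/4 - o(1)) C(N,2)` edges. -/
theorem result :
    (∀ ε : ℝ, 0 < ε → ∃ N : ℕ, ∀ P : Set (Fin 4 → ℝ), IsPolytope P → IsCS P → N ≤ f 0 P →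
      (f 1 P : ℝ) ≤ (3 / 4 + ε) * ((f 0 P).choose 2 : ℝ)) ∧
    (∀ ε : ℝ, 0 < ε → ∃ N : ℕ, ∀ n : ℕ, N ≤ n →
      ∃ P : Set (Fin 4 → ℝ), IsPolytope P ∧ IsCS P ∧ IsSimplicial P ∧ f 0 P = 2 * n ∧
        (3 / 4 - ε) * ((2 * n).choose 2 : ℝ) ≤ (f 1 P : ℝ)) :=
  ⟨fun ε hε => Pool.Agent.Lib.MP_a3b162_co.upper_edges ε hε,
    fun ε hε => Pool.Agent.Lib.MP_a3b162_co.lower ε hε⟩

end Pool.Agent.Results.MP_a3b162_co.EdgesDimFour
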