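import Pool.Agent.Lib.MP_a3b162_co.Defs
import Pool.Agent.Lib.MP_a3b162_co.Core

/-!
MODULE GA (50 min).  Vertices of a centrally symmetric polytope.

(1) the extreme points of a polytope are finitely many and `P = convexHull ℝ (P.extremePoints ℝ)`
(`extremePoints_convexHull_subset`, `closure_convexHull_extremePoints` (Krein-Milman, `P` is compact
and convex), and the convex hull of a finite set is closed).
(2) `f 0 P = (P.extremePoints ℝ).ncard`: a nonempty exposed face with `finrank (vectorSpan) = 0` is a
single point `{x}` (`finrank = 0` gives `vectorSpan = ⊥`, subsingleton), an exposed face is extreme, so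
`x` is an extreme point.  Conversely let `x` be an extreme point; `x ∉ convexHull (ext \ {x})`
(otherwise, e.g. `extremePoints_convexHull_subset`), this hull is closed and convex, so
`geometric_hahn_banach_point_closed`/`..._closed_point` gives a continuous functional `l` with
`l y < l x` for all `y` in `ext \ {x}`; then `{y ∈ P | ∀ z ∈ P, l z ≤ l y} = {x}` (write `y` as convex
combination of extreme points).  The bijection `x ↦ {x}` gives the equality of `ncard`.
(3) half system: `c` = centre.  `c` is not an extreme point (`d ≥ 1`: `P ≠ {c}` because the affine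
span is everything; `c` is the midpoint of `x` and `2c - x`).  The reflection `x ↦ 2c - x` maps `P`
onto `P` and extreme points to extreme points.  `H` = the extreme points `x` with
`toLex (x - c) > 0` (lexicographic linear order on `Fin d → ℝ`; `x ≠ c`); then
`ext = H ∪ (2c - H)`, disjoint.  Enumerate `H` by `Fin n`: `v i = x_i - c`.
-/

set_option autoImplicit false

namespace Pool.Agent.Lib.MP_a3b162_co

variable {d : ℕ} {P : Set (Fin d → ℝ)}

open Set

theorem ext_finite (hP : IsPolytope P) : (P.extremePoints ℝ).Finite := by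
  obtain ⟨⟨S, hS, rfl⟩, -⟩ := hP
  exact hS.subset extremePoints_convexHull_subset

theorem hull_ext (hP : IsPolytope P) : convexHull ℝ (P.extremePoints ℝ) = P := by
  have h1 := (ext_finite hP).isClosed_convexHull ℝ
  obtain ⟨⟨S, hS, rfl⟩, -⟩ := hP
  have h2 : IsCompact (convexHull ℝ S) := hS.isCompact_convexHull ℝ
  have h3 := closure_convexHull_extremePoints h2 (convex_convexHull ℝ S)
  rwa [h1.closure_eq] at h3

theorem ga_convex (hP : IsPolytope P) : Convex ℝ P := by
  obtain ⟨⟨S, -, rfl⟩, -⟩ := hP
  exact convex_convexHull ℝ S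

/-- extreme points of polytopes are exposed -/
theorem ga_exposed (hP : IsPolytope P) {x : Fin d → ℝ} (hx : x ∈ P.extremePoints ℝ) :
    IsExposed ℝ P {x} := by
  intro _
  have hsub : P.extremePoints ℝ \ {x} ⊆ P := fun y hy => extremePoints_subset hy.1
  have hK : convexHull ℝ (P.extremePoints ℝ \ {x}) ⊆ P := convexHull_min hsub (ga_convex hP)
  have hxK : x ∉ convexHull ℝ (P.extremePoints ℝ \ {x}) := by
    intro h
    have h1 : x ∈ (convexHull ℝ (P.extremePoints ℝ \ {x})).extremePoints ℝ :=
      inter_extremePoints_subset_extremePoints_of_subset hK ⟨h, hx⟩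
    exact (extremePoints_convexHull_subset h1).2 rfl
  have hfin : (P.extremePoints ℝ \ {x}).Finite := (ext_finite hP).subset sdiff_subset
  obtain ⟨l, u, hl1, hl2⟩ := geometric_hahn_banach_closed_point
    (convex_convexHull ℝ (P.extremePoints ℝ \ {x})) (hfin.isClosed_convexHull ℝ) hxK
  have hlt : ∀ k ∈ convexHull ℝ (P.extremePoints ℝ \ {x}), l k < l x := fun k hk =>
    (hl1 k hk).trans hl2
  have hxP : x ∈ P := extremePoints_subset hx
  -- description of `P`
  have hdesc : ∀ y ∈ P, y = x ∨ l y < l x := by
    intro y hy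
    rcases (P.extremePoints ℝ \ {x}).eq_empty_or_nonempty with he | hne
    · left
      have h2 : P.extremePoints ℝ = {x} := by
        apply subset_antisymm
        · intro z hz
          by_contra hzx
          have : z ∈ P.extremePoints ℝ \ {x} := ⟨hz, hzx⟩
          rw [he] at this
          exact this
        · rintro z rfl
          exact hx
      rw [← hull_ext hP, h2, convexHull_singleton] at hy
      exact hy
    · have h2 : P.extremePoints ℝ = insert x (P.extremePoints ℝ \ {x}) := by
        rw [insert_sdiff_singleton, insert_eq_of_mem hx]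
      rw [← hull_ext hP, h2, convexHull_insert hne, mem_convexJoin] at hy
      obtain ⟨x', hx', k, hk, hy⟩ := hy
      rw [mem_singleton_iff] at hx'
      subst hx'
      obtain ⟨a, b, ha, hb, hab, rfl⟩ := hy
      have hk' : l k < l x' := hlt k hk
      rcases hb.eq_or_lt with hb0 | hb0
      · left
        have ha1 : a = 1 := by linarith
        rw [← hb0, ha1, one_smul, zero_smul, add_zero]
      · right
        have e1 : l (a • x' + b • k) = a * l x' + b * l k := by
          rw [map_add, map_smul, map_smul, smul_eq_mul, smul_eq_mul]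
        rw [e1]
        have h3 : b * l k < b * l x' := mul_lt_mul_of_pos_left hk' hb0
        have h4 : a * l x' + b * l x' = l x' := by rw [← add_mul, hab, one_mul]
        linarith
  refine ⟨l, ?_⟩
  ext y
  constructor
  · rintro rfl
    refine ⟨hxP, fun z hz => ?_⟩
    rcases hdesc z hz with rfl | h
    · exact le_rfl
    · exact h.le
  · rintro ⟨hy, hmax⟩
    rcases hdesc y hy with rfl | h
    · rfl
    · exact absurd (hmax x hxP) (not_le.2 h)

theorem f_zero (hP : IsPolytope P) : f 0 P = (P.extremePoints ℝ).ncard := by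
  have h1 : {F : Set (Fin d → ℝ) | F.Nonempty ∧ IsExposed ℝ P F ∧
      Module.finrank ℝ (vectorSpan ℝ F) = 0} = (fun x => ({x} : Set (Fin d → ℝ))) ''
        P.extremePoints ℝ := by
    ext F
    constructor
    · rintro ⟨⟨x, hx⟩, hF, hd⟩
      have h2 : vectorSpan ℝ F = ⊥ := Submodule.finrank_eq_zero.1 hd
      have h3 : F.Subsingleton := (vectorSpan_eq_bot_iff_subsingleton ℝ).1 h2
      have h4 : F = {x} := h3.eq_singleton_of_mem hx
      refine ⟨x, ?_, h4.symm⟩
      rw [h4] at hF
      exact isExtreme_singleton.1 hF.isExtreme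
    · rintro ⟨x, hx, rfl⟩
      refine ⟨singleton_nonempty x, ga_exposed hP hx, ?_⟩
      rw [vectorSpan_singleton, finrank_bot]
  unfold f
  rw [h1]
  exact ncard_image_of_injective _ singleton_injective

/-- the first nonzero coordinate is positive -/
def GaPos (z : Fin d → ℝ) : Prop := ∃ i, (∀ j < i, z j = 0) ∧ 0 < z i

theorem ga_pos_or {z : Fin d → ℝ} (hz : z ≠ 0) : GaPos z ∨ GaPos (-z) := by
  classical
  have h1 : ∃ i, z i ≠ 0 := by
    by_contra h
    push Not at h
    exact hz (funext h)
  obtain ⟨i, hi, hmin⟩ := WellFounded.has_min (wellFounded_lt : WellFounded ((· < ·) :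
    Fin d → Fin d → Prop)) {i | z i ≠ 0} h1
  have h0 : ∀ j < i, z j = 0 := by
    intro j hj
    by_contra hjz
    exact hmin j hjz hj
  rcases lt_or_gt_of_ne (show z i ≠ 0 from hi) with h | h
  · right
    exact ⟨i, fun j hj => by simp [h0 j hj], by simpa using h⟩
  · left
    exact ⟨i, h0, h⟩

theorem ga_pos_not {z : Fin d → ℝ} (h1 : GaPos z) (h2 : GaPos (-z)) : False := by
  obtain ⟨i, hi, hi'⟩ := h1
  obtain ⟨j, hj, hj'⟩ := h2
  have hj'' : z j < 0 := by simpa using hj'
  rcases lt_trichotomy i j with h | h | h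
  · have := hj i h
    simp at this
    rw [this] at hi'
    exact lt_irrefl _ hi'
  · subst h
    exact lt_asymm hi' hj''
  · have := hi j h
    rw [this] at hj''
    exact lt_irrefl _ hj''

theorem ga_symm {c : Fin d → ℝ} (hc : ∀ x, c + x ∈ P → c - x ∈ P) {x : Fin d → ℝ}
    (hx : c + x ∈ P.extremePoints ℝ) : c - x ∈ P.extremePoints ℝ := by
  have hr : ∀ y ∈ P, (2 : ℝ) • c - y ∈ P := by
    intro y hy
    have h1 := hc (y - c) (by rwa [add_sub_cancel])
    have h2 : c - (y - c) = (2 : ℝ) • c - y := by rw [two_smul]; abel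
    rwa [h2] at h1
  refine ⟨hc x hx.1, ?_⟩
  intro y hy z hz hyz
  have h3 : c + x ∈ openSegment ℝ ((2 : ℝ) • c - y) ((2 : ℝ) • c - z) := by
    obtain ⟨a, b, ha, hb, hab, h⟩ := hyz
    refine ⟨a, b, ha, hb, hab, ?_⟩
    have e1 : a • ((2 : ℝ) • c - y) + b • ((2 : ℝ) • c - z) =
        (a + b) • ((2 : ℝ) • c) - (a • y + b • z) := by
      rw [smul_sub, smul_sub, add_smul]; abel
    rw [e1, hab, h, one_smul, two_smul]
    abel
  have h4 := hx.2 (hr y hy) (hr z hz) h3
  have h5 : y = (2 : ℝ) • c - ((2 : ℝ) • c - y) := by abel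
  rw [h5, h4, two_smul]
  abel

theorem ga_center (hd : 1 ≤ d) (hP : IsPolytope P) {c : Fin d → ℝ}
    (hc : ∀ x, c + x ∈ P → c - x ∈ P) : c ∉ P.extremePoints ℝ := by
  intro hce
  have h1 : P = {c} := by
    apply subset_antisymm
    · intro y hy
      have hy' : c - (y - c) ∈ P := hc (y - c) (by rwa [add_sub_cancel])
      have h2 : c ∈ openSegment ℝ y (c - (y - c)) := by
        refine ⟨1 / 2, 1 / 2, by norm_num, by norm_num, by norm_num, ?_⟩
        ext i
        simp
        ring
      exact hce.2 hy hy' h2
    · rintro y rfl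
      exact hce.1
  have h2 := hP.2
  rw [h1] at h2
  have h3 : (affineSpan ℝ ({c} : Set (Fin d → ℝ))).direction = ⊤ := by
    rw [h2]; exact AffineSubspace.direction_top ℝ _ _
  rw [direction_affineSpan, vectorSpan_singleton] at h3
  have h4 : (fun _ : Fin d => (1 : ℝ)) ∈ (⊥ : Submodule ℝ (Fin d → ℝ)) := by
    rw [h3]; trivial
  have h5 := congrFun ((Submodule.mem_bot ℝ).1 h4) ⟨0, hd⟩
  simp at h5

theorem half_system (hd : 1 ≤ d) (hP : IsPolytope P) {c : Fin d → ℝ}
    (hc : ∀ x, c + x ∈ P → c - x ∈ P) :
    ∃ (n : ℕ) (v : Fin n → (Fin d → ℝ)), f 0 P = 2 * n ∧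
      Function.Injective (fun q : Fin n × Bool => c + sg q.2 • v q.1) ∧
      Set.range (fun q : Fin n × Bool => c + sg q.2 • v q.1) = P.extremePoints ℝ := by
  classical
  have hHf : {x | x ∈ P.extremePoints ℝ ∧ GaPos (x - c)}.Finite :=
    (ext_finite hP).subset fun x hx => hx.1
  obtain ⟨n, e, he⟩ : ∃ (n : ℕ) (e : Fin n → (Fin d → ℝ)), Function.Injective e ∧
      Set.range e = {x | x ∈ P.extremePoints ℝ ∧ GaPos (x - c)} := by
    have := hHf.to_subtype
    obtain ⟨n, ⟨g⟩⟩ := Finite.exists_equiv_fin {x | x ∈ P.extremePoints ℝ ∧ GaPos (x - c)}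
    refine ⟨n, fun i => (g.symm i : Fin d → ℝ), Subtype.val_injective.comp g.symm.injective, ?_⟩
    ext x
    constructor
    · rintro ⟨i, rfl⟩
      exact (g.symm i).2
    · intro hx
      exact ⟨g ⟨x, hx⟩, by simp⟩
  obtain ⟨hei, her⟩ := he
  have hmem : ∀ i, e i ∈ P.extremePoints ℝ ∧ GaPos (e i - c) := fun i => by
    have : e i ∈ Set.range e := ⟨i, rfl⟩
    rw [her] at this
    exact this
  have hinj : Function.Injective (fun q : Fin n × Bool => c + sg q.2 • (e q.1 - c)) := by
    rintro ⟨i, b⟩ ⟨j, b'⟩ hq
    have hq' : sg b • (e i - c) = sg b' • (e j - c) := add_left_cancel hq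
    cases b <;> cases b'
    · simp only [sg_false, neg_smul, one_smul, neg_inj, sub_left_inj] at hq'
      rw [hei hq']
    · exfalso
      simp only [sg_false, sg_true, neg_smul, one_smul] at hq'
      have h1 := (hmem j).2
      rw [← hq'] at h1
      exact ga_pos_not (hmem i).2 h1
    · exfalso
      simp only [sg_false, sg_true, neg_smul, one_smul] at hq'
      have h1 := (hmem i).2
      rw [hq'] at h1
      exact ga_pos_not (hmem j).2 h1
    · simp only [sg_true, one_smul, sub_left_inj] at hq'
      rw [hei hq']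
  have hrange : Set.range (fun q : Fin n × Bool => c + sg q.2 • (e q.1 - c)) =
      P.extremePoints ℝ := by
    ext x
    constructor
    · rintro ⟨⟨i, b⟩, rfl⟩
      have h1 : c + (e i - c) ∈ P.extremePoints ℝ := by
        rw [add_sub_cancel]; exact (hmem i).1
      cases b
      · simp only [sg_false, neg_smul, one_smul, ← sub_eq_add_neg]
        exact ga_symm hc h1
      · simp only [sg_true, one_smul]
        exact h1
    · intro hx
      have hxc : x - c ≠ 0 := by
        intro h0
        have : x = c := sub_eq_zero.1 h0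
        exact ga_center hd hP hc (this ▸ hx)
      rcases ga_pos_or hxc with h | h
      · have h1 : x ∈ Set.range e := by rw [her]; exact ⟨hx, h⟩
        obtain ⟨i, rfl⟩ := h1
        exact ⟨(i, true), by simp⟩
      · have h2 : c - (x - c) ∈ P.extremePoints ℝ :=
          ga_symm hc (by rwa [add_sub_cancel])
        have h1 : c - (x - c) ∈ Set.range e := by
          rw [her]
          refine ⟨h2, ?_⟩
          have : c - (x - c) - c = -(x - c) := by abel
          rw [this]
          exact h
        obtain ⟨i, hi⟩ := h1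
        refine ⟨(i, false), ?_⟩
        show c + sg false • (e i - c) = x
        rw [hi, sg_false, neg_smul, one_smul]
        abel
  refine ⟨n, fun i => e i - c, ?_, hinj, hrange⟩
  rw [f_zero hP, ← hrange, ← image_univ, ncard_image_of_injective _ hinj, ncard_univ,
    Nat.card_eq_fintype_card, Fintype.card_prod, Fintype.card_fin, Fintype.card_bool, mul_comm]

end Pool.Agent.Lib.MP_a3b162_co
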