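import Pool.Agent.Lib.MP_a3b162_co.GA

/-!
Faces of a centrally symmetric polytope (module GB of MP_a3b162_co).
-/

set_option autoImplicit false

namespace Pool.Agent.Lib.MP_a3b162_co

variable {d : ℕ} {P : Set (Fin d → ℝ)}

lemma GB_convex (hP : IsPolytope P) : Convex ℝ P := by
  obtain ⟨⟨S, _, rfl⟩, _⟩ := hP
  exact convex_convexHull ℝ S

lemma GB_compact (hP : IsPolytope P) : IsCompact P := by
  obtain ⟨⟨S, hS, rfl⟩, _⟩ := hP
  exact hS.isCompact_convexHull ℝ

lemma GB_ext_eq (hP : IsPolytope P) {F : Set (Fin d → ℝ)} (hF : IsExposed ℝ P F) :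
    F.extremePoints ℝ = F ∩ P.extremePoints ℝ :=
  hF.isExtreme.extremePoints_eq

theorem face_hull (hP : IsPolytope P) {F : Set (Fin d → ℝ)} (hF : IsExposed ℝ P F)
    (hne : F.Nonempty) : convexHull ℝ (F ∩ P.extremePoints ℝ) = F := by
  have hFc : IsCompact F := hF.isCompact (GB_compact hP)
  have hFconv : Convex ℝ F := hF.convex (GB_convex hP)
  have h1 := closure_convexHull_extremePoints hFc hFconv
  rw [GB_ext_eq hP hF] at h1
  have hfin : (F ∩ P.extremePoints ℝ).Finite := (ext_finite hP).subset Set.inter_subset_right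
  rw [(hfin.isClosed_convexHull ℝ).closure_eq] at h1
  exact h1

theorem face_expo (hP : IsPolytope P) {c : Fin d → ℝ}
    (hc : ∀ x, c + x ∈ P → c - x ∈ P) {n : ℕ} (v : Fin n → (Fin d → ℝ))
    (hr : Set.range (fun q : Fin n × Bool => c + sg q.2 • v q.1) = P.extremePoints ℝ)
    {F : Set (Fin d → ℝ)} (hF : IsExposed ℝ P F) (hne : F.Nonempty) (hFP : F ≠ P)
    (W : Finset (Fin n × Bool))
    (hW : ∀ q, q ∈ W ↔ c + sg q.2 • v q.1 ∈ F) : Expo v W := by
  obtain ⟨l, hl⟩ := hF hne
  obtain ⟨x0, hx0⟩ := hne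
  have hx0' := hx0
  rw [hl] at hx0'
  have hM : ∀ y ∈ P, l y ≤ l x0 := hx0'.2
  have hmem : ∀ x, x ∈ F ↔ x ∈ P ∧ l x = l x0 := by
    intro x
    constructor
    · intro hx
      rw [hl] at hx
      exact ⟨hx.1, le_antisymm (hM x hx.1) (hx.2 x0 hx0'.1)⟩
    · rintro ⟨h1, h2⟩
      rw [hl]
      exact ⟨h1, fun y hy => by rw [h2]; exact hM y hy⟩
  obtain ⟨y, hyP, hyF⟩ : ∃ y ∈ P, y ∉ F := by
    by_contra hcon
    push Not at hcon
    exact hFP (Set.Subset.antisymm (fun x hx => ((hmem x).1 hx).1) hcon)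
  have hly : l y < l x0 := lt_of_le_of_ne (hM y hyP) fun h => hyF ((hmem y).2 ⟨hyP, h⟩)
  have hcl : l c < l x0 := by
    have h1 : c - (y - c) ∈ P := hc (y - c) (by simpa using hyP)
    have h2 := hM _ h1
    rw [map_sub, map_sub] at h2
    linarith
  have hpos : 0 < l x0 - l c := by linarith
  refine ⟨(l x0 - l c)⁻¹ • (l : (Fin d → ℝ) →ₗ[ℝ] ℝ), fun q => ?_⟩
  have hval : sg q.2 * ((l x0 - l c)⁻¹ • (l : (Fin d → ℝ) →ₗ[ℝ] ℝ)) (v q.1) =
      (l (c + sg q.2 • v q.1) - l c) / (l x0 - l c) := by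
    rw [map_add, map_smul]
    simp only [LinearMap.smul_apply, ContinuousLinearMap.coe_coe, smul_eq_mul]
    field_simp
    ring
  have hqP : c + sg q.2 • v q.1 ∈ P := by
    have : c + sg q.2 • v q.1 ∈ P.extremePoints ℝ := by
      rw [← hr]
      exact ⟨q, rfl⟩
    exact extremePoints_subset this
  rw [hval]
  constructor
  · intro hq
    have h := ((hmem _).1 ((hW q).1 hq)).2
    rw [h, div_self hpos.ne']
  · intro hq
    have h : l (c + sg q.2 • v q.1) < l x0 := by
      refine lt_of_le_of_ne (hM _ hqP) fun h => hq ((hW q).2 ((hmem _).2 ⟨hqP, h⟩))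
    rw [div_lt_one hpos]
    linarith

lemma GB_vectorSpan (hP : IsPolytope P) {F : Set (Fin d → ℝ)} (hF : IsExposed ℝ P F)
    (hne : F.Nonempty) : vectorSpan ℝ F = vectorSpan ℝ (F ∩ P.extremePoints ℝ) := by
  have h1 := face_hull hP hF hne
  have h2 : affineSpan ℝ F = affineSpan ℝ (F ∩ P.extremePoints ℝ) := by
    conv_lhs => rw [← h1]
    exact affineSpan_convexHull _
  rw [← direction_affineSpan, h2, direction_affineSpan]

theorem edge_two (hP : IsPolytope P) {F : Set (Fin d → ℝ)} (hF : IsExposed ℝ P F)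
    (hne : F.Nonempty) (hdim : Module.finrank ℝ (vectorSpan ℝ F) = 1) :
    (F ∩ P.extremePoints ℝ).ncard = 2 := by
  set A := F ∩ P.extremePoints ℝ with hA
  have hfin : A.Finite := (ext_finite hP).subset Set.inter_subset_right
  have hspan : vectorSpan ℝ F = vectorSpan ℝ A := GB_vectorSpan hP hF hne
  have hhull : convexHull ℝ A = F := face_hull hP hF hne
  apply le_antisymm
  · by_contra hcon
    push Not at hcon
    obtain ⟨x, y, z, hx, hy, hz, hxy, hxz, hyz⟩ : ∃ x y z, x ∈ A ∧ y ∈ A ∧ z ∈ A ∧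
        x ≠ y ∧ x ≠ z ∧ y ≠ z := (Set.two_lt_ncard_iff hfin).1 hcon
    have hcol : Collinear ℝ ({x, y, z} : Set (Fin d → ℝ)) := by
      have h : Collinear ℝ F := by
        rw [collinear_iff_finrank_le_one, hdim]
      refine h.subset ?_
      rintro w (rfl | rfl | rfl)
      · exact hx.1
      · exact hy.1
      · exact hz.1
    have hcontr : ∀ a b c : Fin d → ℝ, a ∈ A → b ∈ A → c ∈ A → a ≠ b → b ≠ c → Wbtw ℝ a b c →
        False := by
      intro a b c ha hb hc' hab hbc h
      have hs : Sbtw ℝ a b c := ⟨h, hab.symm, hbc⟩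
      have ho : b ∈ openSegment ℝ a c := by
        rw [openSegment_eq_image_lineMap]
        obtain ⟨t, ht, rfl⟩ := h
        refine ⟨t, ⟨lt_of_le_of_ne ht.1 ?_, lt_of_le_of_ne ht.2 ?_⟩, rfl⟩
        · rintro rfl
          simp at hab
        · rintro rfl
          simp at hbc
      have := (mem_extremePoints.1 hb.2).2 a (extremePoints_subset ha.2) c
        (extremePoints_subset hc'.2) ho
      exact hab this.1
    rcases hcol.wbtw_or_wbtw_or_wbtw with h | h | h
    · exact hcontr x y z hx hy hz hxy hyz h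
    · exact hcontr y z x hy hz hx hyz hxz.symm h
    · exact hcontr z x y hz hx hy hxz.symm hxy h
  · by_contra hcon
    push Not at hcon
    have h1 : A.ncard ≤ 1 := by omega
    have h2 : A.Subsingleton := by
      haveI := hfin.to_subtype
      exact Set.ncard_le_one_iff_subsingleton.1 h1
    rw [hspan, vectorSpan_of_subsingleton ℝ h2] at hdim
    simp at hdim

theorem simplex_card (hP : IsPolytope P) {F : Set (Fin d → ℝ)} (hF : IsExposed ℝ P F)
    (hne : F.Nonempty) {s : Finset (Fin d → ℝ)}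
    (hs : AffineIndependent ℝ ((↑) : s → (Fin d → ℝ)))
    (hFs : F = convexHull ℝ (s : Set (Fin d → ℝ))) :
    (F ∩ P.extremePoints ℝ).ncard = Module.finrank ℝ (vectorSpan ℝ F) + 1 := by
  set A := F ∩ P.extremePoints ℝ with hA
  have hfin : A.Finite := (ext_finite hP).subset Set.inter_subset_right
  have hspan : vectorSpan ℝ F = vectorSpan ℝ A := GB_vectorSpan hP hF hne
  have hAs : A ⊆ (s : Set (Fin d → ℝ)) := by
    rw [hA, ← GB_ext_eq hP hF, hFs]
    exact extremePoints_convexHull_subset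
  have hAne : A.Nonempty := by
    rw [Set.nonempty_iff_ne_empty]
    intro h
    have := face_hull hP hF hne
    rw [← hA, h, convexHull_empty] at this
    exact hne.ne_empty this.symm
  have hind : AffineIndependent ℝ ((↑) : A → (Fin d → ℝ)) := hs.mono hAs
  haveI : Fintype A := hfin.fintype
  have hcard : Fintype.card A = A.ncard := by
    rw [Set.ncard_eq_toFinset_card', Set.toFinset_card]
  have hpos : 0 < A.ncard := (Set.ncard_pos hfin).2 hAne
  have h := hind.finrank_vectorSpan (n := A.ncard - 1) (by rw [hcard]; omega)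
  rw [Subtype.range_coe] at h
  rw [hspan, h]
  omega

end Pool.Agent.Lib.MP_a3b162_co
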