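import Pool.Agent.Lib.MP_a3b162_co.Core

/-!
MODULE LA (30 min).  Two points of the same cluster.

With `κ = 1/(1+a^2 b^2)` and
`φ x = κ (x 0 + 2ab(a+b) x 1 + 2(a+b) x 2 + (1 - a^2 - 4ab - b^2) x 3)` one has the identity
`φ (cA t) = 1 - κ (t-a)^2 (t-b)^2`, and for `|a|,|b|,|t| ≤ 1/10`:
`|φ (cB t)| ≤ 1/1000 + 4/10^5 + 4/10 + 106/1000 < 1`.  `r = 1/10`.  The second theorem is the same with
the coordinates exchanged `(0,1,2,3) ↦ (2,3,0,1)`, which exchanges `cA t` and `cB t`.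
-/

set_option autoImplicit false

namespace Pool.Agent.Lib.MP_a3b162_co

/-- first cluster curve -/
def cA (t : ℝ) : Fin 4 → ℝ := ![1 - t ^ 2 - t ^ 4, t, t ^ 3, t ^ 2]

/-- second cluster curve -/
def cB (t : ℝ) : Fin 4 → ℝ := ![t ^ 3, t ^ 2, 1 - t ^ 2 - t ^ 4, t]

/-- the polynomial bounds behind both statements -/
theorem LA_key (a b t : ℝ) (ha : |a| ≤ 1 / 10) (hb : |b| ≤ 1 / 10) (ht : |t| ≤ 1 / 10) :
    (1 + a ^ 2 * b ^ 2)⁻¹ * ((1 - t ^ 2 - t ^ 4) + 2 * a * b * (a + b) * t + 2 * (a + b) * t ^ 3 +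
        (1 - a ^ 2 - 4 * a * b - b ^ 2) * t ^ 2) =
      1 - (1 + a ^ 2 * b ^ 2)⁻¹ * ((t - a) ^ 2 * (t - b) ^ 2) ∧
    (t ≠ a → t ≠ b → |1 - (1 + a ^ 2 * b ^ 2)⁻¹ * ((t - a) ^ 2 * (t - b) ^ 2)| < 1) ∧
    |(1 + a ^ 2 * b ^ 2)⁻¹ * (t ^ 3 + 2 * a * b * (a + b) * t ^ 2 + 2 * (a + b) * (1 - t ^ 2 - t ^ 4) +
        (1 - a ^ 2 - 4 * a * b - b ^ 2) * t)| < 1 := by
  have hpos : 0 < 1 + a ^ 2 * b ^ 2 := by positivity
  have hk0 : 0 < (1 + a ^ 2 * b ^ 2)⁻¹ := inv_pos.2 hpos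
  have hk1 : (1 + a ^ 2 * b ^ 2)⁻¹ ≤ 1 := inv_le_one_of_one_le₀ (by nlinarith [mul_nonneg (sq_nonneg a) (sq_nonneg b)])
  obtain ⟨ha1, ha2⟩ := abs_le.1 ha
  obtain ⟨hb1, hb2⟩ := abs_le.1 hb
  obtain ⟨ht1, ht2⟩ := abs_le.1 ht
  refine ⟨?_, ?_, ?_⟩
  · field_simp
    ring
  · intro h1 h2
    have e1 : 0 < (t - a) ^ 2 := by
      have : t - a ≠ 0 := sub_ne_zero.2 h1
      positivity
    have e2 : 0 < (t - b) ^ 2 := by
      have : t - b ≠ 0 := sub_ne_zero.2 h2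
      positivity
    have e3 : (t - a) ^ 2 ≤ 1 := by nlinarith
    have e4 : (t - b) ^ 2 ≤ 1 := by nlinarith
    have e5 : (t - a) ^ 2 * (t - b) ^ 2 ≤ 1 := by nlinarith
    have e6 : 0 < (1 + a ^ 2 * b ^ 2)⁻¹ * ((t - a) ^ 2 * (t - b) ^ 2) := by positivity
    have e7 : (1 + a ^ 2 * b ^ 2)⁻¹ * ((t - a) ^ 2 * (t - b) ^ 2) ≤ 1 * 1 :=
      mul_le_mul hk1 e5 (by positivity) (by norm_num)
    rw [abs_lt]
    constructor <;> linarith
  · rw [abs_mul, abs_of_pos hk0]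
    have e1 : |t ^ 3 + 2 * a * b * (a + b) * t ^ 2 + 2 * (a + b) * (1 - t ^ 2 - t ^ 4) +
        (1 - a ^ 2 - 4 * a * b - b ^ 2) * t| < 1 := by
      have m1 : |t ^ 3| ≤ 1 / 1000 := by
        rw [abs_pow]
        calc |t| ^ 3 ≤ (1 / 10) ^ 3 := pow_le_pow_left₀ (abs_nonneg _) ht 3
          _ = 1 / 1000 := by norm_num
      have hab : |a + b| ≤ 2 / 10 := by
        have := abs_add_le a b
        linarith
      have hmab : |a * b| ≤ 1 / 100 := by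
        rw [abs_mul]
        calc |a| * |b| ≤ (1 / 10) * (1 / 10) := mul_le_mul ha hb (abs_nonneg _) (by norm_num)
          _ = 1 / 100 := by norm_num
      have ht2' : |t ^ 2| ≤ 1 / 100 := by
        rw [abs_pow]
        calc |t| ^ 2 ≤ (1 / 10) ^ 2 := pow_le_pow_left₀ (abs_nonneg _) ht 2
          _ = 1 / 100 := by norm_num
      have m2 : |2 * a * b * (a + b) * t ^ 2| ≤ 1 / 1000 := by
        have : 2 * a * b * (a + b) * t ^ 2 = 2 * ((a * b) * ((a + b) * t ^ 2)) := by ring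
        rw [this, abs_mul, abs_mul (a * b), abs_mul (a + b)]
        have q1 : |a + b| * |t ^ 2| ≤ (2 / 10) * (1 / 100) := mul_le_mul hab ht2' (abs_nonneg _) (by norm_num)
        have q2 : |a * b| * (|a + b| * |t ^ 2|) ≤ (1 / 100) * ((2 / 10) * (1 / 100)) :=
          mul_le_mul hmab q1 (by positivity) (by norm_num)
        rw [abs_of_pos (by norm_num : (0 : ℝ) < 2)]
        linarith
      have m3 : |2 * (a + b) * (1 - t ^ 2 - t ^ 4)| ≤ 4 / 10 := by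
        rw [abs_mul, abs_mul, abs_of_pos (by norm_num : (0 : ℝ) < 2)]
        have q1 : |1 - t ^ 2 - t ^ 4| ≤ 1 := by
          rw [abs_le]
          have : t ^ 2 ≤ 1 / 100 := by nlinarith
          have : t ^ 4 ≤ 1 / 100 := by nlinarith [sq_nonneg t]
          constructor <;> nlinarith [sq_nonneg t, sq_nonneg (t ^ 2)]
        calc 2 * |a + b| * |1 - t ^ 2 - t ^ 4| ≤ 2 * (2 / 10) * 1 := by
              apply mul_le_mul _ q1 (abs_nonneg _) (by norm_num)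
              linarith
          _ = 4 / 10 := by norm_num
      have m4 : |(1 - a ^ 2 - 4 * a * b - b ^ 2) * t| ≤ 2 / 10 := by
        rw [abs_mul]
        have q1 : |1 - a ^ 2 - 4 * a * b - b ^ 2| ≤ 2 := by
          obtain ⟨h1, h2⟩ := abs_le.1 hmab
          rw [abs_le]
          constructor <;> nlinarith [sq_nonneg a, sq_nonneg b]
        calc |1 - a ^ 2 - 4 * a * b - b ^ 2| * |t| ≤ 2 * (1 / 10) :=
              mul_le_mul q1 ht (abs_nonneg _) (by norm_num)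
          _ = 2 / 10 := by norm_num
      have t1 := abs_add_le (t ^ 3 + 2 * a * b * (a + b) * t ^ 2 + 2 * (a + b) * (1 - t ^ 2 - t ^ 4))
        ((1 - a ^ 2 - 4 * a * b - b ^ 2) * t)
      have t2 := abs_add_le (t ^ 3 + 2 * a * b * (a + b) * t ^ 2) (2 * (a + b) * (1 - t ^ 2 - t ^ 4))
      have t3 := abs_add_le (t ^ 3) (2 * a * b * (a + b) * t ^ 2)
      linarith
    calc (1 + a ^ 2 * b ^ 2)⁻¹ * |t ^ 3 + 2 * a * b * (a + b) * t ^ 2 + 2 * (a + b) * (1 - t ^ 2 - t ^ 4) +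
        (1 - a ^ 2 - 4 * a * b - b ^ 2) * t| ≤ 1 * |t ^ 3 + 2 * a * b * (a + b) * t ^ 2 +
          2 * (a + b) * (1 - t ^ 2 - t ^ 4) + (1 - a ^ 2 - 4 * a * b - b ^ 2) * t| :=
          mul_le_mul_of_nonneg_right hk1 (abs_nonneg _)
      _ < 1 := by rw [one_mul]; exact e1

/-- a linear form by its coefficients -/
noncomputable def LA_lin (p q r s : ℝ) : (Fin 4 → ℝ) →ₗ[ℝ] ℝ :=
  p • LinearMap.proj 0 + q • LinearMap.proj 1 + r • LinearMap.proj 2 + s • LinearMap.proj 3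

theorem LA_lin_apply (p q r s x0 x1 x2 x3 : ℝ) :
    LA_lin p q r s ![x0, x1, x2, x3] = p * x0 + q * x1 + r * x2 + s * x3 := by
  simp [LA_lin]

theorem sameA (a b : ℝ) (ha : |a| ≤ 1 / 10) (hb : |b| ≤ 1 / 10) :
    ∃ φ : (Fin 4 → ℝ) →ₗ[ℝ] ℝ, φ (cA a) = 1 ∧ φ (cA b) = 1 ∧
      (∀ t, |t| ≤ 1 / 10 → t ≠ a → t ≠ b → |φ (cA t)| < 1) ∧
      (∀ t, |t| ≤ 1 / 10 → |φ (cB t)| < 1) := by
  have eA : ∀ t, |t| ≤ 1 / 10 → (1 + a ^ 2 * b ^ 2)⁻¹ • LA_lin 1 (2 * a * b * (a + b)) (2 * (a + b))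
      (1 - a ^ 2 - 4 * a * b - b ^ 2) (cA t) = 1 - (1 + a ^ 2 * b ^ 2)⁻¹ * ((t - a) ^ 2 * (t - b) ^ 2) := by
    intro t ht
    rw [← (LA_key a b t ha hb ht).1, cA, LA_lin_apply, smul_eq_mul]
    ring
  refine ⟨(1 + a ^ 2 * b ^ 2)⁻¹ • LA_lin 1 (2 * a * b * (a + b)) (2 * (a + b))
      (1 - a ^ 2 - 4 * a * b - b ^ 2), ?_, ?_, ?_, ?_⟩
  · rw [LinearMap.smul_apply, eA a ha]; ring
  · rw [LinearMap.smul_apply, eA b hb]; ring
  · intro t ht h1 h2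
    rw [LinearMap.smul_apply, eA t ht]
    exact (LA_key a b t ha hb ht).2.1 h1 h2
  · intro t ht
    rw [LinearMap.smul_apply, cB, LA_lin_apply, smul_eq_mul]
    have := (LA_key a b t ha hb ht).2.2
    convert this using 3
    ring

theorem sameB (a b : ℝ) (ha : |a| ≤ 1 / 10) (hb : |b| ≤ 1 / 10) :
    ∃ φ : (Fin 4 → ℝ) →ₗ[ℝ] ℝ, φ (cB a) = 1 ∧ φ (cB b) = 1 ∧
      (∀ t, |t| ≤ 1 / 10 → t ≠ a → t ≠ b → |φ (cB t)| < 1) ∧
      (∀ t, |t| ≤ 1 / 10 → |φ (cA t)| < 1) := by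
  have eB : ∀ t, |t| ≤ 1 / 10 → (1 + a ^ 2 * b ^ 2)⁻¹ • LA_lin (2 * (a + b))
      (1 - a ^ 2 - 4 * a * b - b ^ 2) 1 (2 * a * b * (a + b)) (cB t) =
        1 - (1 + a ^ 2 * b ^ 2)⁻¹ * ((t - a) ^ 2 * (t - b) ^ 2) := by
    intro t ht
    rw [← (LA_key a b t ha hb ht).1, cB, LA_lin_apply, smul_eq_mul]
    ring
  refine ⟨(1 + a ^ 2 * b ^ 2)⁻¹ • LA_lin (2 * (a + b))
      (1 - a ^ 2 - 4 * a * b - b ^ 2) 1 (2 * a * b * (a + b)), ?_, ?_, ?_, ?_⟩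
  · rw [LinearMap.smul_apply, eB a ha]; ring
  · rw [LinearMap.smul_apply, eB b hb]; ring
  · intro t ht h1 h2
    rw [LinearMap.smul_apply, eB t ht]
    exact (LA_key a b t ha hb ht).2.1 h1 h2
  · intro t ht
    rw [LinearMap.smul_apply, cA, LA_lin_apply, smul_eq_mul]
    have := (LA_key a b t ha hb ht).2.2
    convert this using 3
    ring

end Pool.Agent.Lib.MP_a3b162_co
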