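import Pool.Agent.Lib.MP_a3b162_co.LA

/-!
MODULE LB (60 min).  Points of different clusters, both signs.

PROOF.  Look for `φ x = α x 0 + β x 1 + γ x 2 + δ x 3` with the four linear equations (`σ = sg s`)
  `gA a = 1, gA' a = 0, gB b = σ, gB' b = 0`, where
  `gA t = φ (cA t) = α (1 - t^2 - t^4) + β t + γ t^3 + δ t^2`,
  `gB t = φ (cB t) = α t^3 + β t^2 + γ (1 - t^2 - t^4) + δ t`.
The matrix `M(a,b)` of the system is the identity at `a = b = 0`, so for small `a, b` the solution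
exists (`(det M)⁻¹ • adjugate M *ᵥ rhs`, continuous in `(a,b)`) and
`|α - 1|, |β|, |γ - σ|, |δ| ≤ 1/10` for `|a|, |b| ≤ r` (`Continuous.matrix_det`,
`Continuous.matrix_adjugate`, `Metric.continuousAt_iff`; two values of `σ`, take the smaller `r`);
also `r ≤ 1/10`.
Since `gA t - 1` is a quartic polynomial with a double root at `a`:
  `gA t = 1 - (t-a)^2 (α t^2 + u t + w)`, `u = 2aα - γ`, `w = α - δ - 2aγ + 3a^2 α`
(this is a polynomial identity modulo the equations `gA a = 1`, `gA' a = 0`; prove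
`gA t - gA a - gA' a (t-a) = -(t-a)^2 (α t^2 + u t + w)` by `ring`).  As `|u| ≤ 2`, `w ≥ 1/2`,
`|t| ≤ 1/10`: the factor is positive, so `gA t < 1` for `t ≠ a`; `gA t > -1` clearly (`gA t ≥ 1/2`).
Same for `gB` with `σ` (`σ gB t`).
-/

set_option autoImplicit false

namespace Pool.Agent.Lib.MP_a3b162_co

theorem lb_mul {x y X Y : ℝ} (hx : |x| ≤ X) (hy : |y| ≤ Y) : |x * y| ≤ X * Y := by
  rw [abs_mul]
  exact mul_le_mul hx hy (abs_nonneg y) ((abs_nonneg x).trans hx)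

theorem lb_add {x y X Y : ℝ} (hx : |x| ≤ X) (hy : |y| ≤ Y) : |x + y| ≤ X + Y :=
  (abs_add_le x y).trans (add_le_add hx hy)

theorem lb_sub {x y X Y : ℝ} (hx : |x| ≤ X) (hy : |y| ≤ Y) : |x - y| ≤ X + Y :=
  (abs_sub x y).trans (add_le_add hx hy)

theorem lb_con {x X : ℝ} (c : ℝ) (hc : 0 ≤ c) (hx : |x| ≤ X) : |c * x| ≤ c * X := by
  rw [abs_mul, abs_of_nonneg hc]
  exact mul_le_mul_of_nonneg_left hx hc

theorem lb_pow {x X : ℝ} (hx : |x| ≤ X) (n : ℕ) : |x ^ n| ≤ X ^ n := by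
  rw [abs_pow]
  exact pow_le_pow_left₀ (abs_nonneg x) hx n

/-- the linear system -/
theorem lb_solve (a b σ : ℝ) (ha : |a| ≤ 1 / 100) (hb : |b| ≤ 1 / 100) (hσ : σ = 1 ∨ σ = -1) :
    ∃ α β γ δ : ℝ,
      α * (1 - a ^ 2 - a ^ 4) + β * a + γ * a ^ 3 + δ * a ^ 2 = 1 ∧
      α * (-2 * a - 4 * a ^ 3) + β + 3 * γ * a ^ 2 + 2 * δ * a = 0 ∧
      α * b ^ 3 + β * b ^ 2 + γ * (1 - b ^ 2 - b ^ 4) + δ * b = σ ∧
      3 * α * b ^ 2 + 2 * β * b + γ * (-2 * b - 4 * b ^ 3) + δ = 0 ∧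
      |α - 1| ≤ 1 / 10 ∧ |β| ≤ 1 / 10 ∧ |γ - σ| ≤ 1 / 10 ∧ |δ| ≤ 1 / 10 := by
  have hσa : |σ| ≤ 1 := by rcases hσ with rfl | rfl <;> simp
  have hab : |a * b| ≤ 1 / 10000 := (lb_mul ha hb).trans (by norm_num)
  have hab' := abs_le.1 hab
  have hd : 0 < 1 - 4 * (a * b) := by linarith [hab'.2]
  obtain ⟨e, he⟩ : ∃ e, e = 1 / (1 - 4 * (a * b)) := ⟨_, rfl⟩
  have he1 : e * (1 - 4 * a * b) = 1 := by
    have h0 : 1 - 4 * (a * b) ≠ 0 := hd.ne'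
    rw [he, mul_assoc 4 a b, one_div, inv_mul_cancel₀ h0]
  have hea : |e| ≤ 11 / 10 := by
    rw [he, abs_of_pos (by positivity), div_le_iff₀ hd]
    linarith [hab'.2]
  have a2 := lb_pow ha 2
  have a3 := lb_pow ha 3
  have a4 := lb_pow ha 4
  have b2 := lb_pow hb 2
  have b3 := lb_pow hb 3
  have b4 := lb_pow hb 4
  obtain ⟨A, hA⟩ : ∃ A, A = a ^ 2 + 3 * a ^ 4 + e * a ^ 2 * (3 * b ^ 2 + 4 * (a * b) +
    8 * (a ^ 3 * b)) := ⟨_, rfl⟩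
  obtain ⟨B, hB⟩ : ∃ B, B = 2 * a ^ 3 + e * a ^ 2 * (2 * b + 4 * b ^ 3 + 6 * (a ^ 2 * b)) :=
    ⟨_, rfl⟩
  obtain ⟨A', hA'⟩ : ∃ A', A' = b ^ 2 + 3 * b ^ 4 + e * b ^ 2 * (3 * a ^ 2 + 4 * (a * b) +
    8 * (a * b ^ 3)) := ⟨_, rfl⟩
  obtain ⟨B', hB'⟩ : ∃ B', B' = 2 * b ^ 3 + e * b ^ 2 * (2 * a + 4 * a ^ 3 + 6 * (a * b ^ 2)) :=
    ⟨_, rfl⟩
  have hAb : |A| ≤ 1 / 1000 := by
    rw [hA]
    exact (lb_add (lb_add a2 (lb_con 3 (by norm_num) a4)) (lb_mul (lb_mul hea a2)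
      (lb_add (lb_add (lb_con 3 (by norm_num) b2) (lb_con 4 (by norm_num) hab))
        (lb_con 8 (by norm_num) (lb_mul a3 hb))))).trans (by norm_num)
  have hBb : |B| ≤ 1 / 1000 := by
    rw [hB]
    exact (lb_add (lb_con 2 (by norm_num) a3) (lb_mul (lb_mul hea a2)
      (lb_add (lb_add (lb_con 2 (by norm_num) hb) (lb_con 4 (by norm_num) b3))
        (lb_con 6 (by norm_num) (lb_mul a2 hb))))).trans (by norm_num)
  have hAb' : |A'| ≤ 1 / 1000 := by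
    rw [hA']
    exact (lb_add (lb_add b2 (lb_con 3 (by norm_num) b4)) (lb_mul (lb_mul hea b2)
      (lb_add (lb_add (lb_con 3 (by norm_num) a2) (lb_con 4 (by norm_num) hab))
        (lb_con 8 (by norm_num) (lb_mul ha b3))))).trans (by norm_num)
  have hBb' : |B'| ≤ 1 / 1000 := by
    rw [hB']
    exact (lb_add (lb_con 2 (by norm_num) b3) (lb_mul (lb_mul hea b2)
      (lb_add (lb_add (lb_con 2 (by norm_num) ha) (lb_con 4 (by norm_num) a3))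
        (lb_con 6 (by norm_num) (lb_mul ha b2))))).trans (by norm_num)
  obtain ⟨D, hD⟩ : ∃ D, D = (1 + A) * (1 + A') - B * B' := ⟨_, rfl⟩
  have hDb : |D - 1| ≤ 1 / 100 := by
    have h1 : D - 1 = A + A' + A * A' - B * B' := by rw [hD]; ring
    rw [h1]
    exact (lb_sub (lb_add (lb_add hAb hAb') (lb_mul hAb hAb')) (lb_mul hBb hBb')).trans
      (by norm_num)
  have hDb' := abs_le.1 hDb
  have hD0 : 0 < D := by linarith [hDb'.1]
  -- solution of the two by two system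
  obtain ⟨α, hα⟩ : ∃ α, α = ((1 + A') + σ * B) / D := ⟨_, rfl⟩
  obtain ⟨γ, hγ⟩ : ∃ γ, γ = (σ * (1 + A) + B') / D := ⟨_, rfl⟩
  have E1 : (1 + A) * α - B * γ = 1 := by
    rw [hα, hγ, eq_comm, ← sub_eq_zero]
    field_simp
    rw [hD]; ring
  have E2 : (1 + A') * γ - B' * α = σ := by
    rw [hα, hγ, eq_comm, ← sub_eq_zero]
    field_simp
    rw [hD]; ring
  have hαb : |α - 1| ≤ 1 / 50 := by
    have h1 : α - 1 = (A' + σ * B - (D - 1)) / D := by rw [hα]; field_simp; ring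
    rw [h1, abs_div, abs_of_pos hD0, div_le_iff₀ hD0]
    refine (lb_sub (lb_add hAb' (lb_mul hσa hBb)) hDb).trans ?_
    linarith [hDb'.1]
  have hγb : |γ - σ| ≤ 1 / 50 := by
    have h1 : γ - σ = (σ * A + B' - σ * (D - 1)) / D := by rw [hγ]; field_simp; ring
    rw [h1, abs_div, abs_of_pos hD0, div_le_iff₀ hD0]
    refine (lb_sub (lb_add (lb_mul hσa hAb) hBb') (lb_mul hσa hDb)).trans ?_
    linarith [hDb'.1]
  have hαa : |α| ≤ 2 := by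
    have h1 : α = (α - 1) + 1 := by ring
    rw [h1]
    exact (lb_add hαb (abs_one.le)).trans (by norm_num)
  have hγa : |γ| ≤ 2 := by
    have h1 : γ = (γ - σ) + σ := by ring
    rw [h1]
    exact (lb_add hγb hσa).trans (by norm_num)
  obtain ⟨P, hP⟩ : ∃ P, P = α * (2 * a + 4 * a ^ 3) - 3 * (γ * a ^ 2) := ⟨_, rfl⟩
  obtain ⟨Q, hQ⟩ : ∃ Q, Q = γ * (2 * b + 4 * b ^ 3) - 3 * (α * b ^ 2) := ⟨_, rfl⟩
  have hPb : |P| ≤ 1 / 20 := by
    rw [hP]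
    exact (lb_sub (lb_mul hαa (lb_add (lb_con 2 (by norm_num) ha) (lb_con 4 (by norm_num) a3)))
      (lb_con 3 (by norm_num) (lb_mul hγa a2))).trans (by norm_num)
  have hQb : |Q| ≤ 1 / 20 := by
    rw [hQ]
    exact (lb_sub (lb_mul hγa (lb_add (lb_con 2 (by norm_num) hb) (lb_con 4 (by norm_num) b3)))
      (lb_con 3 (by norm_num) (lb_mul hαa b2))).trans (by norm_num)
  refine ⟨α, e * (P - 2 * (a * Q)), γ, e * (Q - 2 * (b * P)), ?_, ?_, ?_, ?_,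
    hαb.trans (by norm_num), ?_, hγb.trans (by norm_num), ?_⟩
  · rw [hA, hB] at E1
    rw [hP, hQ]
    linear_combination E1 + (α * (2 * a + 4 * a ^ 3) - 3 * (γ * a ^ 2)) * a * he1
  · rw [hP, hQ]
    linear_combination (α * (2 * a + 4 * a ^ 3) - 3 * (γ * a ^ 2)) * he1
  · rw [hA', hB'] at E2
    rw [hP, hQ]
    linear_combination E2 + (γ * (2 * b + 4 * b ^ 3) - 3 * (α * b ^ 2)) * b * he1
  · rw [hP, hQ]
    linear_combination (γ * (2 * b + 4 * b ^ 3) - 3 * (α * b ^ 2)) * he1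
  · exact (lb_mul hea (lb_sub hPb (lb_con 2 (by norm_num) (lb_mul ha hQb)))).trans (by norm_num)
  · exact (lb_mul hea (lb_sub hQb (lb_con 2 (by norm_num) (lb_mul hb hPb)))).trans (by norm_num)

/-- the inequality for one quartic polynomial -/
theorem lb_quart {a t α β γ δ σ τ : ℝ} (ha : |a| ≤ 1 / 100) (ht : |t| ≤ 1 / 100) (hta : t ≠ a)
    (hσ : σ = 1 ∨ σ = -1) (hτ : τ = 1 ∨ τ = -1) (h1 : α * (1 - a ^ 2 - a ^ 4) + β * a + γ * a ^ 3 +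
    δ * a ^ 2 = τ) (h2 : α * (-2 * a - 4 * a ^ 3) + β + 3 * γ * a ^ 2 + 2 * δ * a = 0)
    (hα : |α - τ| ≤ 1 / 10) (hγ : |γ - σ| ≤ 1 / 10) (hδ : |δ| ≤ 1 / 10) :
    |α * (1 - t ^ 2 - t ^ 4) + β * t + γ * t ^ 3 + δ * t ^ 2| < 1 := by
  have hττ : τ * τ = 1 := by rcases hτ with rfl | rfl <;> norm_num
  have hτa : |τ| ≤ 1 := by rcases hτ with rfl | rfl <;> simp
  have hσa : |σ| ≤ 1 := by rcases hσ with rfl | rfl <;> simp
  have hγa : |γ| ≤ 11 / 10 := by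
    have h1 : γ = (γ - σ) + σ := by ring
    rw [h1]
    exact (lb_add hγ hσa).trans (by norm_num)
  have hαa : |α| ≤ 11 / 10 := by
    have h1 : α = (α - τ) + τ := by ring
    rw [h1]
    exact (lb_add hα hτa).trans (by norm_num)
  obtain ⟨W, hW⟩ : ∃ W, W = α * t ^ 2 + (2 * (a * α) - γ) * t + ((α - τ) - δ - 2 * (a * γ) +
    3 * (a ^ 2 * α)) := ⟨_, rfl⟩
  have hWb : |W| ≤ 1 / 2 := by
    rw [hW]
    exact (lb_add (lb_add (lb_mul hαa (lb_pow ht 2)) (lb_mul (lb_sub (lb_con 2 (by norm_num)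
      (lb_mul ha hαa)) hγa) ht)) (lb_add (lb_sub (lb_sub hα hδ) (lb_con 2 (by norm_num)
      (lb_mul ha hγa))) (lb_con 3 (by norm_num) (lb_mul (lb_pow ha 2) hαa)))).trans (by norm_num)
  have key : α * (1 - t ^ 2 - t ^ 4) + β * t + γ * t ^ 3 + δ * t ^ 2 =
      τ - (t - a) ^ 2 * (τ + W) := by
    rw [hW]
    linear_combination h1 + (t - a) * h2
  have hτW : |τ * W| ≤ 1 / 2 := (lb_mul hτa hWb).trans (by norm_num)
  have hτW' := abs_le.1 hτW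
  have hs : |t - a| ≤ 2 / 100 := (lb_sub ht ha).trans (by norm_num)
  have hs2 : (t - a) ^ 2 ≤ 1 / 1000 := by
    have := lb_pow hs 2
    rw [abs_of_nonneg (sq_nonneg _)] at this
    exact this.trans (by norm_num)
  have hs0 : 0 < (t - a) ^ 2 := by
    have : t - a ≠ 0 := sub_ne_zero.2 hta
    positivity
  have e1 : |α * (1 - t ^ 2 - t ^ 4) + β * t + γ * t ^ 3 + δ * t ^ 2| =
      |1 - (t - a) ^ 2 * (1 + τ * W)| := by
    have h3 : 1 - (t - a) ^ 2 * (1 + τ * W) = τ * (τ - (t - a) ^ 2 * (τ + W)) := by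
      linear_combination (-1 + (t - a) ^ 2) * hττ
    rw [h3, key, abs_mul]
    rcases hτ with rfl | rfl <;> simp
  rw [e1, abs_lt]
  constructor
  · nlinarith
  · nlinarith

theorem cross : ∃ r : ℝ, 0 < r ∧ r ≤ 1 / 10 ∧ ∀ a b : ℝ, |a| ≤ r → |b| ≤ r → ∀ s : Bool,
    ∃ φ : (Fin 4 → ℝ) →ₗ[ℝ] ℝ, φ (cA a) = 1 ∧ φ (cB b) = sg s ∧
      (∀ t, |t| ≤ r → t ≠ a → |φ (cA t)| < 1) ∧
      (∀ t, |t| ≤ r → t ≠ b → |φ (cB t)| < 1) := by
  refine ⟨1 / 100, by norm_num, by norm_num, ?_⟩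
  intro a b ha hb s
  have hσ : sg s = 1 ∨ sg s = -1 := by cases s <;> simp
  obtain ⟨α, β, γ, δ, h1, h2, h3, h4, bα, bβ, bγ, bδ⟩ := lb_solve a b (sg s) ha hb hσ
  let φ : (Fin 4 → ℝ) →ₗ[ℝ] ℝ := α • LinearMap.proj 0 + β • LinearMap.proj 1 +
    γ • LinearMap.proj 2 + δ • LinearMap.proj 3
  have hφ : ∀ x, φ x = α * x 0 + β * x 1 + γ * x 2 + δ * x 3 := fun x => rfl
  have hcA : ∀ t, φ (cA t) = α * (1 - t ^ 2 - t ^ 4) + β * t + γ * t ^ 3 + δ * t ^ 2 := fun t => by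
    rw [hφ]; rfl
  have hcB : ∀ t, φ (cB t) = γ * (1 - t ^ 2 - t ^ 4) + δ * t + α * t ^ 3 + β * t ^ 2 := fun t => by
    rw [hφ]
    show α * t ^ 3 + β * t ^ 2 + γ * (1 - t ^ 2 - t ^ 4) + δ * t = _
    ring
  refine ⟨φ, ?_, ?_, ?_, ?_⟩
  · rw [hcA]; exact h1
  · rw [hcB]; linear_combination h3
  · intro t ht hta
    rw [hcA]
    exact lb_quart (σ := sg s) (τ := 1) ha ht hta hσ (Or.inl rfl) h1 h2 bα bγ bδ
  · intro t ht htb
    rw [hcB]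
    exact lb_quart (σ := 1) (τ := sg s) hb ht htb (Or.inl rfl) hσ (by linear_combination h3)
      (by linear_combination h4) bγ bα bβ

end Pool.Agent.Lib.MP_a3b162_co
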