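import Pool.Agent.Lib.MP_a3b162_co.LB

/-!
MODULE LC (20 min).  `v i = cA (r i / (n+1))` for even `i`, `cB (r i / (n+1))` for odd `i`
(`r` from `cross`).  The parameters are different.  Same parity: `sameA`/`sameB`; different parity:
`cross` (if `i` is odd and `j` even: `φ` for the pair `(j, i)` and the sign `s`, multiplied by
`sg s`).
-/

set_option autoImplicit false

namespace Pool.Agent.Lib.MP_a3b162_co

theorem clusters (n : ℕ) : ∃ v : Fin n → (Fin 4 → ℝ), ∀ i j : Fin n, i ≠ j →
    Pres v i j true ∧ (i.val % 2 ≠ j.val % 2 → Pres v i j false) := by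
  obtain ⟨r, hr, hr10, hcross⟩ := cross
  set τ : Fin n → ℝ := fun i => r * (i.val : ℝ) / ((n : ℝ) + 1) with hτ
  have hn0 : (0 : ℝ) < (n : ℝ) + 1 := by positivity
  have hτr : ∀ i, |τ i| ≤ r := by
    intro i
    have h0 : 0 ≤ τ i := by simp only [hτ]; positivity
    rw [abs_of_nonneg h0]
    simp only [hτ]
    rw [div_le_iff₀ hn0]
    have h1 : (i.val : ℝ) ≤ (n : ℝ) := by exact_mod_cast i.isLt.le
    nlinarith
  have hτ10 : ∀ i, |τ i| ≤ 1 / 10 := fun i => (hτr i).trans hr10
  have hinj : ∀ i j, i ≠ j → τ i ≠ τ j := by
    intro i j hij h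
    apply hij
    simp only [hτ] at h
    have h1 : r * (i.val : ℝ) = r * (j.val : ℝ) := by
      rw [div_left_inj' hn0.ne'] at h
      exact h
    have h2 : (i.val : ℝ) = (j.val : ℝ) := mul_left_cancel₀ hr.ne' h1
    exact Fin.ext (by exact_mod_cast h2)
  refine ⟨fun i => if i.val % 2 = 0 then cA (τ i) else cB (τ i), ?_⟩
  have key : ∀ i j : Fin n, i ≠ j → ∀ s : Bool, (i.val % 2 ≠ j.val % 2 ∨ s = true) →
      Pres (fun i : Fin n => if i.val % 2 = 0 then cA (τ i) else cB (τ i)) i j s := by
    intro i j hij s hs
    by_cases hi : i.val % 2 = 0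
    · by_cases hj : j.val % 2 = 0
      · have hs' : s = true := by
          rcases hs with h | h
          · exact absurd (hi.trans hj.symm) h
          · exact h
        subst hs'
        obtain ⟨φ, h1, h2, h3, h4⟩ := sameA (τ i) (τ j) (hτ10 i) (hτ10 j)
        refine ⟨φ, by simpa [hi] using h1, by simpa [hj] using h2, ?_⟩
        intro k hki hkj
        by_cases hk : k.val % 2 = 0
        · simp only [hk, if_true]
          exact h3 _ (hτ10 k) (hinj k i hki) (hinj k j hkj)
        · simp only [hk, if_false]
          exact h4 _ (hτ10 k)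
      · obtain ⟨φ, h1, h2, h3, h4⟩ := hcross (τ i) (τ j) (hτr i) (hτr j) s
        refine ⟨φ, by simpa [hi] using h1, by simpa [hj] using h2, ?_⟩
        intro k hki hkj
        by_cases hk : k.val % 2 = 0
        · simp only [hk, if_true]
          exact h3 _ (hτr k) (hinj k i hki)
        · simp only [hk, if_false]
          exact h4 _ (hτr k) (hinj k j hkj)
    · by_cases hj : j.val % 2 = 0
      · obtain ⟨φ, h1, h2, h3, h4⟩ := hcross (τ j) (τ i) (hτr j) (hτr i) s
        refine ⟨sg s • φ, ?_, ?_, ?_⟩
        · simp only [hi, if_false, LinearMap.smul_apply, smul_eq_mul, h2]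
          exact sg_mul_self s
        · simp only [hj, if_true, LinearMap.smul_apply, smul_eq_mul, h1, mul_one]
        · intro k hki hkj
          simp only [LinearMap.smul_apply, smul_eq_mul, abs_mul, abs_sg, one_mul]
          by_cases hk : k.val % 2 = 0
          · simp only [hk, if_true]
            exact h3 _ (hτr k) (hinj k j hkj)
          · simp only [hk, if_false]
            exact h4 _ (hτr k) (hinj k i hki)
      · have hs' : s = true := by
          rcases hs with h | h
          · exact absurd (by omega) h
          · exact h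
        subst hs'
        obtain ⟨φ, h1, h2, h3, h4⟩ := sameB (τ i) (τ j) (hτ10 i) (hτ10 j)
        refine ⟨φ, by simpa [hi] using h1, by simpa [hj] using h2, ?_⟩
        intro k hki hkj
        by_cases hk : k.val % 2 = 0
        · simp only [hk, if_true]
          exact h4 _ (hτ10 k)
        · simp only [hk, if_false]
          exact h3 _ (hτ10 k) (hinj k i hki) (hinj k j hkj)
  intro i j hij
  exact ⟨key i j hij true (Or.inr rfl), fun h => key i j hij false (Or.inl h)⟩

end Pool.Agent.Lib.MP_a3b162_co
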