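import Pool.Agent.Lib.MP_a3b162_co.Core

/-!
MODULE LE (60 min).  Generic perturbation in `ℝ^4`.

PROOF by induction on `n` (last point, `Fin.lastCases`/`Fin.snoc`).  Given generic `v' : Fin n → ℝ^4`,
choose `x` with `‖x - v (last)‖ < δ` outside the finitely many proper affine subspaces
`affineSpan ℝ (range g)`, where `g : Fin 4 → ℝ^4` runs over the maps with values in the finite set
`{0} ∪ {± v' i}`: the affine span of 4 points has dimension at most 3, so it is proper, hence a null
set (`MeasureTheory.Measure.addHaar_affineSubspace`), a finite union of null sets does not cover a ball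
(`Metric.ball` has positive measure).  Then
 * linear independence of at most 4 vectors: with `x` among them, the others (at most 3) are linearly
   independent by induction and `x` is not in their span (span of 3 vectors `= affineSpan` of them and
   `0`);
 * the second clause: a set `I` with 5 elements and `φ (v' i) = sg (σ i)` on `I` (a larger `I`
   contains one with 5 elements): if the last index is in `I`, the other four `v' i` are linearly
   independent, so `sg (σ i) • v' i` are affinely independent points of the hyperplane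
   `φ = 1`, which has dimension 3, so their affine span is the hyperplane and contains
   `sg (σ last) • x`; multiply by `sg (σ last)`: `x` lies in the affine span of
   `sg (σ last) * sg (σ i) • v' i`: excluded.
-/

set_option autoImplicit false

namespace Pool.Agent.Lib.MP_a3b162_co

/-- general position of the points `± v i` in `ℝ^4` -/
def Generic {n : ℕ} (v : Fin n → (Fin 4 → ℝ)) : Prop :=
  (∀ I : Finset (Fin n), I.card ≤ 4 → LinearIndependent ℝ (fun i : I => v i)) ∧
  (∀ (I : Finset (Fin n)) (σ : Fin n → Bool) (φ : (Fin 4 → ℝ) →ₗ[ℝ] ℝ),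
    (∀ i ∈ I, φ (v i) = sg (σ i)) → I.card ≤ 4)

/-- finitely many nonzero polynomials have a common nonzero near every point -/
theorem LE_avoid {K τ : Type} [Fintype K] (p : K → MvPolynomial τ ℝ) (hp : ∀ k, p k ≠ 0)
    (y : τ → ℝ) (δ : ℝ) (hδ : 0 < δ) :
    ∃ x : τ → ℝ, (∀ t, |x t - y t| < δ) ∧ ∀ k, MvPolynomial.eval x (p k) ≠ 0 := by
  by_contra hcon
  push Not at hcon
  have hprod : (∏ k, p k) = 0 := by
    apply MvPolynomial.funext_set (fun t => Set.Ioo (y t - δ) (y t + δ))
    · intro t
      exact Set.Ioo_infinite (by linarith)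
    · intro x hx
      have hx2 : ∀ t, |x t - y t| < δ := by
        intro t
        have h1 := hx t (Set.mem_univ t)
        rw [abs_lt]
        exact ⟨by linarith [h1.1], by linarith [h1.2]⟩
      obtain ⟨k, hk⟩ := hcon x hx2
      rw [map_prod, map_zero]
      exact Finset.prod_eq_zero (Finset.mem_univ k) hk
  rw [Finset.prod_eq_zero_iff] at hprod
  obtain ⟨k, _, hk⟩ := hprod
  exact hp k hk

/-- the matrix of the first `m` coordinates of `m` points -/
def LE_M1 {R : Type} {n m : ℕ} (hm : m ≤ 4) (g : Fin m → Fin n) (x : Fin n × Fin 4 → R) :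
    Matrix (Fin m) (Fin m) R :=
  Matrix.of fun a b => x (g a, Fin.castLE hm b)

/-- the matrix of five points with a last column `s` -/
def LE_M2 {R : Type} {n : ℕ} (g : Fin 5 → Fin n) (s : Fin 5 → R) (x : Fin n × Fin 4 → R) :
    Matrix (Fin 5) (Fin 5) R :=
  Matrix.of fun a b => if h : b.val < 4 then x (g a, ⟨b.val, h⟩) else s a

theorem LE_eval1 {n m : ℕ} (hm : m ≤ 4) (g : Fin m → Fin n) (x : Fin n × Fin 4 → ℝ) :
    MvPolynomial.eval x (LE_M1 hm g (fun t => (MvPolynomial.X t : MvPolynomial _ ℝ))).det =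
      (LE_M1 hm g x).det := by
  rw [RingHom.map_det]
  congr 1
  ext a b
  simp [LE_M1]

theorem LE_eval2 {n : ℕ} (g : Fin 5 → Fin n) (s : Fin 5 → ℝ) (x : Fin n × Fin 4 → ℝ) :
    MvPolynomial.eval x (LE_M2 g (fun a => MvPolynomial.C (s a))
      (fun t => (MvPolynomial.X t : MvPolynomial _ ℝ))).det = (LE_M2 g s x).det := by
  rw [RingHom.map_det]
  congr 1
  ext a b
  simp only [LE_M2, RingHom.mapMatrix_apply, Matrix.map_apply, Matrix.of_apply]
  split_ifs <;> simp

theorem LE_ne1 {n m : ℕ} (hm : m ≤ 4) (g : Fin m ↪ Fin n) :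
    (LE_M1 hm g (fun t => (MvPolynomial.X t : MvPolynomial (Fin n × Fin 4) ℝ))).det ≠ 0 := by
  intro h0
  have h1 := LE_eval1 hm g (fun t => if ∃ a : Fin m, g a = t.1 ∧ Fin.castLE hm a = t.2 then 1 else 0)
  rw [h0, map_zero] at h1
  have h2 : LE_M1 hm g (fun t => if ∃ a : Fin m, g a = t.1 ∧ Fin.castLE hm a = t.2
      then (1 : ℝ) else 0) = 1 := by
    ext a b
    simp only [LE_M1, Matrix.of_apply, Matrix.one_apply]
    congr 1
    apply propext
    constructor
    · rintro ⟨a', h3, h4⟩
      have h5 := g.injective h3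
      have h6 := Fin.castLE_injective hm h4
      rw [← h5, ← h6]
    · rintro rfl
      exact ⟨a, rfl, rfl⟩
  rw [h2, Matrix.det_one] at h1
  exact one_ne_zero h1.symm

theorem LE_ne2 {n : ℕ} (g : Fin 5 ↪ Fin n) (s : Fin 5 → ℝ) (hs : s 4 ≠ 0) :
    (LE_M2 g (fun a => MvPolynomial.C (s a))
      (fun t => (MvPolynomial.X t : MvPolynomial (Fin n × Fin 4) ℝ))).det ≠ 0 := by
  intro h0
  have h1 := LE_eval2 g s (fun t => if g t.2.castSucc = t.1 then 1 else 0)
  rw [h0, map_zero] at h1
  have hent : ∀ a b : Fin 5, (LE_M2 g s (fun t => if g t.2.castSucc = t.1 then 1 else 0)) a b =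
      if b.val < 4 then (if b = a then 1 else 0) else s a := by
    intro a b
    simp only [LE_M2, Matrix.of_apply]
    by_cases hb : b.val < 4
    · rw [dif_pos hb, if_pos hb]
      congr 1
      apply propext
      constructor
      · intro h3
        have h4 := g.injective h3
        rw [← h4]
        rfl
      · rintro rfl
        rfl
    · rw [dif_neg hb, if_neg hb]
  have hup : (LE_M2 g s (fun t => if g t.2.castSucc = t.1 then 1 else 0)).BlockTriangular id := by
    intro a b hab
    have hab' : b < a := hab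
    rw [hent]
    have hb : b.val < 4 := by
      have h5 : b.val < a.val := hab'
      have h6 := a.isLt
      omega
    rw [if_pos hb, if_neg (ne_of_lt hab')]
  rw [Matrix.det_of_isUpperTriangular hup] at h1
  rw [Fin.prod_univ_castSucc] at h1
  have h7 : ∀ a : Fin 4, (LE_M2 g s (fun t => if g t.2.castSucc = t.1 then 1 else 0))
      a.castSucc a.castSucc = 1 := by
    intro a
    have h8 : a.castSucc.val < 4 := a.isLt
    rw [hent, if_pos h8, if_pos rfl]
  rw [Finset.prod_congr rfl (fun a _ => h7 a)] at h1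
  rw [hent] at h1
  simp only [Finset.prod_const_one, one_mul] at h1
  exact hs h1.symm

theorem generic (n : ℕ) (v : Fin n → (Fin 4 → ℝ)) (δ : ℝ) (hδ : 0 < δ) :
    ∃ v' : Fin n → (Fin 4 → ℝ), (∀ i, ‖v' i - v i‖ < δ) ∧ Generic v' := by
  classical
  let p : ((m : Fin 5) × (Fin m.val ↪ Fin n)) ⊕ ((Fin 5 ↪ Fin n) × (Fin 5 → Bool)) →
      MvPolynomial (Fin n × Fin 4) ℝ := fun k =>
    match k with
    | Sum.inl q => (LE_M1 (Nat.lt_succ_iff.1 q.1.isLt) q.2 (fun t => MvPolynomial.X t)).det
    | Sum.inr q => (LE_M2 q.1 (fun a => MvPolynomial.C (sg (q.2 a)))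
        (fun t => MvPolynomial.X t)).det
  have hp : ∀ k, p k ≠ 0 := by
    rintro (q | q)
    · exact LE_ne1 _ q.2
    · apply LE_ne2
      intro h0
      have := abs_sg (q.2 4)
      rw [h0] at this
      simp at this
  obtain ⟨x, hx1, hx2⟩ := LE_avoid p hp (fun t => v t.1 t.2) δ hδ
  refine ⟨fun i c => x (i, c), ?_, ?_, ?_⟩
  · intro i
    rw [pi_norm_lt_iff hδ]
    intro c
    rw [Real.norm_eq_abs]
    exact hx1 (i, c)
  · intro I hI
    have hli : LinearIndependent ℝ (fun a : Fin I.card => (fun c => x (I.orderEmbOfFin rfl a, c) :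
        Fin 4 → ℝ)) := by
      apply LinearIndependent.of_comp (LinearMap.funLeft ℝ ℝ (Fin.castLE hI))
      have hdet := hx2 (Sum.inl ⟨⟨I.card, Nat.lt_succ_iff.2 hI⟩, (I.orderEmbOfFin rfl).toEmbedding⟩)
      have h3 : (LE_M1 hI (I.orderEmbOfFin rfl) x).det ≠ 0 := by
        rw [← LE_eval1]
        exact hdet
      have h4 := Matrix.linearIndependent_rows_of_det_ne_zero h3
      exact h4
    exact (linearIndependent_equiv (R := ℝ) (I.orderIsoOfFin rfl).toEquiv
      (f := fun i : I => (fun c => x (i, c) : Fin 4 → ℝ))).1 hli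
  · intro I σ φ hφ
    by_contra hcard
    obtain ⟨J, hJ, hJc⟩ := Finset.exists_subset_card_eq (show 5 ≤ I.card by omega)
    let g : Fin 5 ↪ Fin n := (J.orderEmbOfFin hJc).toEmbedding
    have hg : ∀ a, g a ∈ I := fun a => hJ (Finset.orderEmbOfFin_mem J hJc a)
    have hdet := hx2 (Sum.inr (g, fun a => σ (g a)))
    have h3 : (LE_M2 g (fun a => sg (σ (g a))) x).det ≠ 0 := by
      rw [← LE_eval2]
      exact hdet
    apply h3
    rw [← Matrix.exists_mulVec_eq_zero_iff]
    refine ⟨fun b => if h : b.val < 4 then φ (Pi.single ⟨b.val, h⟩ 1) else -1, ?_, ?_⟩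
    · intro h0
      have := congrFun h0 4
      simp at this
    · funext a
      have h6 := hφ (g a) (hg a)
      have h7 : φ (fun c => x (g a, c)) = ∑ c : Fin 4, x (g a, c) * φ (Pi.single c 1) := by
        have h8 : (fun c => x (g a, c)) = ∑ c : Fin 4, x (g a, c) • (Pi.single c (1 : ℝ) :
            Fin 4 → ℝ) := by
          funext c
          simp [Finset.sum_apply, Pi.single_apply]
        conv_lhs => rw [h8]
        rw [map_sum]
        simp only [map_smul, smul_eq_mul]
      rw [h7] at h6
      simp only [Matrix.mulVec, dotProduct, LE_M2, Matrix.of_apply, Pi.zero_apply]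
      rw [Fin.sum_univ_castSucc]
      have h9 : ∀ c : Fin 4, (c.castSucc : Fin 5).val < 4 := fun c => c.isLt
      simp only [Fin.val_castSucc, Fin.is_lt, dite_true, Fin.eta, Fin.val_last, lt_irrefl, dite_false]
      rw [h6]
      ring

end Pool.Agent.Lib.MP_a3b162_co
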