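import Pool.Agent.Lib.MP_a3b162_co.LE
import Pool.Agent.Lib.MP_a3b162_co.GB

/-!
MODULE LF (60 min).  The polytope of a generic family: polytope, centrally symmetric, vertices.

PROOF.  `vert v q = sg q.2 • v q.1`, `PP v = convexHull ℝ (range (vert v))`.
* `pp_polytope` (`4 ≤ n`): finite; the affine span contains the four linearly independent vectors
  `v 0, …, v 3` and `0` (the midpoint of `v 0` and `- v 0`), so it is everything.
* `pp_cs`: `c = 0`, `convexHull (-S) = - convexHull S`.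
* `vert_inj`: `v i`, `v j` are linearly independent for `i ≠ j`, and `v i ≠ 0`.
* `ext_pp`: `⊆`: `extremePoints_convexHull_subset`.  `⊇`: given the point `vert v (i,b)`, take
  `j ≠ i`, `φ` from `Pres v i j true`: `F = {x ∈ PP v | φ x = 1}` is the segment `[v i, v j]` (the
  vertices with `φ = 1` are `v i`, `v j`), an exposed, hence extreme subset, and `v i` is an extreme
  point of the segment.  (`b = false`: by symmetry, use `-φ`.)
-/

set_option autoImplicit false

namespace Pool.Agent.Lib.MP_a3b162_co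

/-- the signed vertices -/
def vert {n : ℕ} (v : Fin n → (Fin 4 → ℝ)) (q : Fin n × Bool) : Fin 4 → ℝ := sg q.2 • v q.1

/-- the polytope -/
def PP {n : ℕ} (v : Fin n → (Fin 4 → ℝ)) : Set (Fin 4 → ℝ) := convexHull ℝ (Set.range (vert v))

theorem lf_ne {n : ℕ} {v : Fin n → (Fin 4 → ℝ)} (hv : Generic v) (i : Fin n) : v i ≠ 0 := by
  have h1 := hv.1 {i} (by simp)
  exact h1.ne_zero ⟨i, Finset.mem_singleton_self i⟩

theorem lf_pair {n : ℕ} {v : Fin n → (Fin 4 → ℝ)} (hv : Generic v) {i j : Fin n} (hij : i ≠ j)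
    {a b : ℝ} (h : a • v i + b • v j = 0) : a = 0 ∧ b = 0 := by
  have h1 := hv.1 {i, j} (by
    have := Finset.card_le_two (a := i) (b := j)
    omega)
  rw [Fintype.linearIndependent_iff] at h1
  have h2 := h1 (fun k => if (k : Fin n) = i then a else b) (by
    rw [Finset.sum_coe_sort ({i, j} : Finset (Fin n))
      (fun k => (if k = i then a else b) • v k), Finset.sum_pair hij]
    simp only [if_true, if_neg hij.symm]
    exact h)
  have h3 := h2 ⟨i, by simp⟩
  have h4 := h2 ⟨j, by simp⟩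
  simp only [if_true, if_neg hij.symm] at h3 h4
  exact ⟨h3, h4⟩

/-- the face of a finite hull where a functional is maximal -/
theorem lf_face {E : Type*} [AddCommGroup E] [Module ℝ E] (S : Set E) (hS : S.Finite)
    (φ : E →ₗ[ℝ] ℝ) (M : ℝ) (h : ∀ y ∈ S, φ y ≤ M) {x : E} (hx : x ∈ convexHull ℝ S)
    (hφ : φ x = M) : x ∈ convexHull ℝ {y | y ∈ S ∧ φ y = M} := by
  classical
  have hx2 : x ∈ convexHull ℝ ((hS.toFinset : Finset E) : Set E) := by
    rw [hS.coe_toFinset]; exact hx
  rw [Finset.mem_convexHull'] at hx2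
  obtain ⟨w, hw0, hw1, hw2⟩ := hx2
  have e1 : ∑ y ∈ hS.toFinset, w y * (M - φ y) = 0 := by
    have e2 : ∑ y ∈ hS.toFinset, w y * φ y = M := by
      rw [← hφ, ← hw2, map_sum]
      refine Finset.sum_congr rfl fun y _ => ?_
      rw [map_smul, smul_eq_mul]
    have e3 : ∑ y ∈ hS.toFinset, w y * (M - φ y) =
        (∑ y ∈ hS.toFinset, w y) * M - ∑ y ∈ hS.toFinset, w y * φ y := by
      rw [Finset.sum_mul, ← Finset.sum_sub_distrib]
      refine Finset.sum_congr rfl fun y _ => ?_
      ring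
    rw [e3, e2, hw1]
    ring
  have e4 : ∀ y ∈ hS.toFinset, w y * (M - φ y) = 0 := by
    refine (Finset.sum_eq_zero_iff_of_nonneg ?_).1 e1
    intro y hy
    exact mul_nonneg (hw0 y hy) (by linarith [h y (hS.mem_toFinset.1 hy)])
  have e5 : {y | y ∈ S ∧ φ y = M} = ((hS.toFinset.filter (fun y => φ y = M) : Finset E) : Set E) := by
    ext y
    simp
  rw [e5, Finset.mem_convexHull']
  have e6 : ∀ y ∈ hS.toFinset, φ y ≠ M → w y = 0 := by
    intro y hy hne
    rcases mul_eq_zero.1 (e4 y hy) with h1 | h1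
    · exact h1
    · exact absurd (by linarith) hne
  refine ⟨w, fun y hy => hw0 y (Finset.mem_filter.1 hy).1, ?_, ?_⟩
  · rw [← hw1]
    refine Finset.sum_subset (Finset.filter_subset _ _) ?_
    intro y hy hny
    exact e6 y hy (fun h1 => hny (Finset.mem_filter.2 ⟨hy, h1⟩))
  · rw [← hw2]
    refine Finset.sum_subset (Finset.filter_subset _ _) ?_
    intro y hy hny
    rw [e6 y hy (fun h1 => hny (Finset.mem_filter.2 ⟨hy, h1⟩)), zero_smul]

theorem pp_polytope {n : ℕ} (hn : 4 ≤ n) {v : Fin n → (Fin 4 → ℝ)} (hv : Generic v) :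
    IsPolytope (PP v) := by
  refine ⟨⟨Set.range (vert v), Set.finite_range _, rfl⟩, ?_⟩
  unfold PP
  rw [affineSpan_convexHull]
  have hne : (Set.range (vert v)).Nonempty := ⟨_, ⟨(⟨0, by omega⟩, true), rfl⟩⟩
  rw [AffineSubspace.affineSpan_eq_top_iff_vectorSpan_eq_top_of_nonempty ℝ _ _ hne]
  have h1 : ∀ i, v i ∈ vectorSpan ℝ (Set.range (vert v)) := by
    intro i
    have h2 : vert v (i, true) -ᵥ vert v (i, false) ∈ vectorSpan ℝ (Set.range (vert v)) :=
      vsub_mem_vectorSpan ℝ ⟨_, rfl⟩ ⟨_, rfl⟩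
    have h3 : vert v (i, true) -ᵥ vert v (i, false) = (2 : ℝ) • v i := by
      simp only [vert, vsub_eq_sub, sg_true, sg_false]
      module
    rw [h3] at h2
    have h4 := Submodule.smul_mem _ (1 / 2 : ℝ) h2
    rw [smul_smul] at h4
    norm_num at h4
    exact h4
  have h2 := hv.1 (Finset.univ.map (Fin.castLEEmb hn)) (by simp)
  have h3 := h2.span_eq_top_of_card_eq_finrank' (by
    rw [Fintype.card_coe, Finset.card_map]
    simp)
  rw [eq_top_iff, ← h3, Submodule.span_le]
  rintro _ ⟨i, rfl⟩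
  exact h1 _

theorem pp_cs {n : ℕ} (v : Fin n → (Fin 4 → ℝ)) : ∀ x, (0 : Fin 4 → ℝ) + x ∈ PP v →
    (0 : Fin 4 → ℝ) - x ∈ PP v := by
  intro x hx
  rw [zero_add] at hx
  rw [zero_sub]
  have e : -(Set.range (vert v)) = Set.range (vert v) := by
    ext y
    constructor
    · rintro ⟨q, hq⟩
      refine ⟨(q.1, !q.2), ?_⟩
      have h1 : vert v (q.1, !q.2) = - vert v q := by
        simp only [vert, sg_not, neg_smul]
      rw [h1, hq, neg_neg]
    · rintro ⟨q, rfl⟩
      refine ⟨(q.1, !q.2), ?_⟩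
      simp only [vert, sg_not, neg_smul]
  have h2 : -x ∈ -(convexHull ℝ (Set.range (vert v))) := by
    rw [Set.neg_mem_neg]
    exact hx
  rw [← convexHull_neg, e] at h2
  exact h2

theorem vert_inj {n : ℕ} {v : Fin n → (Fin 4 → ℝ)} (hv : Generic v) :
    Function.Injective (vert v) := by
  rintro ⟨i, b⟩ ⟨j, c⟩ h
  simp only [vert] at h
  by_cases hij : i = j
  · subst hij
    have h1 : (sg b - sg c) • v i = 0 := by rw [sub_smul, h, sub_self]
    rcases smul_eq_zero.1 h1 with h2 | h2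
    · have : b = c := by
        cases b <;> cases c <;> first | rfl | (exfalso; norm_num at h2)
      rw [this]
    · exact absurd h2 (lf_ne hv i)
  · have h1 : sg b • v i + (-sg c) • v j = 0 := by rw [h]; module
    have h2 := (lf_pair hv hij h1).1
    cases b <;> norm_num at h2

theorem lf_sg (b c : Bool) : sg b * sg c = 1 ↔ b = c := by
  cases b <;> cases c <;> norm_num

theorem ext_pp {n : ℕ} (hn : 4 ≤ n) {v : Fin n → (Fin 4 → ℝ)} (hv : Generic v)
    (hp : ∀ i j : Fin n, i ≠ j → Pres v i j true) :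
    (PP v).extremePoints ℝ = Set.range (vert v) := by
  apply Set.Subset.antisymm extremePoints_convexHull_subset
  rintro _ ⟨⟨i, b⟩, rfl⟩
  have : Nontrivial (Fin n) := Fin.nontrivial_iff_two_le.2 (by omega)
  obtain ⟨j, hj⟩ := exists_ne i
  obtain ⟨φ, h1, h2, h3⟩ := hp i j hj.symm
  rw [sg_true] at h2
  -- the functional
  set ψ : (Fin 4 → ℝ) →ₗ[ℝ] ℝ := sg b • φ with hψ
  have hle : ∀ q, ψ (vert v q) ≤ 1 ∧ (ψ (vert v q) = 1 → q = (i, b) ∨ q = (j, b)) := by
    rintro ⟨k, c⟩
    have e : ψ (vert v (k, c)) = sg b * sg c * φ (v k) := by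
      simp only [hψ, vert, LinearMap.smul_apply, map_smul, smul_eq_mul]
      ring
    rw [e]
    by_cases hk : k = i
    · subst hk
      rw [h1, mul_one]
      refine ⟨?_, fun h => Or.inl ?_⟩
      · cases b <;> cases c <;> norm_num
      · rw [(lf_sg b c).1 h]
    · by_cases hk2 : k = j
      · subst hk2
        rw [h2, mul_one]
        refine ⟨?_, fun h => Or.inr ?_⟩
        · cases b <;> cases c <;> norm_num
        · rw [(lf_sg b c).1 h]
      · have h4 := h3 k hk hk2
        have h5 : |sg b * sg c * φ (v k)| < 1 := by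
          rw [abs_mul, abs_mul, abs_sg, abs_sg, one_mul, one_mul]
          exact h4
        have h6 := (abs_lt.1 h5).2
        exact ⟨h6.le, fun h => absurd h h6.ne⟩
  have hle2 : ∀ x ∈ PP v, ψ x ≤ 1 := by
    intro x hx
    have hc : Convex ℝ {x | ψ x ≤ 1} := convex_halfSpace_le ψ.isLinear 1
    exact convexHull_min (by rintro _ ⟨q, rfl⟩; exact (hle q).1) hc hx
  have hface : ∀ x ∈ PP v, ψ x = 1 → ∃ a c : ℝ, 0 ≤ a ∧ 0 ≤ c ∧ a + c = 1 ∧
      a • vert v (i, b) + c • vert v (j, b) = x := by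
    intro x hx hx1
    have h4 := lf_face (Set.range (vert v)) (Set.finite_range _) ψ 1
      (by rintro _ ⟨q, rfl⟩; exact (hle q).1) hx hx1
    have h5 : x ∈ convexHull ℝ {vert v (i, b), vert v (j, b)} := by
      refine convexHull_mono ?_ h4
      rintro _ ⟨⟨q, rfl⟩, hq⟩
      rcases (hle q).2 hq with rfl | rfl
      · simp
      · simp
    rw [convexHull_pair] at h5
    obtain ⟨a, c, ha, hc, hac, he⟩ := h5
    exact ⟨a, c, ha, hc, hac, he⟩
  have hmem : vert v (i, b) ∈ PP v := subset_convexHull ℝ _ ⟨_, rfl⟩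
  have hψi : ψ (vert v (i, b)) = 1 := by
    simp only [hψ, vert, LinearMap.smul_apply, map_smul, smul_eq_mul, h1, mul_one]
    exact sg_mul_self b
  rw [mem_extremePoints]
  refine ⟨hmem, ?_⟩
  intro x₁ hx₁ x₂ hx₂ hx
  obtain ⟨a, c, ha, hc, hac, he⟩ := hx
  have g1 := hle2 x₁ hx₁
  have g2 := hle2 x₂ hx₂
  have g3 : a * ψ x₁ + c * ψ x₂ = 1 := by
    rw [← hψi, ← he, map_add, map_smul, map_smul, smul_eq_mul, smul_eq_mul]
  have g4 : ψ x₁ = 1 := by nlinarith
  have g5 : ψ x₂ = 1 := by nlinarith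
  obtain ⟨a₁, c₁, ha₁, hc₁, hac₁, he₁⟩ := hface x₁ hx₁ g4
  obtain ⟨a₂, c₂, ha₂, hc₂, hac₂, he₂⟩ := hface x₂ hx₂ g5
  have g6 : (a * a₁ + c * a₂ - 1) • v i + (a * c₁ + c * c₂) • v j = 0 := by
    have g7 : sg b • ((a * a₁ + c * a₂ - 1) • v i + (a * c₁ + c * c₂) • v j) = 0 := by
      rw [← he₁, ← he₂] at he
      simp only [vert] at he
      have : sg b • ((a * a₁ + c * a₂ - 1) • v i + (a * c₁ + c * c₂) • v j) =
        (a • (a₁ • sg b • v i + c₁ • sg b • v j) + c • (a₂ • sg b • v i + c₂ • sg b • v j)) -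
          sg b • v i := by module
      rw [this, he, sub_self]
    rcases smul_eq_zero.1 g7 with g8 | g8
    · exfalso
      cases b <;> norm_num at g8
    · exact g8
  have g7 := (lf_pair hv hj.symm g6).2
  have g8 : a * c₁ = 0 := by nlinarith [mul_nonneg ha.le hc₁, mul_nonneg hc.le hc₂]
  have g9 : c * c₂ = 0 := by nlinarith [mul_nonneg ha.le hc₁, mul_nonneg hc.le hc₂]
  have g10 : c₁ = 0 := by
    rcases mul_eq_zero.1 g8 with h | h
    · exact absurd h ha.ne'
    · exact h
  have g11 : c₂ = 0 := by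
    rcases mul_eq_zero.1 g9 with h | h
    · exact absurd h hc.ne'
    · exact h
  constructor
  · rw [← he₁, g10, zero_smul, add_zero, show a₁ = 1 by linarith, one_smul]
  · rw [← he₂, g11, zero_smul, add_zero, show a₂ = 1 by linarith, one_smul]

end Pool.Agent.Lib.MP_a3b162_co
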