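import Pool.Agent.Lib.MP_a3b162_co.Core

/-!
The three circuits lemma (module A of MP_a3b162_co).
-/

set_option autoImplicit false

namespace Pool.Agent.Lib.MP_a3b162_co

lemma lemA_abs2 (x y : ℝ) (b : Bool) (hb : b = true ↔ |x| < |y|) :
    2 * |(if b then y else x)| - (|x| + |y|) = |(|x| - |y|)| := by
  cases b with
  | true =>
    have h : |x| < |y| := hb.1 rfl
    simp only [if_true]
    rw [abs_of_neg (by linarith : |x| - |y| < 0)]; ring
  | false =>
    have h : ¬ |x| < |y| := fun h => by simpa using hb.2 h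
    simp only [Bool.false_eq_true, if_false]
    rw [abs_of_nonneg (by linarith [not_lt.1 h] : (0:ℝ) ≤ |x| - |y|)]; ring

/-- (1) the inequality for a dependency -/
lemma lemA_dep {E : Type*} [AddCommGroup E] [Module ℝ E]
    {ι : Type*} [Fintype ι] [DecidableEq ι] (v : ι → E)
    {κ : Type*} [Fintype κ] [DecidableEq κ]
    (p : κ → Bool → ι) (hp : ∀ a b a' b', p a b = p a' b' → a = a' ∧ b = b')
    (j0 : κ) (hfull : ∀ s : κ → Bool, FullS v ((Finset.univ.erase j0).image fun a => p a (s a)))
    (d : κ × Bool → ℝ) (hd : ∑ q, d q • v (p q.1 q.2) = 0) (hd0 : d ≠ 0) :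
    ∑ a ∈ Finset.univ.erase j0, |(|d (a, false)| - |d (a, true)|)| <
      |d (j0, false)| + |d (j0, true)| := by
  classical
  set c : ι → ℝ := fun i => ∑ q : κ × Bool, if p q.1 q.2 = i then d q else 0 with hcdef
  have hcp : ∀ q : κ × Bool, c (p q.1 q.2) = d q := by
    intro q
    rw [hcdef]
    simp only
    rw [Finset.sum_eq_single q]
    · simp
    · intro q' _ hq'
      rw [if_neg]
      intro h
      exact hq' (Prod.ext (hp _ _ _ _ h).1 (hp _ _ _ _ h).2)
    · simp
  have hcsum : ∀ g : ι → ℝ → ℝ, (∀ i, g i 0 = 0) →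
      ∑ i, g i (c i) = ∑ q : κ × Bool, g (p q.1 q.2) (d q) := by
    intro g hg
    have hinj : Function.Injective (fun q : κ × Bool => p q.1 q.2) := fun q q' h =>
      Prod.ext (hp _ _ _ _ h).1 (hp _ _ _ _ h).2
    have h1 : ∑ q : κ × Bool, g (p q.1 q.2) (d q) =
        ∑ i ∈ Finset.univ.image (fun q : κ × Bool => p q.1 q.2), g i (c i) := by
      rw [Finset.sum_image (fun a _ b _ h => hinj h)]
      exact Finset.sum_congr rfl fun q _ => by rw [hcp q]
    rw [h1]
    symm
    apply Finset.sum_subset (Finset.subset_univ _)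
    intro i _ hi
    have : c i = 0 := by
      rw [hcdef]
      simp only
      apply Finset.sum_eq_zero
      intro q _
      rw [if_neg]
      intro h
      exact hi (Finset.mem_image.2 ⟨q, Finset.mem_univ _, h⟩)
    rw [this, hg]
  have hc1 : ∑ i, c i • v i = 0 := by
    have hinj : Function.Injective (fun q : κ × Bool => p q.1 q.2) := fun q q' h =>
      Prod.ext (hp _ _ _ _ h).1 (hp _ _ _ _ h).2
    rw [← hd]
    have h1 : ∑ q : κ × Bool, d q • v (p q.1 q.2) =
        ∑ i ∈ Finset.univ.image (fun q : κ × Bool => p q.1 q.2), c i • v i := by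
      rw [Finset.sum_image (fun a _ b _ h => hinj h)]
      exact Finset.sum_congr rfl fun q _ => by rw [hcp q]
    rw [h1]
    symm
    apply Finset.sum_subset (Finset.subset_univ _)
    intro i _ hi
    have : c i = 0 := by
      rw [hcdef]
      simp only
      apply Finset.sum_eq_zero
      intro q _
      rw [if_neg]
      intro h
      exact hi (Finset.mem_image.2 ⟨q, Finset.mem_univ _, h⟩)
    rw [this, zero_smul]
  have hc0 : c ≠ 0 := by
    intro h
    apply hd0
    funext q
    rw [← hcp q, h]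
    rfl
  set s : κ → Bool := fun a => decide (|d (a, false)| < |d (a, true)|) with hsdef
  have key := full_dep (hfull s) hc1 hc0
  set I := (Finset.univ.erase j0).image fun a => p a (s a) with hI
  have hIsum : ∑ i ∈ I, |c i| = ∑ a ∈ Finset.univ.erase j0, |d (a, s a)| := by
    rw [hI, Finset.sum_image]
    · exact Finset.sum_congr rfl fun a _ => by rw [← hcp (a, s a)]
    · intro a _ b _ h
      exact (hp _ _ _ _ h).1
  have htot : ∑ i ∈ I, |c i| + ∑ i ∈ Iᶜ, |c i| = ∑ q : κ × Bool, |d q| := by
    rw [Finset.sum_add_sum_compl]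
    exact hcsum (fun _ x => |x|) (fun _ => abs_zero)
  have htot2 : ∑ q : κ × Bool, |d q| = ∑ a ∈ Finset.univ.erase j0, (|d (a, false)| + |d (a, true)|) +
      (|d (j0, false)| + |d (j0, true)|) := by
    rw [Fintype.sum_prod_type]
    have : ∀ a, ∑ b : Bool, |d (a, b)| = |d (a, false)| + |d (a, true)| := by
      intro a
      rw [Fintype.sum_bool, add_comm]
    simp only [this]
    rw [← Finset.sum_erase_add _ _ (Finset.mem_univ j0)]
  have h2 : ∑ a ∈ Finset.univ.erase j0, |(|d (a, false)| - |d (a, true)|)| =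
      2 * ∑ a ∈ Finset.univ.erase j0, |d (a, s a)| -
        ∑ a ∈ Finset.univ.erase j0, (|d (a, false)| + |d (a, true)|) := by
    rw [Finset.mul_sum, ← Finset.sum_sub_distrib]
    refine Finset.sum_congr rfl fun a _ => ?_
    rw [← lemA_abs2 (d (a, false)) (d (a, true)) (s a) (by simp [hsdef])]
    congr 3
    cases s a <;> simp
  rw [h2]
  rw [hIsum] at key htot
  linarith

lemma lemA_final (α0 α1 α2 t01 t02 t10 t12 t20 t21 : ℝ)
    (h0 : |α0| ≤ |α1| * t01 + |α2| * t02) (h1 : |α1| ≤ |α0| * t10 + |α2| * t12)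
    (h2 : |α2| ≤ |α0| * t20 + |α1| * t21)
    (s0 : t10 + t20 < 1) (s1 : t01 + t21 < 1) (s2 : t02 + t12 < 1)
    (hne : α0 ≠ 0 ∨ α1 ≠ 0 ∨ α2 ≠ 0) : False := by
  have e : |α0| * (1 - (t10 + t20)) + |α1| * (1 - (t01 + t21)) + |α2| * (1 - (t02 + t12)) ≤ 0 := by
    nlinarith
  have p0 : 0 ≤ |α0| * (1 - (t10 + t20)) := mul_nonneg (abs_nonneg _) (by linarith)
  have p1 : 0 ≤ |α1| * (1 - (t01 + t21)) := mul_nonneg (abs_nonneg _) (by linarith)
  have p2 : 0 ≤ |α2| * (1 - (t02 + t12)) := mul_nonneg (abs_nonneg _) (by linarith)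
  rcases hne with h | h | h
  · have : 0 < |α0| * (1 - (t10 + t20)) := mul_pos (abs_pos.2 h) (by linarith)
    linarith
  · have : 0 < |α1| * (1 - (t01 + t21)) := mul_pos (abs_pos.2 h) (by linarith)
    linarith
  · have : 0 < |α2| * (1 - (t02 + t12)) := mul_pos (abs_pos.2 h) (by linarith)
    linarith

theorem lemmaA {k : ℕ} (hk : 2 ≤ k) {E : Type*} [AddCommGroup E] [Module ℝ E]
    [FiniteDimensional ℝ E] (hE : Module.finrank ℝ E = 2 * k)
    {ι : Type*} [Fintype ι] [DecidableEq ι] (v : ι → E)
    {κ : Type*} [Fintype κ] [DecidableEq κ] (hκ : Fintype.card κ = k + 1)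
    (e : Fin 3 → κ) (he : Function.Injective e)
    (p : κ → Bool → ι) (hp : ∀ a b a' b', p a b = p a' b' → a = a' ∧ b = b')
    (hfull : ∀ j : Fin 3, ∀ s : κ → Bool,
      FullS v ((Finset.univ.erase (e j)).image fun a => p a (s a)))
    (hside : ∀ i j : Fin 3, i ≠ j → ∃ φ : E →ₗ[ℝ] ℝ, φ ≠ 0 ∧
      (∀ a, a ≠ e i → a ≠ e j → ∀ b, φ (v (p a b)) = 0) ∧ φ (v (p (e j) false)) = 0 ∧
      SignType.sign (φ (v (p (e i) false))) = SignType.sign (φ (v (p (e i) true)))) :
    False := by
  classical
  -- the dependency map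
  let L : (κ × Bool → ℝ) →ₗ[ℝ] E :=
    { toFun := fun d => ∑ q, d q • v (p q.1 q.2)
      map_add' := by
        intro x y
        simp only [Pi.add_apply, add_smul]
        exact Finset.sum_add_distrib
      map_smul' := by
        intro r x
        simp only [Pi.smul_apply, smul_eq_mul, mul_smul, RingHom.id_apply]
        exact Finset.smul_sum.symm }
  have hL : ∀ d, L d = ∑ q, d q • v (p q.1 q.2) := fun d => rfl
  have hdep : ∀ (j : Fin 3) (d : κ × Bool → ℝ), L d = 0 → d ≠ 0 →
      ∑ a ∈ Finset.univ.erase (e j), |(|d (a, false)| - |d (a, true)|)| <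
        |d (e j, false)| + |d (e j, true)| := fun j d h1 h2 =>
    lemA_dep v p hp (e j) (hfull j) d (by rw [← hL]; exact h1) h2
  have hzero : ∀ (j : Fin 3) (d : κ × Bool → ℝ), L d = 0 → d (e j, false) = 0 →
      d (e j, true) = 0 → d = 0 := by
    intro j d h1 h2 h3
    by_contra h
    have := hdep j d h1 h
    rw [h2, h3, abs_zero, add_zero] at this
    have h4 : 0 ≤ ∑ a ∈ Finset.univ.erase (e j), |(|d (a, false)| - |d (a, true)|)| :=
      Finset.sum_nonneg fun a _ => abs_nonneg _
    linarith
  -- the bijection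
  let Lam : Fin 3 → ((κ × Bool → ℝ) →ₗ[ℝ] (E × ℝ × ℝ)) := fun j =>
    L.prod ((LinearMap.proj (e j, false)).prod (LinearMap.proj (e j, true)))
  have hLam : ∀ j d, Lam j d = (L d, d (e j, false), d (e j, true)) := fun j d => rfl
  have hinj : ∀ j, Function.Injective (Lam j) := by
    intro j
    rw [← LinearMap.ker_eq_bot, LinearMap.ker_eq_bot']
    intro d hd
    rw [hLam] at hd
    simp only [Prod.mk_eq_zero] at hd
    exact hzero j d hd.1 hd.2.1 hd.2.2
  have hrank : Module.finrank ℝ (κ × Bool → ℝ) = Module.finrank ℝ (E × ℝ × ℝ) := by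
    rw [Module.finrank_fintype_fun_eq_card, Fintype.card_prod, Fintype.card_bool, hκ,
      Module.finrank_prod, Module.finrank_prod, hE, Module.finrank_self]
    ring
  have hsurj : ∀ j, Function.Surjective (Lam j) := fun j =>
    (LinearMap.injective_iff_surjective_of_finrank_eq_finrank hrank).1 (hinj j)
  choose c hc using fun j : Fin 3 => hsurj j (0, 1, 0)
  have hcL : ∀ j, L (c j) = 0 := fun j => by
    have := hc j; rw [hLam] at this; exact congrArg Prod.fst this
  have hcf : ∀ j, c j (e j, false) = 1 := fun j => by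
    have := hc j; rw [hLam] at this; exact congrArg (fun x => x.2.1) this
  have hct : ∀ j, c j (e j, true) = 0 := fun j => by
    have := hc j; rw [hLam] at this; exact congrArg (fun x => x.2.2) this
  have hc0 : ∀ j, c j ≠ 0 := fun j h => by
    have := hcf j
    rw [h] at this
    simp at this
  -- (4) opposite signs
  have hopp : ∀ i j : Fin 3, i ≠ j → c j (e i, false) * c j (e i, true) ≤ 0 := by
    intro i j hij
    obtain ⟨φ, hφ0, hφ1, hφ2, hφ3⟩ := hside i j hij
    have hval : ∀ d : κ × Bool → ℝ, d (e j, true) = 0 → φ (L d) =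
        d (e i, false) * φ (v (p (e i) false)) + d (e i, true) * φ (v (p (e i) true)) := by
      intro d hdt
      rw [hL, map_sum]
      simp only [map_smul, smul_eq_mul]
      rw [Fintype.sum_prod_type]
      rw [Finset.sum_eq_single (e i)]
      · rw [Fintype.sum_bool, add_comm]
      · intro a _ ha
        by_cases haj : a = e j
        · rw [Fintype.sum_bool, haj, hdt, hφ2]; simp
        · rw [Fintype.sum_bool, hφ1 a ha haj, hφ1 a ha haj]; simp
      · simp
    have h0 := hval (c j) (hct j)
    rw [hcL j, map_zero] at h0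
    by_cases hz : φ (v (p (e i) false)) = 0
    · -- both vanish
      exfalso
      have hz' : φ (v (p (e i) true)) = 0 := by
        rw [hz, sign_zero] at hφ3
        exact sign_eq_zero_iff.1 hφ3.symm
      obtain ⟨x, hx⟩ : ∃ x, φ x ≠ 0 := by
        by_contra hcon
        push Not at hcon
        exact hφ0 (LinearMap.ext hcon)
      obtain ⟨d, hd⟩ := hsurj j (x, 0, 0)
      rw [hLam] at hd
      have hd1 : L d = x := congrArg Prod.fst hd
      have hd3 : d (e j, true) = 0 := congrArg (fun x => x.2.2) hd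
      have := hval d hd3
      rw [hz, hz', hd1] at this
      simp at this
      exact hx this
    · rcases lt_or_gt_of_ne hz with hneg | hpos
      · have hs : φ (v (p (e i) true)) < 0 := by
          rw [sign_neg hneg] at hφ3
          exact sign_eq_neg_one_iff.1 hφ3.symm
        by_contra hcon
        push Not at hcon
        rcases mul_pos_iff.1 hcon with ⟨h1, h2⟩ | ⟨h1, h2⟩
        · nlinarith [mul_neg_of_pos_of_neg h1 hneg, mul_neg_of_pos_of_neg h2 hs]
        · nlinarith [mul_pos_of_neg_of_neg h1 hneg, mul_pos_of_neg_of_neg h2 hs]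
      · have hs : 0 < φ (v (p (e i) true)) := by
          rw [sign_pos hpos] at hφ3
          exact sign_eq_one_iff.1 hφ3.symm
        by_contra hcon
        push Not at hcon
        rcases mul_pos_iff.1 hcon with ⟨h1, h2⟩ | ⟨h1, h2⟩
        · nlinarith [mul_pos h1 hpos, mul_pos h2 hs]
        · nlinarith [mul_neg_of_neg_of_pos h1 hpos, mul_neg_of_neg_of_pos h2 hs]
  have habs : ∀ x y : ℝ, x * y ≤ 0 → |x + y| = |(|x| - |y|)| := by
    intro x y h
    rcases le_total 0 x with hx | hx <;> rcases le_total 0 y with hy | hy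
    · rcases eq_or_lt_of_le hx with h0 | h0
      · rw [← h0]; simp
      · have : y = 0 := le_antisymm (by nlinarith) hy
        rw [this]; simp
    · rw [abs_of_nonneg hx, abs_of_nonpos hy]; ring_nf
    · rw [abs_of_nonpos hx, abs_of_nonneg hy, ← abs_neg]; ring_nf
    · rcases eq_or_lt_of_le hx with h0 | h0
      · rw [h0]; simp
      · have : y = 0 := le_antisymm hy (by nlinarith)
        rw [this]; simp
  -- (3) relation
  obtain ⟨α, hα0, hα⟩ : ∃ α : Fin 3 → ℝ, α ≠ 0 ∧ ∑ j, α j • c j = 0 := by
    let M : (Fin 3 → ℝ) →ₗ[ℝ] (ℝ × ℝ) :=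
      { toFun := fun a => (∑ j, a j * c j (e 0, false), ∑ j, a j * c j (e 0, true))
        map_add' := by
          intro x y
          simp only [Pi.add_apply, add_mul, Finset.sum_add_distrib, Prod.mk_add_mk]
        map_smul' := by
          intro r x
          simp only [Pi.smul_apply, smul_eq_mul, mul_assoc, RingHom.id_apply, Prod.smul_mk,
            Finset.mul_sum] }
    have hker : LinearMap.ker M ≠ ⊥ := by
      apply LinearMap.ker_ne_bot_of_finrank_lt
      rw [Module.finrank_prod, Module.finrank_self, Module.finrank_fintype_fun_eq_card]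
      simp
    obtain ⟨a, ha, ha0⟩ := (Submodule.ne_bot_iff _).1 hker
    refine ⟨a, ha0, ?_⟩
    have hM : M a = 0 := ha
    have hM1 : ∑ j, a j * c j (e 0, false) = 0 := congrArg Prod.fst hM
    have hM2 : ∑ j, a j * c j (e 0, true) = 0 := congrArg Prod.snd hM
    apply hzero 0
    · rw [map_sum]
      apply Finset.sum_eq_zero
      intro j _
      rw [map_smul, hcL j, smul_zero]
    · simpa [Finset.sum_apply] using hM1
    · simpa [Finset.sum_apply] using hM2
  -- (5) final
  have hrel : ∀ q : κ × Bool, α 0 * c 0 q + α 1 * c 1 q + α 2 * c 2 q = 0 := by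
    intro q
    have := congrFun hα q
    simpa [Finset.sum_apply, Fin.sum_univ_three] using this
  set τ : Fin 3 → Fin 3 → ℝ := fun i j => |c j (e i, false) + c j (e i, true)| with hτ
  have hs : ∀ j i i' : Fin 3, i ≠ j → i' ≠ j → i ≠ i' → τ i j + τ i' j < 1 := by
    intro j i i' h1 h2 h3
    have h4 := hdep j (c j) (hcL j) (hc0 j)
    rw [hcf j, hct j, abs_one, abs_zero, add_zero] at h4
    have h5 : ∑ a ∈ ({e i, e i'} : Finset κ), |(|c j (a, false)| - |c j (a, true)|)| ≤
        ∑ a ∈ Finset.univ.erase (e j), |(|c j (a, false)| - |c j (a, true)|)| := by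
      apply Finset.sum_le_sum_of_subset_of_nonneg
      · intro a ha
        simp only [Finset.mem_insert, Finset.mem_singleton] at ha
        rcases ha with rfl | rfl
        · exact Finset.mem_erase.2 ⟨fun h => h1 (he h), Finset.mem_univ _⟩
        · exact Finset.mem_erase.2 ⟨fun h => h2 (he h), Finset.mem_univ _⟩
      · intro a _ _
        exact abs_nonneg _
    rw [Finset.sum_pair (fun h => h3 (he h))] at h5
    rw [← habs _ _ (hopp i j h1), ← habs _ _ (hopp i' j h2)] at h5
    exact lt_of_le_of_lt h5 h4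
  have hmain : ∀ i j j' : Fin 3, i ≠ j → i ≠ j' → j ≠ j' →
      (α i * (c i (e i, false) + c i (e i, true)) + α j * (c j (e i, false) + c j (e i, true)) +
        α j' * (c j' (e i, false) + c j' (e i, true)) = 0) →
      |α i| ≤ |α j| * τ i j + |α j'| * τ i j' := by
    intro i j j' _ _ _ h
    rw [hcf i, hct i] at h
    have : α i = -(α j * (c j (e i, false) + c j (e i, true)) +
        α j' * (c j' (e i, false) + c j' (e i, true))) := by linarith
    rw [this, abs_neg]
    refine (abs_add_le _ _).trans ?_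
    rw [abs_mul, abs_mul]
  refine lemA_final (α 0) (α 1) (α 2) (τ 0 1) (τ 0 2) (τ 1 0) (τ 1 2) (τ 2 0) (τ 2 1)
    (hmain 0 1 2 (by decide) (by decide) (by decide) ?_)
    (hmain 1 0 2 (by decide) (by decide) (by decide) ?_)
    (hmain 2 0 1 (by decide) (by decide) (by decide) ?_)
    (hs 0 1 2 (by decide) (by decide) (by decide))
    (hs 1 0 2 (by decide) (by decide) (by decide))
    (hs 2 0 1 (by decide) (by decide) (by decide)) ?_
  · have h1 := hrel (e 0, false); have h2 := hrel (e 0, true); linarith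
  · have h1 := hrel (e 1, false); have h2 := hrel (e 1, true); linarith
  · have h1 := hrel (e 2, false); have h2 := hrel (e 2, true); linarith
  · by_contra hcon
    push Not at hcon
    apply hα0
    funext i
    fin_cases i
    · exact hcon.1
    · exact hcon.2.1
    · exact hcon.2.2

end Pool.Agent.Lib.MP_a3b162_co
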