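import Pool.Agent.Lib.MP_a3b162_co.LemA

/-!
MODULE B1.  Large classes contain pairs on the same side of all hyperplanes used.

PROOF.  (a) For at most `2k-1` vectors of `E` there is `φ ≠ 0` vanishing on all of them.
(b) For a finite family `φ : A → (E →ₗ[ℝ] ℝ)` and `3 ^ card A < T` and `g : Fin T → E` there are
`s ≠ s'` with `sign (φ a (g s)) = sign (φ a (g s'))` for all `a`.
Put `T2 = 10`, `T1 = 3^(T2 + T2*T2) + 1`, `T = 3^(T1*(T1*T2) + T2*(T2*T1)) + 1`; the first `T1`
elements of class 1 and the first `T2` elements of class 2 are used.  The other classes `r ≥ 3`: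
`p r false = X r 0`, `p r true = X r 1`.
 class 0: pair `p 0` with the same signs for all `φ` of the planes {x,x' in class 1 (first T1), y in
   class 2 (first T2)} and {x,x' in class 2, y in class 1};
 class 1: pair `p 1` (among the first `T1`) with the same signs for the planes {p 0 false, p 0 true,
   y in class 2} and {x,x' in class 2, p 0 false};
 class 2: pair `p 2` (among the first `T2 = 10 > 3^2`) with the same signs for the two planes
   {p 1 false, p 1 true, p 0 false} and {p 0 false, p 0 true, p 1 false}.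
Then `hside` of `lemmaA` holds with `e = ![0,1,2]`.
-/

set_option autoImplicit false

namespace Pool.Agent.Lib.MP_a3b162_co

/-- a nonzero functional vanishing on `3 + 2 (k - 2)` given vectors -/
lemma pigeon_functional {k : ℕ} (hk : 2 ≤ k) {E : Type*} [AddCommGroup E] [Module ℝ E]
    [FiniteDimensional ℝ E] (hE : Module.finrank ℝ E = 2 * k)
    (u : Fin 3 → E) (w : Fin (k - 2) × Bool → E) :
    ∃ φ : E →ₗ[ℝ] ℝ, φ ≠ 0 ∧ (∀ i, φ (u i) = 0) ∧ ∀ q, φ (w q) = 0 := by
  classical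
  have h1 : (Set.range (Sum.elim u w)).finrank ℝ ≤ Fintype.card (Fin 3 ⊕ (Fin (k - 2) × Bool)) :=
    finrank_range_le_card _
  have h2 : Fintype.card (Fin 3 ⊕ (Fin (k - 2) × Bool)) = 2 * k - 1 := by
    simp only [Fintype.card_sum, Fintype.card_fin, Fintype.card_prod, Fintype.card_bool]
    omega
  have h3 : Submodule.span ℝ (Set.range (Sum.elim u w)) < ⊤ := by
    apply lt_top_iff_ne_top.2
    intro h
    have h4 : Module.finrank ℝ (Submodule.span ℝ (Set.range (Sum.elim u w))) = 2 * k := by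
      rw [h, finrank_top, hE]
    have h5 : (Set.range (Sum.elim u w)).finrank ℝ = 2 * k := h4
    omega
  obtain ⟨φ, hφ, hle⟩ := Submodule.exists_le_ker_of_lt_top _ h3
  refine ⟨φ, hφ, fun i => ?_, fun q => ?_⟩
  · have : u i ∈ LinearMap.ker φ :=
      hle (Submodule.subset_span ⟨Sum.inl i, rfl⟩)
    simpa using this
  · have : w q ∈ LinearMap.ker φ :=
      hle (Submodule.subset_span ⟨Sum.inr q, rfl⟩)
    simpa using this

lemma pigeon_signs {E : Type*} [AddCommGroup E] [Module ℝ E] {A : Type*} [Fintype A] {T : ℕ}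
    (h : 3 ^ Fintype.card A < T) (φ : A → E →ₗ[ℝ] ℝ) (g : Fin T → E) :
    ∃ s s' : Fin T, s ≠ s' ∧
      ∀ a, SignType.sign (φ a (g s)) = SignType.sign (φ a (g s')) := by
  classical
  obtain ⟨s, s', hne, heq⟩ := Fintype.exists_ne_map_eq_of_card_lt
    (fun s : Fin T => (fun a => SignType.sign (φ a (g s)) : A → SignType)) (by
      rw [Fintype.card_fun, Fintype.card_fin]
      have : Fintype.card SignType = 3 := by decide
      rw [this]
      exact h)
  exact ⟨s, s', hne, fun a => congrFun heq a⟩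

open Finset in
theorem noBlowup {k : ℕ} (hk : 2 ≤ k) : ∃ T : ℕ, ∀ (E : Type) [AddCommGroup E] [Module ℝ E]
    [FiniteDimensional ℝ E], Module.finrank ℝ E = 2 * k →
    ∀ (ι : Type) [Fintype ι] [DecidableEq ι] (v : ι → E) (X : Fin (k + 1) → Fin T → ι),
    (∀ a s a' s', X a s = X a' s' → a = a' ∧ s = s') →
    ¬ ∀ j : Fin (k + 1), j.val < 3 → ∀ s : Fin (k + 1) → Fin T,
      FullS v ((Finset.univ.erase j).image fun a => X a (s a)) := by
  classical
  obtain ⟨T1, hT1⟩ : ∃ T1 : ℕ, 3 ^ Fintype.card (Fin 10 ⊕ (Fin 10 × Fin 10)) < T1 :=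
    ⟨_, Nat.lt_succ_self _⟩
  obtain ⟨T, hT, hTb, hTc⟩ : ∃ T : ℕ, 3 ^ Fintype.card ((Fin T1 × Fin T1 × Fin 10) ⊕
      (Fin 10 × Fin 10 × Fin T1)) < T ∧ T1 < T ∧ 10 < T := by
    generalize 3 ^ Fintype.card ((Fin T1 × Fin T1 × Fin 10) ⊕ (Fin 10 × Fin 10 × Fin T1)) = A
    exact ⟨A + T1 + 11, by omega, by omega, by omega⟩
  refine ⟨T, ?_⟩
  intro E _ _ _ hE ι _ _ v X hX hfull
  have hT1T : T1 ≤ T := by omega
  have h10 : 10 ≤ T := by omega
  set c1 : Fin T1 → Fin T := Fin.castLE hT1T with hc1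
  set c2 : Fin 10 → Fin T := Fin.castLE h10 with hc2
  have hc1i : Function.Injective c1 := Fin.castLE_injective hT1T
  have hc2i : Function.Injective c2 := Fin.castLE_injective h10
  set z0 : Fin T := ⟨0, by omega⟩ with hz0
  set z1 : Fin T := ⟨1, by omega⟩ with hz1
  set a0 : Fin (k + 1) := ⟨0, by omega⟩ with ha0
  set a1 : Fin (k + 1) := ⟨1, by omega⟩ with ha1
  set a2 : Fin (k + 1) := ⟨2, by omega⟩ with ha2
  -- the planes
  have hpl : ∀ (m : Fin (k + 1)) (s s' : Fin T) (j : Fin (k + 1)) (t : Fin T),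
      ∃ φ : E →ₗ[ℝ] ℝ, φ ≠ 0 ∧ φ (v (X m s)) = 0 ∧ φ (v (X m s')) = 0 ∧ φ (v (X j t)) = 0 ∧
        ∀ r : Fin (k + 1), 3 ≤ r.val → φ (v (X r z0)) = 0 ∧ φ (v (X r z1)) = 0 := by
    intro m s s' j t
    obtain ⟨φ, h1, h2, h3⟩ := pigeon_functional hk hE
      ![v (X m s), v (X m s'), v (X j t)]
      (fun q => v (X ⟨3 + q.1.val, by have := q.1.isLt; omega⟩ (if q.2 then z1 else z0)))
    refine ⟨φ, h1, by simpa using h2 0, by simpa using h2 1, by simpa using h2 2, ?_⟩
    intro r hr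
    have hr' : (⟨3 + (⟨r.val - 3, by have := r.isLt; omega⟩ : Fin (k - 2)).val,
        by have := r.isLt; simp only; omega⟩ : Fin (k + 1)) = r := by
      apply Fin.ext
      simp only
      omega
    constructor
    · have := h3 (⟨r.val - 3, by have := r.isLt; omega⟩, false)
      simp only [Bool.false_eq_true, if_false] at this
      rwa [hr'] at this
    · have := h3 (⟨r.val - 3, by have := r.isLt; omega⟩, true)
      simp only [if_true] at this
      rwa [hr'] at this
  choose Φ hΦ0 hΦ1 hΦ2 hΦ3 hΦ4 using hpl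
  -- class 0
  obtain ⟨s0, s0', hs0, hsg0⟩ := pigeon_signs (A := (Fin T1 × Fin T1 × Fin 10) ⊕
      (Fin 10 × Fin 10 × Fin T1)) (T := T) hT
      (Sum.elim (fun q => Φ a1 (c1 q.1) (c1 q.2.1) a2 (c2 q.2.2))
        (fun q => Φ a2 (c2 q.1) (c2 q.2.1) a1 (c1 q.2.2))) (fun s => v (X a0 s))
  -- class 1
  obtain ⟨s1, s1', hs1, hsg1⟩ := pigeon_signs (A := Fin 10 ⊕ (Fin 10 × Fin 10)) (T := T1) hT1
      (Sum.elim (fun q => Φ a0 s0 s0' a2 (c2 q))
        (fun q => Φ a2 (c2 q.1) (c2 q.2) a0 s0)) (fun s => v (X a1 (c1 s)))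
  -- class 2
  obtain ⟨s2, s2', hs2, hsg2⟩ := pigeon_signs (A := Bool) (T := 10) (by simp)
      (fun b => if b then Φ a1 (c1 s1) (c1 s1') a0 s0 else Φ a0 s0 s0' a1 (c1 s1))
      (fun s => v (X a2 (c2 s)))
  -- the pairs
  set τ : Fin (k + 1) → Bool → Fin T := fun a b =>
    if a.val = 0 then (if b then s0' else s0) else if a.val = 1 then (if b then c1 s1' else c1 s1)
    else if a.val = 2 then (if b then c2 s2' else c2 s2) else (if b then z1 else z0) with hτ
  have hz01 : z0 ≠ z1 := by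
    intro h
    have := congrArg Fin.val h
    simp [hz0, hz1] at this
  have hτne : ∀ a, τ a false ≠ τ a true := by
    intro a
    by_cases h0 : a.val = 0
    · rw [hτ]
      simp only [if_pos h0, Bool.false_eq_true, if_false, if_true]
      exact hs0
    · by_cases h1 : a.val = 1
      · rw [hτ]
        simp only [if_neg h0, if_pos h1, Bool.false_eq_true, if_false, if_true]
        exact fun h => hs1 (hc1i h)
      · by_cases h2 : a.val = 2
        · rw [hτ]
          simp only [if_neg h0, if_neg h1, if_pos h2, Bool.false_eq_true, if_false, if_true]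
          exact fun h => hs2 (hc2i h)
        · rw [hτ]
          simp only [if_neg h0, if_neg h1, if_neg h2, Bool.false_eq_true, if_false, if_true]
          exact hz01
  have t0f : τ a0 false = s0 := by simp [hτ, ha0]
  have t0t : τ a0 true = s0' := by simp [hτ, ha0]
  have t1f : τ a1 false = c1 s1 := by simp [hτ, ha1]
  have t1t : τ a1 true = c1 s1' := by simp [hτ, ha1]
  have t2f : τ a2 false = c2 s2 := by simp [hτ, ha2]
  have t2t : τ a2 true = c2 s2' := by simp [hτ, ha2]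
  have trf : ∀ r : Fin (k + 1), 3 ≤ r.val → τ r false = z0 := by
    intro r hr
    have h0 : r.val ≠ 0 := by omega
    have h1 : r.val ≠ 1 := by omega
    have h2 : r.val ≠ 2 := by omega
    rw [hτ]
    simp only [if_neg h0, if_neg h1, if_neg h2, Bool.false_eq_true, if_false]
  have trt : ∀ r : Fin (k + 1), 3 ≤ r.val → τ r true = z1 := by
    intro r hr
    have h0 : r.val ≠ 0 := by omega
    have h1 : r.val ≠ 1 := by omega
    have h2 : r.val ≠ 2 := by omega
    rw [hτ]
    simp only [if_neg h0, if_neg h1, if_neg h2, if_true]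
  -- vanishing of planes on the complementary pairs
  have hvan : ∀ (φ : E →ₗ[ℝ] ℝ) (m : Fin (k + 1)) (x y : Fin (k + 1)),
      (∀ a : Fin (k + 1), a ≠ x → a ≠ y → a = m ∨ 3 ≤ a.val) →
      φ (v (X m (τ m false))) = 0 → φ (v (X m (τ m true))) = 0 →
      (∀ r : Fin (k + 1), 3 ≤ r.val → φ (v (X r z0)) = 0 ∧ φ (v (X r z1)) = 0) →
      ∀ a, a ≠ x → a ≠ y → ∀ b, φ (v (X a (τ a b))) = 0 := by
    intro φ m x y hcov h1 h2 h3 a hx hy b
    rcases hcov a hx hy with rfl | h
    · cases b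
      · exact h1
      · exact h2
    · cases b
      · rw [trf a h]; exact (h3 a h).1
      · rw [trt a h]; exact (h3 a h).2
  have hcase : ∀ a : Fin (k + 1), a = a0 ∨ a = a1 ∨ a = a2 ∨ 3 ≤ a.val := by
    intro a
    rcases Nat.lt_or_ge a.val 3 with h | h
    · have : a.val = 0 ∨ a.val = 1 ∨ a.val = 2 := by omega
      rcases this with h | h | h
      · left; exact Fin.ext h
      · right; left; exact Fin.ext h
      · right; right; left; exact Fin.ext h
    · exact Or.inr (Or.inr (Or.inr h))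
  have hside01 : ∃ φ : E →ₗ[ℝ] ℝ, φ ≠ 0 ∧
      (∀ a, a ≠ a0 → a ≠ a1 → ∀ b, φ (v (X a (τ a b))) = 0) ∧ φ (v (X a1 (τ a1 false))) = 0 ∧
      SignType.sign (φ (v (X a0 (τ a0 false)))) = SignType.sign (φ (v (X a0 (τ a0 true)))) := by
    refine ⟨Φ a2 (c2 s2) (c2 s2') a1 (c1 s1), hΦ0 _ _ _ _ _, ?_, ?_, ?_⟩
    · apply hvan _ a2 a0 a1
      · intro a h1 h2
        rcases hcase a with h | h | h | h
        · exact absurd h h1
        · exact absurd h h2
        · exact Or.inl h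
        · exact Or.inr h
      · rw [t2f]; exact hΦ1 _ _ _ _ _
      · rw [t2t]; exact hΦ2 _ _ _ _ _
      · exact hΦ4 _ _ _ _ _
    · rw [t1f]; exact hΦ3 _ _ _ _ _
    · rw [t0f, t0t]; exact hsg0 (Sum.inr (s2, s2', s1))
  have hside02 : ∃ φ : E →ₗ[ℝ] ℝ, φ ≠ 0 ∧
      (∀ a, a ≠ a0 → a ≠ a2 → ∀ b, φ (v (X a (τ a b))) = 0) ∧ φ (v (X a2 (τ a2 false))) = 0 ∧
      SignType.sign (φ (v (X a0 (τ a0 false)))) = SignType.sign (φ (v (X a0 (τ a0 true)))) := by
    refine ⟨Φ a1 (c1 s1) (c1 s1') a2 (c2 s2), hΦ0 _ _ _ _ _, ?_, ?_, ?_⟩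
    · apply hvan _ a1 a0 a2
      · intro a h1 h2
        rcases hcase a with h | h | h | h
        · exact absurd h h1
        · exact Or.inl h
        · exact absurd h h2
        · exact Or.inr h
      · rw [t1f]; exact hΦ1 _ _ _ _ _
      · rw [t1t]; exact hΦ2 _ _ _ _ _
      · exact hΦ4 _ _ _ _ _
    · rw [t2f]; exact hΦ3 _ _ _ _ _
    · rw [t0f, t0t]; exact hsg0 (Sum.inl (s1, s1', s2))
  have hside10 : ∃ φ : E →ₗ[ℝ] ℝ, φ ≠ 0 ∧
      (∀ a, a ≠ a1 → a ≠ a0 → ∀ b, φ (v (X a (τ a b))) = 0) ∧ φ (v (X a0 (τ a0 false))) = 0 ∧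
      SignType.sign (φ (v (X a1 (τ a1 false)))) = SignType.sign (φ (v (X a1 (τ a1 true)))) := by
    refine ⟨Φ a2 (c2 s2) (c2 s2') a0 s0, hΦ0 _ _ _ _ _, ?_, ?_, ?_⟩
    · apply hvan _ a2 a1 a0
      · intro a h1 h2
        rcases hcase a with h | h | h | h
        · exact absurd h h2
        · exact absurd h h1
        · exact Or.inl h
        · exact Or.inr h
      · rw [t2f]; exact hΦ1 _ _ _ _ _
      · rw [t2t]; exact hΦ2 _ _ _ _ _
      · exact hΦ4 _ _ _ _ _
    · rw [t0f]; exact hΦ3 _ _ _ _ _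
    · rw [t1f, t1t]; exact hsg1 (Sum.inr (s2, s2'))
  have hside12 : ∃ φ : E →ₗ[ℝ] ℝ, φ ≠ 0 ∧
      (∀ a, a ≠ a1 → a ≠ a2 → ∀ b, φ (v (X a (τ a b))) = 0) ∧ φ (v (X a2 (τ a2 false))) = 0 ∧
      SignType.sign (φ (v (X a1 (τ a1 false)))) = SignType.sign (φ (v (X a1 (τ a1 true)))) := by
    refine ⟨Φ a0 s0 s0' a2 (c2 s2), hΦ0 _ _ _ _ _, ?_, ?_, ?_⟩
    · apply hvan _ a0 a1 a2
      · intro a h1 h2
        rcases hcase a with h | h | h | h
        · exact Or.inl h
        · exact absurd h h1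
        · exact absurd h h2
        · exact Or.inr h
      · rw [t0f]; exact hΦ1 _ _ _ _ _
      · rw [t0t]; exact hΦ2 _ _ _ _ _
      · exact hΦ4 _ _ _ _ _
    · rw [t2f]; exact hΦ3 _ _ _ _ _
    · rw [t1f, t1t]; exact hsg1 (Sum.inl s2)
  have hside20 : ∃ φ : E →ₗ[ℝ] ℝ, φ ≠ 0 ∧
      (∀ a, a ≠ a2 → a ≠ a0 → ∀ b, φ (v (X a (τ a b))) = 0) ∧ φ (v (X a0 (τ a0 false))) = 0 ∧
      SignType.sign (φ (v (X a2 (τ a2 false)))) = SignType.sign (φ (v (X a2 (τ a2 true)))) := by
    refine ⟨Φ a1 (c1 s1) (c1 s1') a0 s0, hΦ0 _ _ _ _ _, ?_, ?_, ?_⟩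
    · apply hvan _ a1 a2 a0
      · intro a h1 h2
        rcases hcase a with h | h | h | h
        · exact absurd h h2
        · exact Or.inl h
        · exact absurd h h1
        · exact Or.inr h
      · rw [t1f]; exact hΦ1 _ _ _ _ _
      · rw [t1t]; exact hΦ2 _ _ _ _ _
      · exact hΦ4 _ _ _ _ _
    · rw [t0f]; exact hΦ3 _ _ _ _ _
    · rw [t2f, t2t]; exact hsg2 true
  have hside21 : ∃ φ : E →ₗ[ℝ] ℝ, φ ≠ 0 ∧
      (∀ a, a ≠ a2 → a ≠ a1 → ∀ b, φ (v (X a (τ a b))) = 0) ∧ φ (v (X a1 (τ a1 false))) = 0 ∧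
      SignType.sign (φ (v (X a2 (τ a2 false)))) = SignType.sign (φ (v (X a2 (τ a2 true)))) := by
    refine ⟨Φ a0 s0 s0' a1 (c1 s1), hΦ0 _ _ _ _ _, ?_, ?_, ?_⟩
    · apply hvan _ a0 a2 a1
      · intro a h1 h2
        rcases hcase a with h | h | h | h
        · exact Or.inl h
        · exact absurd h h2
        · exact absurd h h1
        · exact Or.inr h
      · rw [t0f]; exact hΦ1 _ _ _ _ _
      · rw [t0t]; exact hΦ2 _ _ _ _ _
      · exact hΦ4 _ _ _ _ _
    · rw [t1f]; exact hΦ3 _ _ _ _ _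
    · rw [t2f, t2t]; exact hsg2 false
  refine lemmaA hk hE v (κ := Fin (k + 1)) (Fintype.card_fin _) ![a0, a1, a2] ?_
    (fun a b => X a (τ a b)) ?_ ?_ ?_
  · intro i j hij
    have h01 : a0 ≠ a1 := by intro h; have := congrArg Fin.val h; simp [ha0, ha1] at this
    have h02 : a0 ≠ a2 := by intro h; have := congrArg Fin.val h; simp [ha0, ha2] at this
    have h12 : a1 ≠ a2 := by intro h; have := congrArg Fin.val h; simp [ha1, ha2] at this
    fin_cases i <;> fin_cases j
    · rfl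
    · exact absurd hij h01
    · exact absurd hij h02
    · exact absurd hij h01.symm
    · rfl
    · exact absurd hij h12
    · exact absurd hij h02.symm
    · exact absurd hij h12.symm
    · rfl
  · intro a b a' b' h
    obtain ⟨h1, h2⟩ := hX _ _ _ _ h
    subst h1
    refine ⟨rfl, ?_⟩
    cases b <;> cases b'
    · rfl
    · exact absurd h2 (hτne a)
    · exact absurd h2.symm (hτne a)
    · rfl
  · intro j s
    have hlt : ((![a0, a1, a2] : Fin 3 → Fin (k + 1)) j).val < 3 := by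
      fin_cases j <;> simp [ha0, ha1, ha2]
    exact hfull _ hlt (fun a => τ a (s a))
  · intro i j hij
    fin_cases i <;> fin_cases j
    · exact absurd rfl hij
    · exact hside01
    · exact hside02
    · exact hside10
    · exact absurd rfl hij
    · exact hside12
    · exact hside20
    · exact hside21
    · exact absurd rfl hij

end Pool.Agent.Lib.MP_a3b162_co
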