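import Pool.Agent.Lib.MP_a3b162_co.Density

/-!
MODULE C1 (50 min).  Counting the signed faces.

PROOF.  Let `W` be exposed by `φ`, `card W = k`.  `(i,true)` and `(i,false)` are not both in `W`
(`φ (v i) = 1` and `-φ (v i) = 1`), so `I = W.image Prod.fst` has `k` elements; and for
`i ∉ I`: `φ (v i) < 1` and `-φ (v i) < 1`, so `|φ (v i)| < 1`.  `W` is determined by `I` and
the signs on `I`: at most `2^k` sets `W` for given `I`.  If `I` is not full then there is `σ` such
that no `φ` has `φ (v i) = sg (σ i)` on `I` and `|φ (v j)| < 1` outside; then the `W` with signs `σ`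
on `I` and the `W` with signs `!σ` on `I` are both not exposed (`φ ↦ -φ`), so at most `2^k - 2` sets.
Hence `#W ≤ 2^k C(n,k) - 2 (C(n,k) - Full)`, where `Full * k! ≤ (1/k+ε') n^k` (module `density`).
With `2^k C(n,k) ≤ C(2n,k)` and `n^k ≤ (1+ε') k! C(n,k)` for large `n`:
`#W ≤ C(2n,k) (1 - 2^{-(k-1)} (1 - (1/k+ε')(1+ε')))  ≤ (1 - (1-1/k)/2^{k-1} + ε) C(2n,k)`
for `ε'` small (`ε' = ε/4` and `ε ≤ 1` without loss of generality, or any choice).
-/


set_option autoImplicit false

namespace Pool.Agent.Lib.MP_a3b162_co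

section
variable {E : Type*} [AddCommGroup E] [Module ℝ E]

lemma Signed_both {n : ℕ} {v : Fin n → E} {W : Finset (Fin n × Bool)} (h : Expo v W) (i : Fin n)
    (h1 : (i, true) ∈ W) (h2 : (i, false) ∈ W) : False := by
  obtain ⟨φ, hφ⟩ := h
  have e1 := (hφ (i, true)).1 h1
  have e2 := (hφ (i, false)).1 h2
  simp only [sg] at e1 e2
  norm_num at e1 e2
  linarith

lemma Signed_card {n : ℕ} {v : Fin n → E} {W : Finset (Fin n × Bool)} (h : Expo v W) :
    (W.image Prod.fst).card = W.card := by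
  classical
  apply Finset.card_image_of_injOn
  rintro ⟨i, b⟩ hb ⟨j, c⟩ hc hij
  simp only at hij
  subst hij
  rcases b with _ | _ <;> rcases c with _ | _
  · rfl
  · exact (Signed_both h i hc hb).elim
  · exact (Signed_both h i hb hc).elim
  · rfl

lemma Signed_mem_true {n : ℕ} {W : Finset (Fin n × Bool)} {I : Finset (Fin n)}
    (hI : W.image Prod.fst = I) (i : Fin n) :
    (i, true) ∈ W ↔ i ∈ I.filter (fun i => (i, true) ∈ W) := by
  classical
  rw [Finset.mem_filter]
  constructor
  · intro h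
    refine ⟨?_, h⟩
    rw [← hI]
    exact Finset.mem_image_of_mem Prod.fst h
  · exact fun h => h.2

lemma Signed_mem_false {n : ℕ} {v : Fin n → E} {W : Finset (Fin n × Bool)} (hW : Expo v W)
    {I : Finset (Fin n)} (hI : W.image Prod.fst = I) (i : Fin n) :
    (i, false) ∈ W ↔ i ∈ I ∧ i ∉ I.filter (fun i => (i, true) ∈ W) := by
  classical
  constructor
  · intro h
    have hi : i ∈ I := by
      rw [← hI]
      exact Finset.mem_image_of_mem Prod.fst h
    refine ⟨hi, ?_⟩
    intro h'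
    rw [Finset.mem_filter] at h'
    exact Signed_both hW i h'.2 h
  · rintro ⟨hi, h'⟩
    rw [← hI, Finset.mem_image] at hi
    obtain ⟨⟨j, b⟩, hjb, hj⟩ := hi
    simp only at hj
    subst hj
    rcases b with _ | _
    · exact hjb
    · exfalso
      apply h'
      rw [← Signed_mem_true hI]
      exact hjb

lemma Signed_fiber {n k : ℕ} (hk : 1 ≤ k) (v : Fin n → E) (I : Finset (Fin n)) (hI : I.card = k)
    (T : Finset (Finset (Fin n × Bool)))
    (hT : ∀ W ∈ T, Expo v W ∧ W.image Prod.fst = I) [Decidable (FullS v I)] :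
    T.card + 2 ≤ 2 ^ k + (if FullS v I then 2 else 0) := by
  classical
  have hinj : Set.InjOn (fun W : Finset (Fin n × Bool) => I.filter (fun i => (i, true) ∈ W)) T := by
    intro W hW W' hW' hg
    obtain ⟨h1, h2⟩ := hT W hW
    obtain ⟨h1', h2'⟩ := hT W' hW'
    simp only at hg
    ext ⟨i, b⟩
    rcases b with _ | _
    · rw [Signed_mem_false h1 h2, Signed_mem_false h1' h2', hg]
    · rw [Signed_mem_true h2, Signed_mem_true h2', hg]
  have hsub : T.image (fun W : Finset (Fin n × Bool) => I.filter (fun i => (i, true) ∈ W)) ⊆ I.powerset := by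
    intro J hJ
    rw [Finset.mem_image] at hJ
    obtain ⟨W, _, rfl⟩ := hJ
    rw [Finset.mem_powerset]
    exact Finset.filter_subset _ _
  rw [← Finset.card_image_of_injOn hinj]
  split_ifs with hF
  · have := Finset.card_le_card hsub
    rw [Finset.card_powerset, hI] at this
    omega
  · unfold FullS at hF
    push Not at hF
    obtain ⟨σ, hσ⟩ := hF
    have key : ∀ W ∈ T, ∀ τ : Fin n → Bool,
        I.filter (fun i => (i, true) ∈ W) = I.filter (fun i => τ i = true) →
        ∃ φ : E →ₗ[ℝ] ℝ, (∀ i ∈ I, φ (v i) = sg (τ i)) ∧ ∀ j ∉ I, |φ (v j)| < 1 := by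
      intro W hW τ hτ
      obtain ⟨h1, h2⟩ := hT W hW
      obtain ⟨φ, hφ⟩ := id h1
      refine ⟨φ, ?_, ?_⟩
      · intro i hi
        cases hb : τ i
        · have hmem : (i, false) ∈ W := by
            rw [Signed_mem_false h1 h2]
            refine ⟨hi, ?_⟩
            rw [hτ, Finset.mem_filter, hb]
            simp
          have := (hφ (i, false)).1 hmem
          simp only [sg] at this ⊢
          norm_num at this ⊢
          linarith
        · have hmem : (i, true) ∈ W := by
            rw [Signed_mem_true h2, hτ, Finset.mem_filter]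
            exact ⟨hi, hb⟩
          have := (hφ (i, true)).1 hmem
          simp only [sg] at this ⊢
          norm_num at this ⊢
          linarith
      · intro j hj
        have h3 : (j, true) ∉ W := by
          intro h
          apply hj
          rw [← h2]
          exact Finset.mem_image_of_mem Prod.fst h
        have h4 : (j, false) ∉ W := by
          intro h
          apply hj
          rw [← h2]
          exact Finset.mem_image_of_mem Prod.fst h
        have e3 := (hφ (j, true)).2 h3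
        have e4 := (hφ (j, false)).2 h4
        simp only [sg] at e3 e4
        norm_num at e3 e4
        rw [abs_lt]
        constructor <;> linarith
    have hn1 : I.filter (fun i => σ i = true) ∉
        T.image (fun W : Finset (Fin n × Bool) => I.filter (fun i => (i, true) ∈ W)) := by
      intro h
      rw [Finset.mem_image] at h
      obtain ⟨W, hW, hWJ⟩ := h
      obtain ⟨φ, hφ1, hφ2⟩ := key W hW σ hWJ
      obtain ⟨j, hj, hj'⟩ := hσ φ hφ1
      exact absurd (hφ2 j hj) (not_lt.2 hj')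
    have hn2 : I.filter (fun i => (!σ i) = true) ∉
        T.image (fun W : Finset (Fin n × Bool) => I.filter (fun i => (i, true) ∈ W)) := by
      intro h
      rw [Finset.mem_image] at h
      obtain ⟨W, hW, hWJ⟩ := h
      obtain ⟨φ, hφ1, hφ2⟩ := key W hW (fun i => !σ i) hWJ
      obtain ⟨j, hj, hj'⟩ := hσ (-φ) (by
        intro i hi
        rw [LinearMap.neg_apply, hφ1 i hi, sg_not, neg_neg])
      rw [LinearMap.neg_apply, abs_neg] at hj'
      exact absurd (hφ2 j hj) (not_lt.2 hj')
    have hne : I.filter (fun i => σ i = true) ≠ I.filter (fun i => (!σ i) = true) := by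
      intro h
      obtain ⟨i, hi⟩ : I.Nonempty := by
        rw [← Finset.card_pos]; omega
      have h1 : i ∈ I.filter (fun i => σ i = true) ↔ i ∈ I.filter (fun i => (!σ i) = true) := by rw [h]
      rw [Finset.mem_filter, Finset.mem_filter] at h1
      cases hb : σ i <;> simp [hi, hb] at h1
    have hsub2 : insert (I.filter (fun i => σ i = true)) (insert (I.filter (fun i => (!σ i) = true))
        (T.image (fun W : Finset (Fin n × Bool) => I.filter (fun i => (i, true) ∈ W)))) ⊆ I.powerset := by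
      intro J hJ
      rw [Finset.mem_insert, Finset.mem_insert] at hJ
      rcases hJ with rfl | rfl | hJ
      · rw [Finset.mem_powerset]; exact Finset.filter_subset _ _
      · rw [Finset.mem_powerset]; exact Finset.filter_subset _ _
      · exact hsub hJ
    have := Finset.card_le_card hsub2
    rw [Finset.card_powerset, hI, Finset.card_insert_of_notMem, Finset.card_insert_of_notMem hn2] at this
    · omega
    · rw [Finset.mem_insert]
      rintro (h | h)
      · exact hne h
      · exact hn1 h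

open Finset in
lemma Signed_count {n k : ℕ} (hk : 1 ≤ k) (v : Fin n → E) :
    {W : Finset (Fin n × Bool) | W.card = k ∧ Expo v W}.ncard + 2 * n.choose k ≤
      2 ^ k * n.choose k + 2 * {I : Finset (Fin n) | I.card = k ∧ FullS v I}.ncard := by
  classical
  have h1 : {W : Finset (Fin n × Bool) | W.card = k ∧ Expo v W} =
      ↑(univ.filter (fun W : Finset (Fin n × Bool) => W.card = k ∧ Expo v W)) := by ext; simp
  have h2 : {I : Finset (Fin n) | I.card = k ∧ FullS v I} =
      ↑((powersetCard k (univ : Finset (Fin n))).filter (fun I => FullS v I)) := by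
    ext; simp [mem_powersetCard]
  rw [h1, h2, Set.ncard_coe_finset, Set.ncard_coe_finset]
  have h3 : (univ.filter (fun W : Finset (Fin n × Bool) => W.card = k ∧ Expo v W)).card =
      ∑ I ∈ powersetCard k (univ : Finset (Fin n)),
        ((univ.filter (fun W : Finset (Fin n × Bool) => W.card = k ∧ Expo v W)).filter
          (fun W => W.image Prod.fst = I)).card := by
    apply card_eq_sum_card_fiberwise
    intro W hW
    have hW' : W.card = k ∧ Expo v W := by simpa using hW
    rw [mem_coe, mem_powersetCard]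
    exact ⟨subset_univ _, by rw [Signed_card hW'.2, hW'.1]⟩
  have h4 : ∀ I ∈ powersetCard k (univ : Finset (Fin n)),
      ((univ.filter (fun W : Finset (Fin n × Bool) => W.card = k ∧ Expo v W)).filter
          (fun W => W.image Prod.fst = I)).card + 2 ≤ 2 ^ k + (if FullS v I then 2 else 0) := by
    intro I hI
    rw [mem_powersetCard] at hI
    apply Signed_fiber hk v I hI.2
    intro W hW
    rw [mem_filter, mem_filter] at hW
    exact ⟨hW.1.2.2, hW.2⟩
  have h5 := sum_le_sum h4
  rw [sum_add_distrib, ← h3, sum_add_distrib, sum_const, sum_const, card_powersetCard, card_univ,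
    Fintype.card_fin, ← sum_filter, sum_const, smul_eq_mul, smul_eq_mul, smul_eq_mul] at h5
  linarith

end

lemma Signed_pow (k : ℕ) (ε : ℝ) (hε : 0 < ε) : ∃ N : ℕ, ∀ n : ℕ, N ≤ n →
    (n : ℝ) ^ k ≤ (1 + ε) * ((k.factorial : ℝ) * (n.choose k : ℝ)) := by
  refine ⟨⌈(1 + ε) * (k : ℝ) ^ 2 / ε⌉₊ + k + 1, fun n hn => ?_⟩
  have hn1 : k + 1 ≤ n := by omega
  have hnR : (0 : ℝ) < n := by exact_mod_cast (by omega : 0 < n)
  have hnk : (k : ℝ) + 1 ≤ n := by exact_mod_cast hn1
  have h1 : (1 + ε) * (k : ℝ) ^ 2 / ε ≤ n := by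
    have h2 : (⌈(1 + ε) * (k : ℝ) ^ 2 / ε⌉₊ : ℝ) ≤ n := Nat.cast_le.2 (by omega)
    exact (Nat.le_ceil _).trans h2
  rw [div_le_iff₀ hε] at h1
  have h2 : ((n + 1 - k : ℕ) : ℝ) ^ k ≤ (k.factorial : ℝ) * (n.choose k : ℝ) := by
    have := Nat.pow_sub_le_descFactorial n k
    rw [Nat.descFactorial_eq_factorial_mul_choose] at this
    exact_mod_cast this
  have h3 : ((n + 1 - k : ℕ) : ℝ) = n * (1 + -(((k : ℝ) - 1) / n)) := by
    rw [Nat.cast_sub (by omega)]
    push_cast
    field_simp
    ring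
  rw [h3, mul_pow] at h2
  have h4 : 1 + (k : ℝ) * -(((k : ℝ) - 1) / n) ≤ (1 + -(((k : ℝ) - 1) / n)) ^ k := by
    apply one_add_mul_le_pow
    have : ((k : ℝ) - 1) / n ≤ 1 := by
      rw [div_le_one hnR]; linarith
    linarith
  have h5 : 1 ≤ (1 + ε) * (1 + (k : ℝ) * -(((k : ℝ) - 1) / n)) := by
    have h6 : (1 + ε) * (1 + (k : ℝ) * -(((k : ℝ) - 1) / n)) =
        (1 + ε) - ((1 + ε) * (k * (k - 1))) / n := by
      field_simp
      ring
    rw [h6]
    have h7 : ((1 + ε) * ((k : ℝ) * (k - 1))) / n ≤ ε := by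
      rw [div_le_iff₀ hnR]
      have : (1 + ε) * ((k : ℝ) * (k - 1)) ≤ (1 + ε) * (k : ℝ) ^ 2 := by
        apply mul_le_mul_of_nonneg_left _ (by linarith)
        nlinarith [Nat.cast_nonneg (α := ℝ) k]
      linarith
    linarith
  have hpos : (0 : ℝ) < (n : ℝ) ^ k := by positivity
  calc (n : ℝ) ^ k = (n : ℝ) ^ k * 1 := by ring
    _ ≤ (n : ℝ) ^ k * ((1 + ε) * (1 + (k : ℝ) * -(((k : ℝ) - 1) / n))) :=
        mul_le_mul_of_nonneg_left h5 hpos.le
    _ ≤ (n : ℝ) ^ k * ((1 + ε) * (1 + -(((k : ℝ) - 1) / n)) ^ k) := by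
        apply mul_le_mul_of_nonneg_left _ hpos.le
        exact mul_le_mul_of_nonneg_left h4 (by linarith)
    _ = (1 + ε) * ((n : ℝ) ^ k * (1 + -(((k : ℝ) - 1) / n)) ^ k) := by ring
    _ ≤ _ := mul_le_mul_of_nonneg_left h2 (by linarith)

lemma Signed_choose (n k : ℕ) : 2 ^ k * n.choose k ≤ (2 * n).choose k := by
  have h : ∀ k, 2 ^ k * n.descFactorial k ≤ (2 * n).descFactorial k := by
    intro k
    induction k with
    | zero => simp
    | succ k ih =>
      rw [Nat.descFactorial_succ, Nat.descFactorial_succ]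
      calc 2 ^ (k + 1) * ((n - k) * n.descFactorial k) = (2 * (n - k)) * (2 ^ k * n.descFactorial k) := by ring
        _ ≤ (2 * n - k) * (2 * n).descFactorial k := Nat.mul_le_mul (by omega) ih
  have h1 := h k
  rw [Nat.descFactorial_eq_factorial_mul_choose, Nat.descFactorial_eq_factorial_mul_choose] at h1
  have h2 : k.factorial * (2 ^ k * n.choose k) ≤ k.factorial * (2 * n).choose k := by
    calc k.factorial * (2 ^ k * n.choose k) = 2 ^ k * (k.factorial * n.choose k) := by ring
      _ ≤ _ := h1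
  exact Nat.le_of_mul_le_mul_left h2 (Nat.factorial_pos k)

theorem signed {k : ℕ} (hk : 2 ≤ k) (ε : ℝ) (hε : 0 < ε) : ∃ N : ℕ,
    ∀ (E : Type) [AddCommGroup E] [Module ℝ E] [FiniteDimensional ℝ E],
    Module.finrank ℝ E = 2 * k → ∀ n : ℕ, N ≤ n → ∀ v : Fin n → E,
    ({W : Finset (Fin n × Bool) | W.card = k ∧ Expo v W}.ncard : ℝ) ≤
      (1 - (1 - 1 / (k : ℝ)) / 2 ^ (k - 1) + ε) * ((2 * n).choose k : ℝ) := by
  set δ : ℝ := min ε 1 / 3 with hδ
  have hδ0 : 0 < δ := by
    have : 0 < min ε 1 := lt_min hε one_pos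
    rw [hδ]; linarith
  have hδ1 : δ ≤ 1 / 3 := by
    have : min ε 1 ≤ 1 := min_le_right _ _
    rw [hδ]; linarith
  have hδε : 3 * δ ≤ ε := by
    have : min ε 1 ≤ ε := min_le_left _ _
    rw [hδ]; linarith
  obtain ⟨N1, hN1⟩ := density hk δ hδ0
  obtain ⟨N2, hN2⟩ := Signed_pow k δ hδ0
  refine ⟨max N1 N2, ?_⟩
  intro E _ _ _ hE n hn v
  have hd := hN1 E hE n ((le_max_left _ _).trans hn) v
  have hp := hN2 n ((le_max_right _ _).trans hn)
  have hc := Signed_count (k := k) (by omega) v
  have hch := Signed_choose n k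
  set S := ({W : Finset (Fin n × Bool) | W.card = k ∧ Expo v W}.ncard)
  set F := ({I : Finset (Fin n) | I.card = k ∧ FullS v I}.ncard)
  have hcR : (S : ℝ) + 2 * (n.choose k : ℝ) ≤ 2 ^ k * (n.choose k : ℝ) + 2 * (F : ℝ) := by
    exact_mod_cast hc
  have hchR : (2 : ℝ) ^ k * (n.choose k : ℝ) ≤ ((2 * n).choose k : ℝ) := by exact_mod_cast hch
  set C : ℝ := (n.choose k : ℝ) with hC
  set D : ℝ := ((2 * n).choose k : ℝ)
  have hC0 : 0 ≤ C := Nat.cast_nonneg _
  have hD0 : 0 ≤ D := Nat.cast_nonneg _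
  have hkR : (2 : ℝ) ≤ k := by exact_mod_cast hk
  have hk1 : 1 / (k : ℝ) ≤ 1 := by
    rw [div_le_one (by linarith)]; linarith
  have hk0 : 0 < 1 / (k : ℝ) := by positivity
  have hfac : (0 : ℝ) < (k.factorial : ℝ) := by exact_mod_cast Nat.factorial_pos k
  -- F ≤ (1/k + δ) (1 + δ) C
  have hF : (F : ℝ) ≤ (1 / (k : ℝ) + δ) * (1 + δ) * C := by
    have h1 : (F : ℝ) * (k.factorial : ℝ) ≤ ((1 / (k : ℝ) + δ) * (1 + δ) * C) * (k.factorial : ℝ) := by
      calc (F : ℝ) * (k.factorial : ℝ) ≤ (1 / (k : ℝ) + δ) * (n : ℝ) ^ k := hd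
        _ ≤ (1 / (k : ℝ) + δ) * ((1 + δ) * ((k.factorial : ℝ) * C)) :=
            mul_le_mul_of_nonneg_left hp (by linarith)
        _ = _ := by ring
    exact le_of_mul_le_mul_right h1 hfac
  have hG : (1 / (k : ℝ) + δ) * (1 + δ) ≤ 1 / (k : ℝ) + ε := by
    have : (1 / (k : ℝ) + δ) * (1 + δ) = 1 / (k : ℝ) + δ * (1 / (k : ℝ) + 1 + δ) := by ring
    rw [this]
    nlinarith
  have hF2 : (F : ℝ) ≤ (1 / (k : ℝ) + ε) * C := hF.trans (mul_le_mul_of_nonneg_right hG hC0)
  obtain ⟨m, rfl⟩ : ∃ m, k = m + 1 := ⟨k - 1, by omega⟩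
  rw [Nat.add_sub_cancel]
  set a : ℝ := 1 / ((m + 1 : ℕ) : ℝ) with ha
  have hP : (1 : ℝ) ≤ 2 ^ m := one_le_pow₀ (by norm_num)
  have hP0 : (0 : ℝ) < 2 ^ m := by positivity
  rw [pow_succ] at hcR hchR
  set P : ℝ := 2 ^ m
  have h1 : (S : ℝ) ≤ (P * 2 * C) * (1 - (1 - (a + ε)) / P) := by
    have h2 : (P * 2 * C) * (1 - (1 - (a + ε)) / P) = P * 2 * C - 2 * C + 2 * ((a + ε) * C) := by
      field_simp
      ring
    rw [h2]
    linarith
  have h3 : 0 ≤ 1 - (1 - (a + ε)) / P := by
    have : (1 - (a + ε)) / P ≤ 1 := by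
      rw [div_le_one hP0]; linarith
    linarith
  have h4 : 1 - (1 - (a + ε)) / P ≤ 1 - (1 - a) / P + ε := by
    have h5 : (1 - (a + ε)) / P = (1 - a) / P - ε / P := by ring
    have h6 : ε / P ≤ ε := div_le_self hε.le hP
    rw [h5]; linarith
  calc (S : ℝ) ≤ (P * 2 * C) * (1 - (1 - (a + ε)) / P) := h1
    _ ≤ D * (1 - (1 - (a + ε)) / P) := mul_le_mul_of_nonneg_right hchR h3
    _ ≤ D * (1 - (1 - a) / P + ε) := mul_le_mul_of_nonneg_left h4 hD0
    _ = _ := by ring

end Pool.Agent.Lib.MP_a3b162_co
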