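import Pool.Agent.Lib.MP_a3b162_co.GB
import Pool.Agent.Lib.MP_a3b162_co.Signed

/-!
The upper bounds (module Upper of MP_a3b162_co).
-/

set_option autoImplicit false

namespace Pool.Agent.Lib.MP_a3b162_co

lemma Upper_finite {d : ℕ} {P : Set (Fin d → ℝ)} (hP : IsPolytope P) :
    {F : Set (Fin d → ℝ) | F.Nonempty ∧ IsExposed ℝ P F}.Finite := by
  refine Set.Finite.of_injOn (f := fun F => F ∩ P.extremePoints ℝ)
    (t := {A | A ⊆ P.extremePoints ℝ}) ?_ ?_ (ext_finite hP).finite_subsets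
  · intro F _
    exact Set.inter_subset_right
  · intro F hF F' hF' h
    rw [← face_hull hP hF.2 hF.1, ← face_hull hP hF'.2 hF'.1]
    exact congrArg _ h

theorem upper {k : ℕ} (hk : 2 ≤ k) (ε : ℝ) (hε : 0 < ε) : ∃ N : ℕ,
    ∀ P : Set (Fin (2 * k) → ℝ), IsPolytope P → IsCS P → N ≤ f 0 P →
    ({F : Set (Fin (2 * k) → ℝ) | F.Nonempty ∧ IsExposed ℝ P F ∧ F ≠ P ∧
        (F ∩ P.extremePoints ℝ).ncard = k}.ncard : ℝ) ≤
      (1 - (1 - 1 / (k : ℝ)) / 2 ^ (k - 1) + ε) * ((f 0 P).choose k : ℝ) := by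
  classical
  obtain ⟨N, hN⟩ := signed hk ε hε
  refine ⟨2 * N, fun P hP hcs hNP => ?_⟩
  obtain ⟨c, hc⟩ := hcs
  obtain ⟨n, v, hf0, hinj, hrange⟩ := half_system (by omega) hP hc
  rw [hf0] at hNP ⊢
  have hn : N ≤ n := by omega
  have hE : Module.finrank ℝ (Fin (2 * k) → ℝ) = 2 * k := by
    rw [Module.finrank_fintype_fun_eq_card, Fintype.card_fin]
  have key := hN (Fin (2 * k) → ℝ) hE n hn v
  refine le_trans ?_ key
  set W : Set (Fin (2 * k) → ℝ) → Finset (Fin n × Bool) := fun F =>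
    Finset.univ.filter fun q => c + sg q.2 • v q.1 ∈ F with hWdef
  have hWmem : ∀ F q, q ∈ W F ↔ c + sg q.2 • v q.1 ∈ F := by
    intro F q
    simp [hWdef]
  have hWF : ∀ F, (fun q : Fin n × Bool => c + sg q.2 • v q.1) '' (W F : Set (Fin n × Bool)) =
      F ∩ P.extremePoints ℝ := by
    intro F
    ext x
    constructor
    · rintro ⟨q, hq, rfl⟩
      refine ⟨(hWmem F q).1 hq, ?_⟩
      rw [← hrange]
      exact ⟨q, rfl⟩
    · rintro ⟨hx, hx'⟩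
      rw [← hrange] at hx'
      obtain ⟨q, rfl⟩ := hx'
      exact ⟨q, (hWmem F q).2 hx, rfl⟩
  exact_mod_cast Set.ncard_le_ncard_of_injOn W (by
    rintro F ⟨hne, hF, hFP, hcard⟩
    refine ⟨?_, face_expo hP hc v hrange hF hne hFP (W F) (hWmem F)⟩
    rw [← hcard, ← hWF F, Set.ncard_image_of_injective _ hinj, Set.ncard_coe_finset]) (by
    rintro F ⟨hne, hF, _, _⟩ F' ⟨hne', hF', _, _⟩ h
    have h2 : F ∩ P.extremePoints ℝ = F' ∩ P.extremePoints ℝ := by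
      rw [← hWF F, ← hWF F', h]
    rw [← face_hull hP hF hne, ← face_hull hP hF' hne', h2]) (Set.toFinite _)

theorem upper_simplicial {k : ℕ} (hk : 2 ≤ k) (ε : ℝ) (hε : 0 < ε) : ∃ N : ℕ,
    ∀ P : Set (Fin (2 * k) → ℝ), IsPolytope P → IsCS P → IsSimplicial P → N ≤ f 0 P →
    (f (k - 1) P : ℝ) ≤ (1 - (1 - 1 / (k : ℝ)) / 2 ^ (k - 1) + ε) * ((f 0 P).choose k : ℝ) := by
  obtain ⟨N, hN⟩ := upper hk ε hε
  refine ⟨N, fun P hP hcs hS hNP => le_trans ?_ (hN P hP hcs hNP)⟩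
  have hfin : {F : Set (Fin (2 * k) → ℝ) | F.Nonempty ∧ IsExposed ℝ P F ∧ F ≠ P ∧
        (F ∩ P.extremePoints ℝ).ncard = k}.Finite :=
    (Upper_finite hP).subset fun F hF => ⟨hF.1, hF.2.1⟩
  have hsub : {F : Set (Fin (2 * k) → ℝ) | F.Nonempty ∧ IsExposed ℝ P F ∧
      Module.finrank ℝ (vectorSpan ℝ F) = k - 1} ⊆
      {F : Set (Fin (2 * k) → ℝ) | F.Nonempty ∧ IsExposed ℝ P F ∧ F ≠ P ∧
        (F ∩ P.extremePoints ℝ).ncard = k} := by
    rintro F ⟨hne, hF, hdim⟩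
    have hFP : F ≠ P := by
      rintro rfl
      have h1 : vectorSpan ℝ F = ⊤ := by
        rw [← direction_affineSpan, hP.2, AffineSubspace.direction_top]
      rw [h1, finrank_top, Module.finrank_fintype_fun_eq_card, Fintype.card_fin] at hdim
      omega
    obtain ⟨s, hs, hFs⟩ := hS F hF hFP
    refine ⟨hne, hF, hFP, ?_⟩
    rw [simplex_card hP hF hne hs hFs, hdim]
    omega
  exact_mod_cast Set.ncard_le_ncard hsub hfin

theorem upper_edges (ε : ℝ) (hε : 0 < ε) : ∃ N : ℕ,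
    ∀ P : Set (Fin 4 → ℝ), IsPolytope P → IsCS P → N ≤ f 0 P →
    (f 1 P : ℝ) ≤ (3 / 4 + ε) * ((f 0 P).choose 2 : ℝ) := by
  obtain ⟨N, hN⟩ := upper (k := 2) le_rfl ε hε
  refine ⟨N, fun P hP hcs hNP => ?_⟩
  have key := hN P hP hcs hNP
  have hconst : (1 - (1 - 1 / ((2 : ℕ) : ℝ)) / 2 ^ (2 - 1) + ε) = 3 / 4 + ε := by norm_num
  rw [hconst] at key
  refine le_trans ?_ key
  have hfin : {F : Set (Fin 4 → ℝ) | F.Nonempty ∧ IsExposed ℝ P F ∧ F ≠ P ∧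
        (F ∩ P.extremePoints ℝ).ncard = 2}.Finite :=
    (Upper_finite hP).subset fun F hF => ⟨hF.1, hF.2.1⟩
  have hsub : {F : Set (Fin 4 → ℝ) | F.Nonempty ∧ IsExposed ℝ P F ∧
      Module.finrank ℝ (vectorSpan ℝ F) = 1} ⊆
      {F : Set (Fin 4 → ℝ) | F.Nonempty ∧ IsExposed ℝ P F ∧ F ≠ P ∧
        (F ∩ P.extremePoints ℝ).ncard = 2} := by
    rintro F ⟨hne, hF, hdim⟩
    have hFP : F ≠ P := by
      rintro rfl
      have h1 : vectorSpan ℝ F = ⊤ := by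
        rw [← direction_affineSpan, hP.2, AffineSubspace.direction_top]
      rw [h1, finrank_top, Module.finrank_fintype_fun_eq_card, Fintype.card_fin] at hdim
      omega
    exact ⟨hne, hF, hFP, edge_two hP hF hne hdim⟩
  exact_mod_cast Set.ncard_le_ncard hsub hfin

end Pool.Agent.Lib.MP_a3b162_co
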